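import Pool.Agent.Helper41.SK.MainDefs

set_option autoImplicit false

open scoped ENNReal NNReal Topology
open MeasureTheory ProbabilityTheory Set Filter
open Pool.Agent.Helper41.SK

namespace Pool.Agent.R969.MY

/-- the exponential martingale function `exp (μ b - μ² v / 2)` -/
noncomputable def fE (μ : ℂ) (v b : ℝ) : ℂ := Complex.exp (μ * b - μ ^ 2 * v / 2)

theorem fE_add (μ : ℂ) (v v' b b' : ℝ) : fE μ (v + v') (b + b') = fE μ v b * fE μ v' b' := by
  unfold fE
  rw [← Complex.exp_add]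
  congr 1
  push_cast
  ring

theorem fE_zero (μ : ℂ) : fE μ 0 0 = 1 := by
  unfold fE
  simp

theorem fE_cont (μ : ℂ) (v : ℝ) : Continuous (fE μ v) := by
  unfold fE
  fun_prop

section

variable {Ω : Type*} [mΩ : MeasurableSpace Ω] {P : Measure Ω} [IsProbabilityMeasure P]
  {F : ℝ → MeasurableSpace Ω} {B : ℝ → Ω → ℝ}

theorem bm_meas (hB : IsBM P F B) {t : ℝ} (ht : 0 ≤ t) : Measurable (B t) :=
  (hB.ca.adap t ht).mono (hB.filt.le t ht) le_rfl

theorem integrable_fE_incr (hB : IsBM P F B) {s t : ℝ} (hs : 0 ≤ s) (hst : s ≤ t) (μ : ℂ) :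
    Integrable (fun ω => fE μ (t - s) (B t ω - B s ω)) P := by
  have hm : Measurable (fun ω => B t ω - B s ω) :=
    (bm_meas hB (hs.trans hst)).sub (bm_meas hB hs)
  have h1 : Integrable (fun x => Real.exp (μ.re * x)) (gaussianReal 0 (t - s).toNNReal) :=
    integrable_exp_mul_gaussianReal μ.re
  rw [← hB.law s t hs hst] at h1
  have h2 : Integrable (fun ω => Real.exp (μ.re * (B t ω - B s ω))) P :=
    (integrable_map_measure (by fun_prop) hm.aemeasurable).1 h1
  refine Integrable.mono' (h2.mul_const (‖Complex.exp (- μ ^ 2 * (t - s : ℝ) / 2)‖)) ?_ ?_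
  · exact ((fE_cont μ (t - s)).measurable.comp hm).aestronglyMeasurable
  · refine Eventually.of_forall fun ω => ?_
    have : fE μ (t - s) (B t ω - B s ω) =
        Complex.exp (μ * (B t ω - B s ω : ℝ)) * Complex.exp (- μ ^ 2 * (t - s : ℝ) / 2) := by
      unfold fE
      rw [← Complex.exp_add]
      congr 1
      ring
    rw [this, norm_mul, Complex.norm_exp]
    simp

theorem integral_fE_incr (hB : IsBM P F B) {s t : ℝ} (hs : 0 ≤ s) (hst : s ≤ t) (μ : ℂ) :
    ∫ ω, fE μ (t - s) (B t ω - B s ω) ∂P = 1 := by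
  have h := complexMGF_gaussianReal (hB.law s t hs hst) μ
  unfold complexMGF at h
  have e : ∀ ω, fE μ (t - s) (B t ω - B s ω) =
        Complex.exp (μ * (B t ω - B s ω : ℝ)) * Complex.exp (- μ ^ 2 * (t - s : ℝ) / 2) := by
      intro ω
      unfold fE
      rw [← Complex.exp_add]
      congr 1
      ring
  simp_rw [e]
  rw [integral_mul_const, h, ← Complex.exp_add]
  have : (((t - s).toNNReal : ℝ) : ℂ) = ((t - s : ℝ) : ℂ) := by
    rw [Real.coe_toNNReal _ (by linarith)]
  rw [this]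
  have : μ * (0 : ℝ) + ((t - s : ℝ) : ℂ) * μ ^ 2 / 2 + -μ ^ 2 * ((t - s : ℝ) : ℂ) / 2 = 0 := by
    push_cast
    ring
  rw [this, Complex.exp_zero]

theorem step_indep (hB : IsBM P F B) {s t : ℝ} (hs : 0 ≤ s) (hst : s ≤ t) {β γ : Type*}
    [MeasurableSpace β] [MeasurableSpace γ] (Y : Ω → β) (hY : Measurable[F s] Y)
    (g : ℝ → γ) (hg : Measurable g) :
    IndepFun Y (fun ω => g (B t ω - B s ω)) P := by
  rw [IndepFun_iff_Indep]
  refine indep_of_indep_of_le_left (indep_of_indep_of_le_right (hB.indep s t hs hst).symm ?_) ?_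
  · rintro _ ⟨C, hC, rfl⟩
    exact ⟨g ⁻¹' C, hg hC, rfl⟩
  · exact hY.comap_le

theorem step_fE (hB : IsBM P F B) {s t : ℝ} (hs : 0 ≤ s) (hst : s ≤ t) (μ : ℂ)
    (Y : Ω → ℂ) (hY : Measurable[F s] Y) (hYi : Integrable Y P) :
    Integrable (fun ω => Y ω * fE μ (t - s) (B t ω - B s ω)) P ∧
    ∫ ω, Y ω * fE μ (t - s) (B t ω - B s ω) ∂P = ∫ ω, Y ω ∂P := by
  have hi := step_indep hB hs hst Y hY (fE μ (t - s)) (fE_cont μ (t - s)).measurable
  have h2 := integrable_fE_incr hB hs hst μ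
  constructor
  · exact hi.integrable_mul hYi h2
  · rw [hi.integral_fun_mul_eq_mul_integral hYi.aestronglyMeasurable h2.aestronglyMeasurable,
      integral_fE_incr hB hs hst μ, mul_one]

end

end Pool.Agent.R969.MY
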