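import Pool.Agent.R969.MY.A

set_option autoImplicit false

open scoped ENNReal NNReal Topology
open MeasureTheory ProbabilityTheory Set Filter
open Pool.Agent.Helper41.SK

namespace Pool.Agent.R969.MY

/-- first coefficient -/
noncomputable def cA (k θ : ℂ) (m : ℝ) : ℂ := Complex.exp ((2 * θ - k) * m) / (1 + 2 * θ)

/-- second coefficient -/
noncomputable def cC (k θ : ℂ) (m : ℝ) : ℂ :=
  (2 * θ - k) / ((1 + k) * (1 + 2 * θ)) * Complex.exp (-(k + 1) * m)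

/-- the test function -/
noncomputable def Phi (k θ : ℂ) (v b m : ℝ) : ℂ :=
  cA k θ m * fE (-θ) v b + cC k θ m * fE (1 + θ) v b

theorem fE_rel (θ : ℂ) (v b : ℝ) :
    fE (1 + θ) v b = fE (-θ) v b * Complex.exp ((1 + 2 * θ) * ((b - v / 2 : ℝ) : ℂ)) := by
  unfold fE
  rw [← Complex.exp_add]
  congr 1
  push_cast
  ring

theorem Phi_zero (k θ : ℂ) (hk : 1 + k ≠ 0) (hθ : 1 + 2 * θ ≠ 0) : Phi k θ 0 0 0 = 1 / (1 + k) := by
  unfold Phi cA cC
  rw [fE_zero, fE_zero]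
  simp only [Complex.ofReal_zero, mul_zero, Complex.exp_zero]
  field_simp
  ring

/-- the remainder function -/
noncomputable def psi (k θ : ℂ) (d : ℝ) : ℂ :=
  (1 + (2 * θ - k) / (1 + k)) * (Complex.exp ((2 * θ - k) * d) - 1 - (2 * θ - k) * d) -
    (2 * θ - k) / (1 + k) * (Complex.exp ((1 + 2 * θ) * d) - 1 - (1 + 2 * θ) * d)

theorem Phi_diff (k θ : ℂ) (hk : 1 + k ≠ 0) (hθ : 1 + 2 * θ ≠ 0) (v b m x : ℝ)
    (hx : x = b - v / 2) :
    Phi k θ v b x - Phi k θ v b m =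
      fE (-θ) v b * Complex.exp ((2 * θ - k) * m) / (1 + 2 * θ) * psi k θ (x - m) := by
  unfold Phi cA cC psi
  rw [fE_rel, ← hx]
  have e1 : Complex.exp ((2 * θ - k) * (x : ℂ)) =
      Complex.exp ((2 * θ - k) * m) * Complex.exp ((2 * θ - k) * ((x - m : ℝ) : ℂ)) := by
    rw [← Complex.exp_add]
    congr 1
    push_cast
    ring
  have e2 : Complex.exp (-(k + 1) * (x : ℂ)) * Complex.exp ((1 + 2 * θ) * (x : ℂ)) =
      Complex.exp ((2 * θ - k) * m) * Complex.exp ((2 * θ - k) * ((x - m : ℝ) : ℂ)) := by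
    rw [← Complex.exp_add, ← Complex.exp_add]
    congr 1
    push_cast
    ring
  have e3 : Complex.exp (-(k + 1) * (m : ℂ)) * Complex.exp ((1 + 2 * θ) * (x : ℂ)) =
      Complex.exp ((2 * θ - k) * m) * Complex.exp ((1 + 2 * θ) * ((x - m : ℝ) : ℂ)) := by
    rw [← Complex.exp_add, ← Complex.exp_add]
    congr 1
    push_cast
    ring
  set f := fE (-θ) v b
  set E1 := Complex.exp (-(k + 1) * (x : ℂ))
  set E2 := Complex.exp ((1 + 2 * θ) * (x : ℂ))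
  set E3 := Complex.exp (-(k + 1) * (m : ℂ))
  set G1 := Complex.exp ((2 * θ - k) * (m : ℂ))
  set G2 := Complex.exp ((2 * θ - k) * ((x - m : ℝ) : ℂ))
  set G3 := Complex.exp ((1 + 2 * θ) * ((x - m : ℝ) : ℂ))
  set d : ℂ := ((x - m : ℝ) : ℂ)
  rw [e1]
  have h : (G1 * G2 / (1 + 2 * θ) * f + (2 * θ - k) / ((1 + k) * (1 + 2 * θ)) * E1 * (f * E2) -
      (G1 / (1 + 2 * θ) * f + (2 * θ - k) / ((1 + k) * (1 + 2 * θ)) * E3 * (f * E2))) =
      G1 * G2 / (1 + 2 * θ) * f + (2 * θ - k) / ((1 + k) * (1 + 2 * θ)) * f * (E1 * E2) -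
      (G1 / (1 + 2 * θ) * f + (2 * θ - k) / ((1 + k) * (1 + 2 * θ)) * f * (E3 * E2)) := by ring
  rw [h, e2, e3]
  field_simp
  ring

theorem norm_exp_sub_le (z : ℂ) : ‖Complex.exp z - 1 - z‖ ≤ ‖z‖ ^ 2 * Real.exp ‖z‖ := by
  have h := Complex.norm_exp_sub_sum_le_norm_mul_exp z 2
  have e : ∑ m ∈ Finset.range 2, z ^ m / (m.factorial : ℂ) = 1 + z := by
    simp [Finset.sum_range_succ]
  rw [e] at h
  rwa [sub_sub]

theorem psi_bound (k θ : ℂ) : ∃ C R : ℝ, 0 ≤ C ∧ 0 ≤ R ∧ ∀ d : ℝ, 0 ≤ d →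
    ‖psi k θ d‖ ≤ C * (d ^ 2 * Real.exp (R * d)) := by
  set p : ℂ := 2 * θ - k with hp
  set q : ℂ := 1 + 2 * θ with hq
  set r : ℂ := (2 * θ - k) / (1 + k) with hr
  refine ⟨‖1 + r‖ * ‖p‖ ^ 2 + ‖r‖ * ‖q‖ ^ 2, ‖p‖ + ‖q‖, by positivity, by positivity, ?_⟩
  intro d hd
  have h1 : ‖Complex.exp (p * d) - 1 - p * d‖ ≤ ‖p‖ ^ 2 * (d ^ 2 * Real.exp ((‖p‖ + ‖q‖) * d)) := by
    refine (norm_exp_sub_le _).trans ?_
    have e : ‖p * (d : ℂ)‖ = ‖p‖ * d := by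
      rw [norm_mul, Complex.norm_real, Real.norm_of_nonneg hd]
    rw [e, mul_pow, mul_assoc]
    gcongr
    nlinarith [norm_nonneg q, mul_nonneg (norm_nonneg q) hd]
  have h2 : ‖Complex.exp (q * d) - 1 - q * d‖ ≤ ‖q‖ ^ 2 * (d ^ 2 * Real.exp ((‖p‖ + ‖q‖) * d)) := by
    refine (norm_exp_sub_le _).trans ?_
    have e : ‖q * (d : ℂ)‖ = ‖q‖ * d := by
      rw [norm_mul, Complex.norm_real, Real.norm_of_nonneg hd]
    rw [e, mul_pow, mul_assoc]
    gcongr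
    nlinarith [norm_nonneg p, mul_nonneg (norm_nonneg p) hd]
  have e : psi k θ d = (1 + r) * (Complex.exp (p * d) - 1 - p * d) -
      r * (Complex.exp (q * d) - 1 - q * d) := rfl
  rw [e]
  refine (norm_sub_le _ _).trans ?_
  rw [norm_mul, norm_mul]
  calc ‖1 + r‖ * ‖Complex.exp (p * d) - 1 - p * d‖ + ‖r‖ * ‖Complex.exp (q * d) - 1 - q * d‖
      ≤ ‖1 + r‖ * (‖p‖ ^ 2 * (d ^ 2 * Real.exp ((‖p‖ + ‖q‖) * d))) +
        ‖r‖ * (‖q‖ ^ 2 * (d ^ 2 * Real.exp ((‖p‖ + ‖q‖) * d))) := by gcongr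
    _ = _ := by ring

theorem norm_fE_neg_I (l v b : ℝ) : ‖fE (-(l * Complex.I)) v b‖ = Real.exp (l ^ 2 * v / 2) := by
  unfold fE
  rw [Complex.norm_exp]
  congr 1
  have e : -(↑l * Complex.I) * (b : ℂ) - (-(↑l * Complex.I)) ^ 2 * (v : ℂ) / 2 =
      ((l ^ 2 * v / 2 : ℝ) : ℂ) + ((-(l * b) : ℝ) : ℂ) * Complex.I := by
    push_cast
    have : (Complex.I) ^ 2 = -1 := Complex.I_sq
    linear_combination (-(l : ℂ) ^ 2 * v / 2) * this
  rw [e, Complex.add_re, Complex.ofReal_re, Complex.re_ofReal_mul, Complex.I_re, mul_zero, add_zero]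

theorem one_add_ne {k : ℂ} (hk : 0 ≤ k.re) : 1 + k ≠ 0 := by
  intro h
  have := congrArg Complex.re h
  simp at this
  linarith

theorem one_add_I_ne (l : ℝ) : (1 : ℂ) + 2 * (l * Complex.I) ≠ 0 := by
  intro h
  have := congrArg Complex.re h
  simp at this

theorem norm_exp_pm (k : ℂ) (l m : ℝ) :
    ‖Complex.exp ((2 * (l * Complex.I) - k) * m)‖ = Real.exp (-(k.re * m)) := by
  rw [Complex.norm_exp]
  congr 1
  simp

/-- the step bound -/
theorem phi_step (k : ℂ) (hk : 0 < k.re) (l T : ℝ) : ∃ C R : ℝ, 0 ≤ C ∧ 0 ≤ R ∧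
    ∀ v b m m' : ℝ, v ≤ T → 0 ≤ m → m' = max m (b - v / 2) →
    ‖Phi k (l * Complex.I) v b m' - Phi k (l * Complex.I) v b m‖ ≤
      C * ((m' - m) * Real.exp (R * (m' - m))) *
        (Real.exp (-(k.re * m)) - Real.exp (-(k.re * m'))) := by
  obtain ⟨C, R, hC, hR, hpsi⟩ := psi_bound k (l * Complex.I)
  refine ⟨Real.exp (l ^ 2 * T / 2) / ‖(1 : ℂ) + 2 * (l * Complex.I)‖ * C / k.re, R + k.re,
    by positivity, by positivity, ?_⟩
  intro v b m m' hv hm hm'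
  rcases le_total (b - v / 2) m with h | h
  · rw [max_eq_left h] at hm'
    subst hm'
    simp
  rw [max_eq_right h] at hm'
  rw [Phi_diff k _ (one_add_ne hk.le) (one_add_I_ne l) v b m m' hm', norm_mul, norm_div, norm_mul,
    norm_fE_neg_I, norm_exp_pm]
  set d := m' - m with hd
  have hd0 : 0 ≤ d := by rw [hd, hm']; linarith
  have hmd : m' = m + d := by rw [hd]; ring
  have h1 : Real.exp (-(k.re * m)) * d ≤ Real.exp (k.re * d) *
      (Real.exp (-(k.re * m)) - Real.exp (-(k.re * m'))) / k.re := by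
    rw [le_div_iff₀ hk]
    have e1 : Real.exp (-(k.re * m')) = Real.exp (-(k.re * m)) * Real.exp (-(k.re * d)) := by
      rw [← Real.exp_add, hmd]; congr 1; ring
    have e2 : Real.exp (k.re * d) * Real.exp (-(k.re * d)) = 1 := by
      rw [← Real.exp_add]; simp
    have e3 : k.re * d + 1 ≤ Real.exp (k.re * d) := Real.add_one_le_exp _
    rw [e1]
    have e4 : Real.exp (k.re * d) * (Real.exp (-(k.re * m)) -
        Real.exp (-(k.re * m)) * Real.exp (-(k.re * d))) =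
        Real.exp (-(k.re * m)) * (Real.exp (k.re * d) - 1) := by
      linear_combination (-Real.exp (-(k.re * m))) * e2
    rw [e4, mul_assoc]
    refine mul_le_mul_of_nonneg_left ?_ (Real.exp_pos _).le
    nlinarith
  have h2 : Real.exp (l ^ 2 * v / 2) ≤ Real.exp (l ^ 2 * T / 2) := by
    apply Real.exp_le_exp.2
    nlinarith [sq_nonneg l]
  have hn : 0 < ‖(1 : ℂ) + 2 * (l * Complex.I)‖ := norm_pos_iff.2 (one_add_I_ne l)
  calc Real.exp (l ^ 2 * v / 2) * Real.exp (-(k.re * m)) / ‖(1 : ℂ) + 2 * (l * Complex.I)‖ *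
        ‖psi k (l * Complex.I) d‖
      ≤ Real.exp (l ^ 2 * T / 2) * Real.exp (-(k.re * m)) / ‖(1 : ℂ) + 2 * (l * Complex.I)‖ *
        (C * (d ^ 2 * Real.exp (R * d))) := by
        gcongr
        exact hpsi d hd0
    _ = Real.exp (l ^ 2 * T / 2) / ‖(1 : ℂ) + 2 * (l * Complex.I)‖ * C *
        (d * Real.exp (R * d)) * (Real.exp (-(k.re * m)) * d) := by ring
    _ ≤ Real.exp (l ^ 2 * T / 2) / ‖(1 : ℂ) + 2 * (l * Complex.I)‖ * C *
        (d * Real.exp (R * d)) * (Real.exp (k.re * d) *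
      (Real.exp (-(k.re * m)) - Real.exp (-(k.re * m'))) / k.re) := by
        refine mul_le_mul_of_nonneg_left h1 (by positivity)
    _ = _ := by
        have : Real.exp ((R + k.re) * d) = Real.exp (R * d) * Real.exp (k.re * d) := by
          rw [← Real.exp_add]; congr 1; ring
        rw [this]
        ring

theorem norm_cA_le (k : ℂ) (hk : 0 ≤ k.re) (l m : ℝ) (hm : 0 ≤ m) :
    ‖cA k (l * Complex.I) m‖ ≤ 1 / ‖(1 : ℂ) + 2 * (l * Complex.I)‖ := by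
  unfold cA
  rw [norm_div, norm_exp_pm]
  gcongr
  rw [Real.exp_le_one_iff]
  have := mul_nonneg hk hm
  linarith

theorem norm_cC_le (k : ℂ) (hk : 0 ≤ k.re) (l m : ℝ) (hm : 0 ≤ m) :
    ‖cC k (l * Complex.I) m‖ ≤
      ‖(2 * (l * Complex.I) - k) / ((1 + k) * (1 + 2 * (l * Complex.I)))‖ := by
  unfold cC
  rw [norm_mul]
  refine mul_le_of_le_one_right (norm_nonneg _) ?_
  rw [Complex.norm_exp, Real.exp_le_one_iff]
  have : (-(k + 1) * (m : ℂ)).re = -((k.re + 1) * m) := by simp; ring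
  rw [this]
  have := mul_nonneg (by linarith : 0 ≤ k.re + 1) hm
  linarith

theorem cA_cont (k θ : ℂ) : Continuous (cA k θ) := by
  unfold cA
  fun_prop

theorem cC_cont (k θ : ℂ) : Continuous (cC k θ) := by
  unfold cC
  fun_prop

theorem Phi_cont (k θ : ℂ) (v : ℝ) : Continuous (fun q : ℝ × ℝ => Phi k θ v q.1 q.2) := by
  unfold Phi
  have h1 := cA_cont k θ
  have h2 := cC_cont k θ
  have h3 := fE_cont (-θ) v
  have h4 := fE_cont (1 + θ) v
  fun_prop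

theorem Phi_cont2 (k θ : ℂ) (v b : ℝ) : Continuous (fun q : ℝ => Phi k θ v b q) := by
  unfold Phi
  have h1 := cA_cont k θ
  have h2 := cC_cont k θ
  fun_prop

theorem Phi_tendsto (k θ : ℂ) (v b m : ℝ) (u : ℕ → ℝ) (h : Tendsto u atTop (𝓝 m)) :
    Tendsto (fun n => Phi k θ v b (u n)) atTop (𝓝 (Phi k θ v b m)) :=
  ((Phi_cont2 k θ v b).tendsto m).comp h

end Pool.Agent.R969.MY
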