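import Pool.Agent.R969.MY.B

set_option autoImplicit false

open scoped ENNReal NNReal Topology
open MeasureTheory ProbabilityTheory Set Filter
open Pool.Agent.Helper41.SK

namespace Pool.Agent.R969.MY

/-- the function `(|x| exp (R |x|))^4` -/
noncomputable def g4 (R x : ℝ) : ℝ := (|x| * Real.exp (R * |x|)) ^ 4

theorem g4_cont (R : ℝ) : Continuous (g4 R) := by
  unfold g4
  fun_prop

theorem g4_nonneg (R x : ℝ) : 0 ≤ g4 R x := by
  unfold g4
  positivity

theorem integrable_g4 (R : ℝ) (v : ℝ≥0) : Integrable (g4 R) (gaussianReal 0 v) := by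
  have h1 : Integrable (fun x => Real.exp ((4 * R + 1) * x)) (gaussianReal 0 v) :=
    integrable_exp_mul_gaussianReal _
  have h2 : Integrable (fun x => Real.exp (-(4 * R + 1) * x)) (gaussianReal 0 v) :=
    integrable_exp_mul_gaussianReal _
  refine Integrable.mono' ((h1.add h2).const_mul 24) (g4_cont R).aestronglyMeasurable
    (Eventually.of_forall fun x => ?_)
  rw [Real.norm_of_nonneg (g4_nonneg R x)]
  unfold g4
  have h3 : |x| ^ 4 ≤ 24 * Real.exp |x| := by
    have := Real.pow_div_factorial_le_exp |x| (abs_nonneg x) 4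
    have e : ((Nat.factorial 4 : ℕ) : ℝ) = 24 := by norm_num [Nat.factorial]
    rw [e] at this
    linarith
  have h4 : Real.exp (R * |x|) ^ 4 = Real.exp (4 * R * |x|) := by
    rw [← Real.exp_nat_mul]
    congr 1
    push_cast
    ring
  rw [mul_pow, h4]
  calc |x| ^ 4 * Real.exp (4 * R * |x|) ≤ 24 * Real.exp |x| * Real.exp (4 * R * |x|) := by gcongr
    _ = 24 * Real.exp ((4 * R + 1) * |x|) := by
        rw [mul_assoc, ← Real.exp_add]; congr 2; ring
    _ ≤ 24 * (Real.exp ((4 * R + 1) * x) + Real.exp (-(4 * R + 1) * x)) := by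
        refine mul_le_mul_of_nonneg_left ?_ (by norm_num)
        rcases abs_cases x with ⟨h, _⟩ | ⟨h, _⟩
        · rw [h]
          have := Real.exp_pos (-(4 * R + 1) * x)
          linarith
        · rw [h]
          have e : (4 * R + 1) * -x = -(4 * R + 1) * x := by ring
          rw [e]
          have := Real.exp_pos ((4 * R + 1) * x)
          linarith
    _ = _ := rfl

theorem g4_scale (R T c x : ℝ) (hR : 0 ≤ R) (hc : 0 ≤ c) (hcT : c ≤ Real.sqrt T) :
    g4 R (c * x) ≤ c ^ 4 * g4 (R * Real.sqrt T) x := by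
  unfold g4
  rw [abs_mul, abs_of_nonneg hc]
  have h : Real.exp (R * (c * |x|)) ≤ Real.exp (R * Real.sqrt T * |x|) := by
    apply Real.exp_le_exp.2
    have := mul_le_mul_of_nonneg_left hcT hR
    nlinarith [mul_le_mul_of_nonneg_right this (abs_nonneg x)]
  calc (c * |x| * Real.exp (R * (c * |x|))) ^ 4
      ≤ (c * |x| * Real.exp (R * Real.sqrt T * |x|)) ^ 4 := by gcongr
    _ = _ := by ring

theorem moment_g4 (R T : ℝ) (hR : 0 ≤ R) : ∃ C : ℝ, 0 ≤ C ∧ ∀ δ : ℝ, 0 ≤ δ → δ ≤ T →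
    ∫ x, g4 R x ∂(gaussianReal 0 δ.toNNReal) ≤ C * δ ^ 2 := by
  refine ⟨∫ x, g4 (R * Real.sqrt T) x ∂(gaussianReal 0 1),
    integral_nonneg fun x => g4_nonneg _ x, ?_⟩
  intro δ hδ hδT
  have e : gaussianReal 0 δ.toNNReal = (gaussianReal 0 1).map (fun x => Real.sqrt δ * x) := by
    have := gaussianReal_map_const_mul (μ := 0) (v := 1) (Real.sqrt δ)
    rw [this]
    congr 1
    · simp
    · ext
      simp [Real.sq_sqrt hδ, hδ]
  rw [e, integral_map (by fun_prop) (g4_cont R).aestronglyMeasurable]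
  have hi : Integrable (fun x => g4 (R * Real.sqrt T) x) (gaussianReal 0 1) :=
    integrable_g4 _ 1
  have hs : Real.sqrt δ ^ 4 = δ ^ 2 := by
    have : Real.sqrt δ ^ 4 = (Real.sqrt δ ^ 2) ^ 2 := by ring
    rw [this, Real.sq_sqrt hδ]
  calc ∫ x, g4 R (Real.sqrt δ * x) ∂(gaussianReal 0 1)
      ≤ ∫ x, Real.sqrt δ ^ 4 * g4 (R * Real.sqrt T) x ∂(gaussianReal 0 1) := by
        refine integral_mono_of_nonneg (Eventually.of_forall fun x => g4_nonneg _ _)
          (hi.const_mul _) (Eventually.of_forall fun x => ?_)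
        exact g4_scale R T _ x hR (Real.sqrt_nonneg _) (Real.sqrt_le_sqrt hδT)
    _ = _ := by rw [integral_const_mul, hs, mul_comm]

section

variable {Ω : Type*} [mΩ : MeasurableSpace Ω] {P : Measure Ω} [IsProbabilityMeasure P]
  {F : ℝ → MeasurableSpace Ω} {B : ℝ → Ω → ℝ}

/-- the shifted process with drift on the grid -/
noncomputable def xx (B : ℝ → Ω → ℝ) (s δ : ℝ) (i : ℕ) (ω : Ω) : ℝ :=
  B (s + i * δ) ω - B s ω - i * δ / 2

/-- the grid maximum -/
noncomputable def mm (B : ℝ → Ω → ℝ) (s δ : ℝ) : ℕ → Ω → ℝ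
  | 0 => fun _ => 0
  | (i + 1) => fun ω => max (mm B s δ i ω) (xx B s δ (i + 1) ω)

omit mΩ in
theorem mm_nonneg (s δ : ℝ) (i : ℕ) (ω : Ω) : 0 ≤ mm B s δ i ω := by
  induction i with
  | zero => exact le_rfl
  | succ i ih => exact le_max_of_le_left ih

omit mΩ in
theorem mm_mono (s δ : ℝ) (i : ℕ) (ω : Ω) : mm B s δ i ω ≤ mm B s δ (i + 1) ω :=
  le_max_left _ _

omit mΩ in
theorem xx_le_mm (s δ : ℝ) (i : ℕ) (ω : Ω) : xx B s δ i ω ≤ mm B s δ i ω := by
  cases i with
  | zero => simp [xx, mm]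
  | succ i => exact le_max_right _ _

omit mΩ in
theorem mm_incr_le (s δ : ℝ) (hδ : 0 ≤ δ) (i : ℕ) (ω : Ω) :
    mm B s δ (i + 1) ω - mm B s δ i ω ≤ |B (s + (i + 1 : ℕ) * δ) ω - B (s + i * δ) ω| := by
  have h1 := xx_le_mm (B := B) s δ i ω
  have h2 : xx B s δ (i + 1) ω ≤ mm B s δ i ω + |B (s + (i + 1 : ℕ) * δ) ω - B (s + i * δ) ω| := by
    have h3 := le_abs_self (B (s + (i + 1 : ℕ) * δ) ω - B (s + i * δ) ω)
    unfold xx at h1 ⊢
    push_cast at h3 ⊢
    nlinarith
  have h4 : mm B s δ (i + 1) ω ≤ mm B s δ i ω + |B (s + (i + 1 : ℕ) * δ) ω - B (s + i * δ) ω| := by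
    refine max_le ?_ h2
    have := abs_nonneg (B (s + (i + 1 : ℕ) * δ) ω - B (s + i * δ) ω)
    linarith
  linarith

theorem xx_meas (hB : IsBM P F B) {s δ : ℝ} (hs : 0 ≤ s) (hδ : 0 ≤ δ) (i : ℕ) :
    Measurable[F (s + i * δ)] (xx B s δ i) := by
  have h0 : 0 ≤ (i : ℝ) * δ := by positivity
  have h1 : Measurable[F (s + i * δ)] (B (s + i * δ)) := hB.ca.adap _ (by positivity)
  have h2 : Measurable[F (s + i * δ)] (B s) :=
    (hB.ca.adap s hs).mono (hB.filt.mono _ _ hs (by linarith)) le_rfl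
  exact (h1.sub h2).sub_const _

theorem mm_meas (hB : IsBM P F B) {s δ : ℝ} (hs : 0 ≤ s) (hδ : 0 ≤ δ) (i : ℕ) :
    Measurable[F (s + i * δ)] (mm B s δ i) := by
  induction i with
  | zero => exact measurable_const
  | succ i ih =>
    have h1 : Measurable[F (s + (i + 1 : ℕ) * δ)] (mm B s δ i) := by
      refine ih.mono (hB.filt.mono _ _ (by positivity) ?_) le_rfl
      push_cast
      nlinarith
    exact h1.max (xx_meas hB hs hδ (i + 1))

end

end Pool.Agent.R969.MY
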