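import Pool.Agent.R969.MY.C

set_option autoImplicit false

open scoped ENNReal NNReal Topology
open MeasureTheory ProbabilityTheory Set Filter
open Pool.Agent.Helper41.SK

namespace Pool.Agent.R969.MY

variable {Ω : Type*} [mΩ : MeasurableSpace Ω] {P : Measure Ω} [IsProbabilityMeasure P]
  {F : ℝ → MeasurableSpace Ω} {B : ℝ → Ω → ℝ}

theorem coef_int (hB : IsBM P F B) {s t : ℝ} (hs : 0 ≤ s) (hst : s ≤ t) (a : ℝ → ℂ)
    (ha : Continuous a) (Ca : ℝ) (hCa : ∀ m, 0 ≤ m → ‖a m‖ ≤ Ca) (μ : ℂ) (m : Ω → ℝ)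
    (hm : Measurable m) (hm0 : ∀ ω, 0 ≤ m ω) :
    Integrable (fun ω => a (m ω) * fE μ (t - s) (B t ω - B s ω)) P := by
  have h := integrable_fE_incr hB hs hst μ
  refine Integrable.bdd_mul (c := Ca) h (ha.measurable.comp hm).aestronglyMeasurable
    (Eventually.of_forall fun ω => hCa _ (hm0 ω))

theorem coef_step (hB : IsBM P F B) {s u t : ℝ} (hs : 0 ≤ s) (hsu : s ≤ u) (hut : u ≤ t)
    {A : Set Ω} (hA : MeasurableSet[F s] A) (a : ℝ → ℂ)
    (ha : Continuous a) (Ca : ℝ) (hCa : ∀ m, 0 ≤ m → ‖a m‖ ≤ Ca) (μ : ℂ) (m : Ω → ℝ)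
    (hm : Measurable[F u] m) (hm0 : ∀ ω, 0 ≤ m ω) :
    ∫ ω in A, a (m ω) * fE μ (t - s) (B t ω - B s ω) ∂P =
      ∫ ω in A, a (m ω) * fE μ (u - s) (B u ω - B s ω) ∂P := by
  have hA' : MeasurableSet A := hB.filt.le s hs A hA
  have hAu : MeasurableSet[F u] A := hB.filt.mono s u hs hsu A hA
  set Y : Ω → ℂ := A.indicator (fun ω => a (m ω) * fE μ (u - s) (B u ω - B s ω)) with hY
  have hu : 0 ≤ u := hs.trans hsu
  have hYm : Measurable[F u] Y := by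
    refine Measurable.indicator ?_ hAu
    refine Measurable.mul (ha.measurable.comp hm) ?_
    refine (fE_cont μ (u - s)).measurable.comp ?_
    exact (hB.ca.adap u hu).sub ((hB.ca.adap s hs).mono (hB.filt.mono _ _ hs hsu) le_rfl)
  have hYi : Integrable Y P :=
    (coef_int hB hs hsu a ha Ca hCa μ m (hm.mono (hB.filt.le u hu) le_rfl) hm0).indicator hA'
  obtain ⟨h1, h2⟩ := step_fE hB hu hut μ Y hYm hYi
  rw [← integral_indicator hA', ← integral_indicator hA', ← hY, ← h2]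
  congr 1
  funext ω
  by_cases hω : ω ∈ A
  · rw [hY, indicator_of_mem hω, indicator_of_mem hω]
    have : fE μ (t - s) (B t ω - B s ω) =
        fE μ (u - s) (B u ω - B s ω) * fE μ (t - u) (B t ω - B u ω) := by
      rw [← fE_add]
      congr 1 <;> ring
    rw [this]
    ring
  · rw [hY, indicator_of_notMem hω, indicator_of_notMem hω, zero_mul]

theorem Phi_int (hB : IsBM P F B) {s t : ℝ} (hs : 0 ≤ s) (hst : s ≤ t) (k : ℂ) (hk : 0 ≤ k.re)
    (l : ℝ) (m : Ω → ℝ) (hm : Measurable m) (hm0 : ∀ ω, 0 ≤ m ω) :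
    Integrable (fun ω => Phi k (l * Complex.I) (t - s) (B t ω - B s ω) (m ω)) P := by
  unfold Phi
  exact (coef_int hB hs hst _ (cA_cont _ _) _ (norm_cA_le k hk l) _ m hm hm0).add
    (coef_int hB hs hst _ (cC_cont _ _) _ (norm_cC_le k hk l) _ m hm hm0)

theorem Phi_step0 (hB : IsBM P F B) {s u t : ℝ} (hs : 0 ≤ s) (hsu : s ≤ u) (hut : u ≤ t)
    {A : Set Ω} (hA : MeasurableSet[F s] A) (k : ℂ) (hk : 0 ≤ k.re)
    (l : ℝ) (m : Ω → ℝ) (hm : Measurable[F u] m) (hm0 : ∀ ω, 0 ≤ m ω) :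
    ∫ ω in A, Phi k (l * Complex.I) (t - s) (B t ω - B s ω) (m ω) ∂P =
      ∫ ω in A, Phi k (l * Complex.I) (u - s) (B u ω - B s ω) (m ω) ∂P := by
  have hmm : Measurable m := hm.mono (hB.filt.le u (hs.trans hsu)) le_rfl
  unfold Phi
  rw [integral_add, integral_add,
    coef_step hB hs hsu hut hA _ (cA_cont _ _) _ (norm_cA_le k hk l) _ m hm hm0,
    coef_step hB hs hsu hut hA _ (cC_cont _ _) _ (norm_cC_le k hk l) _ m hm hm0]
  · exact (coef_int hB hs hsu _ (cA_cont _ _) _ (norm_cA_le k hk l) _ m hmm hm0).integrableOn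
  · exact (coef_int hB hs hsu _ (cC_cont _ _) _ (norm_cC_le k hk l) _ m hmm hm0).integrableOn
  · exact (coef_int hB hs (hsu.trans hut) _ (cA_cont _ _) _ (norm_cA_le k hk l) _ m hmm
      hm0).integrableOn
  · exact (coef_int hB hs (hsu.trans hut) _ (cC_cont _ _) _ (norm_cC_le k hk l) _ m hmm
      hm0).integrableOn

/-- the value at grid point `i` -/
noncomputable def EE (P : Measure Ω) (B : ℝ → Ω → ℝ) (k θ : ℂ) (s δ : ℝ) (A : Set Ω) (i : ℕ) : ℂ :=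
  ∫ ω in A, Phi k θ (i * δ) (B (s + i * δ) ω - B s ω) (mm B s δ i ω) ∂P

/-- the weight `ε + ε⁻³ ∑ g4 ξ_j` -/
noncomputable def WW (B : ℝ → Ω → ℝ) (s δ R ε : ℝ) (n : ℕ) (ω : Ω) : ℝ :=
  ε + ε⁻¹ ^ 3 * ∑ j ∈ Finset.range n, g4 R (B (s + (j + 1 : ℕ) * δ) ω - B (s + j * δ) ω)

theorem young4 (ε y : ℝ) (hε : 0 < ε) (hy : 0 ≤ y) : y ≤ ε + ε⁻¹ ^ 3 * y ^ 4 := by
  rcases le_total y ε with h | h
  · have : 0 ≤ ε⁻¹ ^ 3 * y ^ 4 := by positivity
    linarith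
  · have h1 : 1 ≤ (ε⁻¹ * y) := by
      rw [inv_mul_eq_div, one_le_div hε]
      exact h
    have h2 : 1 ≤ (ε⁻¹ * y) ^ 3 := one_le_pow₀ h1
    have h3 : ε⁻¹ ^ 3 * y ^ 4 = (ε⁻¹ * y) ^ 3 * y := by ring
    rw [h3]
    nlinarith

theorem WW_int (hB : IsBM P F B) {s δ : ℝ} (hs : 0 ≤ s) (hδ : 0 ≤ δ) (R ε : ℝ) (n : ℕ) :
    Integrable (WW B s δ R ε n) P := by
  unfold WW
  refine (integrable_const ε).add (Integrable.const_mul ?_ _)
  refine integrable_finsetSum _ fun j _ => ?_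
  have h0 : 0 ≤ s + j * δ := by positivity
  have h1 : s + j * δ ≤ s + (j + 1 : ℕ) * δ := by push_cast; nlinarith
  have hm : Measurable (fun ω => B (s + (j + 1 : ℕ) * δ) ω - B (s + j * δ) ω) :=
    (bm_meas hB (h0.trans h1)).sub (bm_meas hB h0)
  have h2 := integrable_g4 R ((s + (j + 1 : ℕ) * δ) - (s + j * δ)).toNNReal
  rw [← hB.law _ _ h0 h1] at h2
  exact (integrable_map_measure (g4_cont R).aestronglyMeasurable hm.aemeasurable).1 h2

theorem WW_le (hB : IsBM P F B) {s δ : ℝ} (hs : 0 ≤ s) (hδ : 0 ≤ δ) (R ε C : ℝ) (hε : 0 < ε)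
    (n : ℕ) (hC : ∫ x, g4 R x ∂(gaussianReal 0 δ.toNNReal) ≤ C * δ ^ 2) :
    ∫ ω, WW B s δ R ε n ω ∂P ≤ ε + ε⁻¹ ^ 3 * (n * (C * δ ^ 2)) := by
  unfold WW
  have hi : ∀ j : ℕ, Integrable (fun ω => g4 R (B (s + (j + 1 : ℕ) * δ) ω - B (s + j * δ) ω)) P ∧
      ∫ ω, g4 R (B (s + (j + 1 : ℕ) * δ) ω - B (s + j * δ) ω) ∂P ≤ C * δ ^ 2 := by
    intro j
    have h0 : 0 ≤ s + j * δ := by positivity
    have h1 : s + j * δ ≤ s + (j + 1 : ℕ) * δ := by push_cast; nlinarith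
    have hm : Measurable (fun ω => B (s + (j + 1 : ℕ) * δ) ω - B (s + j * δ) ω) :=
      (bm_meas hB (h0.trans h1)).sub (bm_meas hB h0)
    have e : (s + (j + 1 : ℕ) * δ) - (s + j * δ) = δ := by push_cast; ring
    have h3 := hB.law _ _ h0 h1
    rw [e] at h3
    have h2 := integrable_g4 R δ.toNNReal
    rw [← h3] at h2 hC
    rw [integral_map hm.aemeasurable (g4_cont R).aestronglyMeasurable] at hC
    exact ⟨(integrable_map_measure (g4_cont R).aestronglyMeasurable hm.aemeasurable).1 h2, hC⟩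
  rw [integral_add (integrable_const ε)
    ((integrable_finsetSum _ fun j _ => (hi j).1).const_mul _), integral_const_mul,
    integral_finsetSum _ fun j _ => (hi j).1]
  simp only [integral_const, probReal_univ, smul_eq_mul, one_mul]
  have : ∑ j ∈ Finset.range n, ∫ ω, g4 R (B (s + (j + 1 : ℕ) * δ) ω - B (s + j * δ) ω) ∂P ≤
      n * (C * δ ^ 2) := by
    calc _ ≤ ∑ _j ∈ Finset.range n, (C * δ ^ 2) := Finset.sum_le_sum fun j _ => (hi j).2
      _ = _ := by simp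
  gcongr

omit mΩ in
theorem le_WW {s δ : ℝ} (R ε : ℝ) (hR : 0 ≤ R) (hε : 0 < ε) (n i : ℕ) (hi : i < n) (ω : Ω) (d : ℝ)
    (hd : d ≤ |B (s + (i + 1 : ℕ) * δ) ω - B (s + i * δ) ω|) :
    d * Real.exp (R * d) ≤ WW B s δ R ε n ω := by
  set x := B (s + (i + 1 : ℕ) * δ) ω - B (s + i * δ) ω with hx
  have h1 : d * Real.exp (R * d) ≤ |x| * Real.exp (R * |x|) := by
    have : Real.exp (R * d) ≤ Real.exp (R * |x|) :=
      Real.exp_le_exp.2 (mul_le_mul_of_nonneg_left hd hR)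
    calc d * Real.exp (R * d) ≤ |x| * Real.exp (R * d) := by gcongr
      _ ≤ _ := by gcongr
  refine h1.trans ((young4 ε _ hε (by positivity)).trans ?_)
  unfold WW
  have h2 : (|x| * Real.exp (R * |x|)) ^ 4 ≤
      ∑ j ∈ Finset.range n, g4 R (B (s + (j + 1 : ℕ) * δ) ω - B (s + j * δ) ω) :=
    Finset.single_le_sum (f := fun j : ℕ => g4 R (B (s + (j + 1 : ℕ) * δ) ω - B (s + j * δ) ω))
      (fun j _ => g4_nonneg _ _) (Finset.mem_range.2 hi)
  gcongr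

end Pool.Agent.R969.MY
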