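import Pool.Agent.Helper41.SK.MainDefs

/-!
# Definitions for MP_e3daee_pr

Processes are indexed by `t : ℝ`, but only the times `t ≥ 0` matter. The structures `IsFilt`
(filtration whose time-zero σ-field contains the null sets), `IsCA` (continuous adapted process),
`IsMart` (martingale), `IsStop` (finite stopping time), `IsLocMart` (continuous local martingale),
`IsIncr` (continuous adapted nondecreasing process null at `0`) and `IsBM` (Brownian motion) are
those of `Pool.Agent.Helper41.SK.MainDefs`.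
-/

set_option autoImplicit false

open scoped ENNReal NNReal Topology
open MeasureTheory ProbabilityTheory Set Filter
open Pool.Agent.Helper41.SK

namespace Pool.Agent.R969.MY

/-- `Q` is the (pathwise) quadratic variation of `Y`: `Q` is continuous, null at `0`, and for every
`t ≥ 0` the sums of squared increments of `Y` along the finite partitions of `[0,t]` tend to `Q t`
in probability when the mesh tends to `0`. -/
structure IsQV {Ω : Type*} [mΩ : MeasurableSpace Ω] (P : Measure Ω) (Y Q : ℝ → Ω → ℝ) : Prop where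
  zero : ∀ ω, Q 0 ω = 0
  cont : ∀ ω, ContinuousOn (fun t => Q t ω) (Ici 0)
  lim : ∀ t : ℝ, 0 ≤ t → ∀ ε : ℝ, 0 < ε → ∃ δ : ℝ, 0 < δ ∧ ∀ (n : ℕ) (τ : ℕ → ℝ), Monotone τ →
    τ 0 = 0 → τ n = t → (∀ i < n, τ (i + 1) - τ i ≤ δ) →
    P {ω | ε ≤ |∑ i ∈ Finset.range n, (Y (τ (i + 1)) ω - Y (τ i) ω) ^ 2 - Q t ω|} ≤
      ENNReal.ofReal ε

/-- absolute continuity (`ε`-`δ` form, on every compact interval `[0,T]`) of the function `a` with
respect to the function `q` -/
def IsAC (a q : ℝ → ℝ) : Prop :=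
  ∀ T : ℝ, 0 ≤ T → ∀ ε : ℝ, 0 < ε → ∃ δ : ℝ, 0 < δ ∧ ∀ (n : ℕ) (u v : ℕ → ℝ),
    (∀ i < n, 0 ≤ u i ∧ u i ≤ v i ∧ v i ≤ T) →
    (∀ i < n, ∀ j < n, i ≠ j → Disjoint (Ioo (u i) (v i)) (Ioo (u j) (v j))) →
    ∑ i ∈ Finset.range n, |q (v i) - q (u i)| < δ →
    ∑ i ∈ Finset.range n, |a (v i) - a (u i)| < ε

/-- `Y = N + A` is the decomposition of the continuous process `Y` in the filtration `G`: `N` is a
continuous `G`-local martingale and `A` is a continuous `G`-adapted process, null at `0`, whose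
paths have finite variation on compact intervals. -/
structure IsDecomp {Ω : Type*} [mΩ : MeasurableSpace Ω] (P : Measure Ω)
    (G : ℝ → MeasurableSpace Ω) (Y N A : ℝ → Ω → ℝ) : Prop where
  locMart : IsLocMart P G N
  ca : IsCA G A
  zero : ∀ ω, A 0 ω = 0
  fv : ∀ ω, LocallyBoundedVariationOn (fun t => A t ω) (Ici 0)
  eq : ∀ᵐ ω ∂P, ∀ t, 0 ≤ t → Y t ω = N t ω + A t ω

/-- `Y` is a continuous `G`-semimartingale -/
def IsSemi {Ω : Type*} [mΩ : MeasurableSpace Ω] (P : Measure Ω)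
    (G : ℝ → MeasurableSpace Ω) (Y : ℝ → Ω → ℝ) : Prop :=
  IsCA G Y ∧ ∃ N A : ℝ → Ω → ℝ, IsDecomp P G Y N A

/-- `Y` is a regular `G`-semimartingale: for its decomposition `Y = N + A`, almost every path of `A`
is absolutely continuous with respect to the corresponding path of `[N,N]`. -/
def IsRegular {Ω : Type*} [mΩ : MeasurableSpace Ω] (P : Measure Ω)
    (G : ℝ → MeasurableSpace Ω) (Y : ℝ → Ω → ℝ) : Prop :=
  IsCA G Y ∧ ∃ N A Q : ℝ → Ω → ℝ, IsDecomp P G Y N A ∧ IsQV P N Q ∧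
    ∀ᵐ ω ∂P, IsAC (fun t => A t ω) (fun t => Q t ω)

end Pool.Agent.R969.MY
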