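import Pool.Agent.R969.MY.D

set_option autoImplicit false

open scoped ENNReal NNReal Topology
open MeasureTheory ProbabilityTheory Set Filter
open Pool.Agent.Helper41.SK

namespace Pool.Agent.R969.MY

variable {Ω : Type*} [mΩ : MeasurableSpace Ω] {P : Measure Ω} [IsProbabilityMeasure P]
  {F : ℝ → MeasurableSpace Ω} {B : ℝ → Ω → ℝ}

omit mΩ in
theorem WW_nonneg {B : ℝ → Ω → ℝ} (s δ R ε : ℝ) (hε : 0 < ε) (n : ℕ) (ω : Ω) :
    0 ≤ WW B s δ R ε n ω := by
  unfold WW
  have : 0 ≤ ∑ j ∈ Finset.range n, g4 R (B (s + (j + 1 : ℕ) * δ) ω - B (s + j * δ) ω) :=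
    Finset.sum_nonneg fun j _ => g4_nonneg _ _
  positivity

theorem EE_bound (hB : IsBM P F B) (k : ℂ) (hk : 0 < k.re) (l T : ℝ) : ∃ C R : ℝ, 0 ≤ C ∧ 0 ≤ R ∧
    ∀ s δ : ℝ, ∀ n : ℕ, 0 ≤ s → 0 ≤ δ → n * δ ≤ T → ∀ A, MeasurableSet[F s] A → ∀ ε : ℝ, 0 < ε →
    ∀ i ≤ n, ‖EE P B k (l * Complex.I) s δ A i - EE P B k (l * Complex.I) s δ A 0‖ ≤
      ∫ ω, C * (WW B s δ R ε n ω * (1 - Real.exp (-(k.re * mm B s δ i ω)))) ∂P := by
  obtain ⟨C, R, hC, hR, hstep⟩ := phi_step k hk l T
  refine ⟨C, R, hC, hR, ?_⟩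
  intro s δ n hs hδ hn A hA ε hε i
  have hmeas : ∀ i, Measurable (mm B s δ i) := fun i =>
    (mm_meas hB hs hδ i).mono (hB.filt.le _ (by positivity)) le_rfl
  have hWi : ∀ i, Integrable (fun ω => C * (WW B s δ R ε n ω *
      Real.exp (-(k.re * mm B s δ i ω)))) P := by
    intro i
    refine Integrable.const_mul ?_ _
    refine Integrable.mul_bdd (c := 1) (WW_int hB hs hδ R ε n) ?_ ?_
    · exact (Real.measurable_exp.comp ((hmeas i).const_mul _).neg).aestronglyMeasurable
    · refine Eventually.of_forall fun ω => ?_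
      rw [Real.norm_of_nonneg (Real.exp_pos _).le, Real.exp_le_one_iff]
      have := mul_nonneg hk.le (mm_nonneg (B := B) s δ i ω)
      linarith
  have hW0 : Integrable (fun ω => C * WW B s δ R ε n ω) P := (WW_int hB hs hδ R ε n).const_mul _
  have hA' : MeasurableSet A := hB.filt.le s hs A hA
  induction i with
  | zero =>
    intro _
    simp [mm]
  | succ i ih =>
    intro hi
    have ih' := ih (by omega)
    have hle : s ≤ s + i * δ := by nlinarith [(Nat.cast_nonneg i : (0:ℝ) ≤ i)]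
    have hle2 : s + i * δ ≤ s + (i + 1 : ℕ) * δ := by push_cast; nlinarith
    have e1 : (s + (i + 1 : ℕ) * δ) - s = (i + 1 : ℕ) * δ := by ring
    have e2 : (s + i * δ) - s = i * δ := by ring
    -- the first bracket
    have hb1 := Phi_step0 hB hs hle hle2 hA k hk.le l (mm B s δ i) (mm_meas hB hs hδ i)
      (mm_nonneg s δ i)
    rw [e1, e2] at hb1
    have hI1 := Phi_int hB hs (hle.trans hle2) k hk.le l (mm B s δ i) (hmeas i) (mm_nonneg s δ i)
    have hI2 := Phi_int hB hs (hle.trans hle2) k hk.le l (mm B s δ (i + 1)) (hmeas (i + 1))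
      (mm_nonneg s δ (i + 1))
    rw [e1] at hI1 hI2
    have hdiff : EE P B k (l * Complex.I) s δ A (i + 1) - EE P B k (l * Complex.I) s δ A i =
        ∫ ω in A, (Phi k (l * Complex.I) ((i + 1 : ℕ) * δ) (B (s + (i + 1 : ℕ) * δ) ω - B s ω)
          (mm B s δ (i + 1) ω) - Phi k (l * Complex.I) ((i + 1 : ℕ) * δ)
          (B (s + (i + 1 : ℕ) * δ) ω - B s ω) (mm B s δ i ω)) ∂P := by
      rw [integral_sub hI2.integrableOn hI1.integrableOn, hb1]
      rfl
    have hpt : ∀ ω, ‖Phi k (l * Complex.I) ((i + 1 : ℕ) * δ) (B (s + (i + 1 : ℕ) * δ) ω - B s ω)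
          (mm B s δ (i + 1) ω) - Phi k (l * Complex.I) ((i + 1 : ℕ) * δ)
          (B (s + (i + 1 : ℕ) * δ) ω - B s ω) (mm B s δ i ω)‖ ≤
        C * (WW B s δ R ε n ω * Real.exp (-(k.re * mm B s δ i ω))) -
        C * (WW B s δ R ε n ω * Real.exp (-(k.re * mm B s δ (i + 1) ω))) := by
      intro ω
      have hT : ((i + 1 : ℕ) : ℝ) * δ ≤ T := by
        refine le_trans ?_ hn
        have : ((i + 1 : ℕ) : ℝ) ≤ n := by exact_mod_cast hi
        exact mul_le_mul_of_nonneg_right this hδ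
      have h1 := hstep ((i + 1 : ℕ) * δ) (B (s + (i + 1 : ℕ) * δ) ω - B s ω) (mm B s δ i ω)
        (mm B s δ (i + 1) ω) hT (mm_nonneg s δ i ω) rfl
      refine h1.trans ?_
      have h2 := le_WW (B := B) (s := s) (δ := δ) R ε hR hε n i (by omega) ω _
        (mm_incr_le (B := B) s δ hδ i ω)
      have h3 : 0 ≤ Real.exp (-(k.re * mm B s δ i ω)) -
          Real.exp (-(k.re * mm B s δ (i + 1) ω)) := by
        rw [sub_nonneg]
        apply Real.exp_le_exp.2
        have := mul_le_mul_of_nonneg_left (mm_mono (B := B) s δ i ω) hk.le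
        linarith
      calc C * ((mm B s δ (i + 1) ω - mm B s δ i ω) *
            Real.exp (R * (mm B s δ (i + 1) ω - mm B s δ i ω))) *
            (Real.exp (-(k.re * mm B s δ i ω)) - Real.exp (-(k.re * mm B s δ (i + 1) ω)))
          ≤ C * WW B s δ R ε n ω *
            (Real.exp (-(k.re * mm B s δ i ω)) - Real.exp (-(k.re * mm B s δ (i + 1) ω))) := by
            gcongr
        _ = _ := by ring
    have hnorm : ‖EE P B k (l * Complex.I) s δ A (i + 1) - EE P B k (l * Complex.I) s δ A i‖ ≤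
        ∫ ω, (C * (WW B s δ R ε n ω * Real.exp (-(k.re * mm B s δ i ω))) -
        C * (WW B s δ R ε n ω * Real.exp (-(k.re * mm B s δ (i + 1) ω)))) ∂P := by
      rw [hdiff]
      refine (norm_integral_le_integral_norm _).trans ?_
      have hint := (hWi i).sub (hWi (i + 1))
      refine (integral_mono_of_nonneg (Eventually.of_forall fun ω => norm_nonneg _)
        hint.integrableOn (Eventually.of_forall hpt)).trans ?_
      refine setIntegral_le_integral hint (Eventually.of_forall fun ω => ?_)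
      exact (norm_nonneg _).trans (hpt ω)
    calc ‖EE P B k (l * Complex.I) s δ A (i + 1) - EE P B k (l * Complex.I) s δ A 0‖
        = ‖(EE P B k (l * Complex.I) s δ A (i + 1) - EE P B k (l * Complex.I) s δ A i) +
          (EE P B k (l * Complex.I) s δ A i - EE P B k (l * Complex.I) s δ A 0)‖ := by
          congr 1; ring
      _ ≤ _ := norm_add_le _ _
      _ ≤ (∫ ω, (C * (WW B s δ R ε n ω * Real.exp (-(k.re * mm B s δ i ω))) -
        C * (WW B s δ R ε n ω * Real.exp (-(k.re * mm B s δ (i + 1) ω)))) ∂P) +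
        ∫ ω, C * (WW B s δ R ε n ω * (1 - Real.exp (-(k.re * mm B s δ i ω)))) ∂P :=
          add_le_add hnorm ih'
      _ = _ := by
        have hj1 : Integrable (fun ω => C * (WW B s δ R ε n ω *
            Real.exp (-(k.re * mm B s δ i ω))) - C * (WW B s δ R ε n ω *
            Real.exp (-(k.re * mm B s δ (i + 1) ω)))) P := (hWi i).sub (hWi (i + 1))
        have hj2 : Integrable (fun ω => C * (WW B s δ R ε n ω *
            (1 - Real.exp (-(k.re * mm B s δ i ω))))) P := by
          have : (fun ω => C * (WW B s δ R ε n ω * (1 - Real.exp (-(k.re * mm B s δ i ω))))) =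
            fun ω => C * WW B s δ R ε n ω -
              C * (WW B s δ R ε n ω * Real.exp (-(k.re * mm B s δ i ω))) := by
            funext ω; ring
          rw [this]
          exact hW0.sub (hWi i)
        rw [← integral_add hj1 hj2]
        congr 1
        funext ω
        ring

/-- uniform bound for the last grid point -/
theorem EE_final (hB : IsBM P F B) (k : ℂ) (hk : 0 < k.re) (l T : ℝ) (hT : 0 ≤ T) :
    ∃ C C' : ℝ, 0 ≤ C ∧ 0 ≤ C' ∧
    ∀ s : ℝ, ∀ n : ℕ, 0 ≤ s → 1 ≤ n → ∀ A, MeasurableSet[F s] A → ∀ ε : ℝ, 0 < ε →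
    ‖EE P B k (l * Complex.I) s (T / n) A n - (P.real A : ℂ) / (1 + k)‖ ≤
      C * (ε + ε⁻¹ ^ 3 * (C' / n)) := by
  obtain ⟨C, R, hC, hR, h⟩ := EE_bound hB k hk l T
  obtain ⟨C2, hC2, h2⟩ := moment_g4 R T hR
  refine ⟨C, C2 * T ^ 2, hC, by positivity, ?_⟩
  intro s n hs hn A hA ε hε
  have hn0 : (0 : ℝ) < n := by exact_mod_cast hn
  have hδ : 0 ≤ T / n := by positivity
  have hnδ : n * (T / n) = T := by field_simp
  have hδT : T / n ≤ T := div_le_self hT (by exact_mod_cast hn)
  have h3 := h s (T / n) n hs hδ hnδ.le A hA ε hε n le_rfl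
  have e0 : EE P B k (l * Complex.I) s (T / n) A 0 = (P.real A : ℂ) / (1 + k) := by
    unfold EE
    simp only [Nat.cast_zero, zero_mul, add_zero, sub_self, mm]
    rw [Phi_zero k _ (one_add_ne hk.le) (one_add_I_ne l), setIntegral_const]
    rw [Complex.real_smul]
    ring
  rw [e0] at h3
  refine h3.trans ?_
  have h4 := WW_le hB hs hδ R ε C2 hε n (h2 (T / n) hδ hδT)
  have e1 : (n : ℝ) * (C2 * (T / n) ^ 2) = C2 * T ^ 2 / n := by field_simp
  rw [e1] at h4
  rw [integral_const_mul]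
  refine mul_le_mul_of_nonneg_left ?_ hC
  refine le_trans ?_ h4
  refine integral_mono_of_nonneg (Eventually.of_forall fun ω => ?_) (WW_int hB hs hδ R ε n)
    (Eventually.of_forall fun ω => ?_)
  · refine mul_nonneg (WW_nonneg s _ R ε hε n ω) ?_
    rw [sub_nonneg, Real.exp_le_one_iff]
    have := mul_nonneg hk.le (mm_nonneg (B := B) s (T / n) n ω)
    linarith
  · refine mul_le_of_le_one_right (WW_nonneg s _ R ε hε n ω) ?_
    have := Real.exp_pos (-(k.re * mm B s (T / n) n ω))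
    linarith

end Pool.Agent.R969.MY
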