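import Pool.Agent.R969.MY.E

set_option autoImplicit false

open scoped ENNReal NNReal Topology
open MeasureTheory ProbabilityTheory Set Filter
open Pool.Agent.Helper41.SK

namespace Pool.Agent.R969.MY

variable {Ω : Type*} [mΩ : MeasurableSpace Ω] {P : Measure Ω} [IsProbabilityMeasure P]
  {F : ℝ → MeasurableSpace Ω} {B : ℝ → Ω → ℝ}

/-- Brownian motion with drift `-1/2` -/
noncomputable def XX (B : ℝ → Ω → ℝ) (t : ℝ) (ω : Ω) : ℝ := B t ω - t / 2

/-- the supremum of `XX` over `[s,t]` -/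
noncomputable def SX (B : ℝ → Ω → ℝ) (s t : ℝ) (ω : Ω) : ℝ :=
  sSup ((fun u => XX B u ω) '' Icc s t)

omit mΩ in
theorem XX_contOn {ω : Ω} (hc : ContinuousOn (fun t => B t ω) (Ici 0)) {s t : ℝ} (hs : 0 ≤ s) :
    ContinuousOn (fun u => XX B u ω) (Icc s t) := by
  have h1 : ContinuousOn (fun u => B u ω) (Icc s t) := hc.mono fun u hu => hs.trans hu.1
  exact h1.sub (by fun_prop)

omit mΩ in
theorem XX_bdd {ω : Ω} (hc : ContinuousOn (fun t => B t ω) (Ici 0)) {s t : ℝ} (hs : 0 ≤ s) :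
    BddAbove ((fun u => XX B u ω) '' Icc s t) :=
  (isCompact_Icc.image_of_continuousOn (XX_contOn hc hs)).bddAbove

omit mΩ in
theorem XX_le_SX {ω : Ω} (hc : ContinuousOn (fun t => B t ω) (Ici 0)) {s t u : ℝ} (hs : 0 ≤ s)
    (hu : u ∈ Icc s t) : XX B u ω ≤ SX B s t ω :=
  le_csSup (XX_bdd hc hs) ⟨u, hu, rfl⟩

omit mΩ in
theorem SX_attained {ω : Ω} (hc : ContinuousOn (fun t => B t ω) (Ici 0)) {s t : ℝ} (hs : 0 ≤ s)
    (hst : s ≤ t) : ∃ u ∈ Icc s t, XX B u ω = SX B s t ω := by
  obtain ⟨u, hu, h⟩ := isCompact_Icc.exists_isMaxOn (nonempty_Icc.2 hst) (XX_contOn hc hs)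
  refine ⟨u, hu, le_antisymm (XX_le_SX hc hs hu) ?_⟩
  refine csSup_le ((nonempty_Icc.2 hst).image _) ?_
  rintro _ ⟨v, hv, rfl⟩
  exact h hv

omit mΩ in
theorem xx_eq (s δ : ℝ) (i : ℕ) (ω : Ω) : xx B s δ i ω = XX B (s + i * δ) ω - XX B s ω := by
  unfold xx XX
  ring

omit mΩ in
theorem mm_le_SX {ω : Ω} (hc : ContinuousOn (fun t => B t ω) (Ici 0)) {s T δ : ℝ} (hs : 0 ≤ s)
    (hδ : 0 ≤ δ) (hT : 0 ≤ T) (i : ℕ) (hi : i * δ ≤ T) :
    mm B s δ i ω ≤ SX B s (s + T) ω - XX B s ω := by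
  induction i with
  | zero =>
    have := XX_le_SX (B := B) hc hs (⟨le_rfl, by linarith⟩ : s ∈ Icc s (s + T))
    simp only [mm]
    linarith
  | succ i ih =>
    refine max_le (ih ?_) ?_
    · push_cast at hi
      nlinarith
    · rw [xx_eq]
      have : s + (i + 1 : ℕ) * δ ∈ Icc s (s + T) := by
        refine ⟨?_, by linarith⟩
        have : (0 : ℝ) ≤ (i + 1 : ℕ) * δ := by positivity
        linarith
      have := XX_le_SX (B := B) hc hs this
      linarith

omit mΩ in
theorem mm_mono' (s δ : ℝ) (ω : Ω) {i j : ℕ} (hij : i ≤ j) : mm B s δ i ω ≤ mm B s δ j ω :=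
  monotone_nat_of_le_succ (fun i => mm_mono s δ i ω) hij

omit mΩ in
theorem mm_tendsto {ω : Ω} (hc : ContinuousOn (fun t => B t ω) (Ici 0)) {s T : ℝ} (hs : 0 ≤ s)
    (hT : 0 ≤ T) :
    Tendsto (fun n : ℕ => mm B s (T / n) n ω) atTop (𝓝 (SX B s (s + T) ω - XX B s ω)) := by
  obtain ⟨u, hu, hmax⟩ := SX_attained (B := B) hc hs (by linarith : s ≤ s + T)
  set i : ℕ → ℕ := fun n => ⌊(u - s) / (T / n)⌋₊ with hi
  have hu0 : 0 ≤ u - s := by linarith [hu.1]
  have hle : ∀ n : ℕ, 1 ≤ n → i n ≤ n ∧ s + i n * (T / n) ≤ u ∧ u ≤ s + i n * (T / n) + T / n := by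
    intro n hn
    have hn0 : (0 : ℝ) < n := by exact_mod_cast hn
    rcases hT.eq_or_lt with h0 | h0
    · have hus : u = s := le_antisymm (by linarith [hu.2]) hu.1
      have : i n = 0 := by simp only [hi]; simp [hus]
      rw [this, ← h0, hus]
      simp
    · have hδ : 0 < T / n := by positivity
      have h1 : (i n : ℝ) ≤ (u - s) / (T / n) := Nat.floor_le (by positivity)
      have h2 : (u - s) / (T / n) < i n + 1 := Nat.lt_floor_add_one _
      rw [le_div_iff₀ hδ] at h1
      rw [div_lt_iff₀ hδ] at h2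
      refine ⟨?_, by linarith, by nlinarith⟩
      have h3 : (i n : ℝ) * (T / n) ≤ n * (T / n) := by
        have : n * (T / n) = T := by field_simp
        rw [this]
        linarith [hu.2]
      exact_mod_cast le_of_mul_le_mul_right h3 hδ
  have hlim : Tendsto (fun n : ℕ => s + i n * (T / n)) atTop (𝓝 u) := by
    have h0 : Tendsto (fun n : ℕ => u - T / n) atTop (𝓝 (u - 0)) :=
      tendsto_const_nhds.sub (tendsto_const_div_atTop_nhds_zero_nat T)
    rw [sub_zero] at h0
    refine tendsto_of_tendsto_of_tendsto_of_le_of_le' h0 tendsto_const_nhds ?_ ?_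
    · filter_upwards [eventually_ge_atTop 1] with n hn
      linarith [(hle n hn).2.2]
    · filter_upwards [eventually_ge_atTop 1] with n hn
      exact (hle n hn).2.1
  have hX : Tendsto (fun n : ℕ => XX B (s + i n * (T / n)) ω - XX B s ω) atTop
      (𝓝 (SX B s (s + T) ω - XX B s ω)) := by
    refine Tendsto.sub ?_ tendsto_const_nhds
    rw [← hmax]
    have hcu : ContinuousWithinAt (fun u => XX B u ω) (Icc s (s + T)) u :=
      XX_contOn hc hs u hu
    refine hcu.tendsto.comp (tendsto_nhdsWithin_iff.2 ⟨hlim, ?_⟩)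
    filter_upwards [eventually_ge_atTop 1] with n hn
    have hn0 : (0 : ℝ) < n := by exact_mod_cast hn
    refine ⟨?_, (hle n hn).2.1.trans hu.2⟩
    have : 0 ≤ (i n : ℝ) * (T / n) := by positivity
    linarith
  refine tendsto_of_tendsto_of_tendsto_of_le_of_le' hX tendsto_const_nhds ?_ ?_
  · filter_upwards [eventually_ge_atTop 1] with n hn
    rw [← xx_eq]
    exact (xx_le_mm s _ _ ω).trans (mm_mono' s _ ω (hle n hn).1)
  · filter_upwards [eventually_ge_atTop 1] with n hn
    have hn0 : (0 : ℝ) < n := by exact_mod_cast hn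
    refine mm_le_SX hc hs (by positivity) hT n (le_of_eq ?_)
    field_simp

/-- measurability of the supremum -/
theorem SX_meas (hB : IsBM P F B) {s t : ℝ} (hs : 0 ≤ s) (hst : s ≤ t) :
    Measurable[F t] (fun ω => SX B s t ω - XX B s ω) := by
  have hT : 0 ≤ t - s := by linarith
  have h1 : ∀ n : ℕ, Measurable[F t] (fun ω => mm B s ((t - s) / (n + 1 : ℕ)) (n + 1) ω) := by
    intro n
    have h := mm_meas hB hs (δ := (t - s) / (n + 1 : ℕ)) (by positivity) (n + 1)
    have e : s + (n + 1 : ℕ) * ((t - s) / (n + 1 : ℕ)) = t := by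
      have : ((n + 1 : ℕ) : ℝ) ≠ 0 := by positivity
      field_simp
      ring
    rwa [e] at h
  refine @measurable_of_tendsto_metrizable Ω ℝ (F t) _ _ _ _ _ _ h1 ?_
  rw [tendsto_pi_nhds]
  intro ω
  have h2 := mm_tendsto (hB.ca.cont ω) hs hT
  have e : s + (t - s) = t := by ring
  rw [e] at h2
  exact (tendsto_add_atTop_iff_nat 1).2 h2

omit [IsProbabilityMeasure P] in
theorem XX_meas (hB : IsBM P F B) {s t : ℝ} (hs : 0 ≤ s) (hst : s ≤ t) :
    Measurable[F t] (XX B s) := by
  have : Measurable[F t] (B s) := (hB.ca.adap s hs).mono (hB.filt.mono _ _ hs hst) le_rfl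
  exact this.sub_const _

/-- the discretised Itô lemma -/
theorem lemmaL (hB : IsBM P F B) (k : ℂ) (hk : 0 < k.re) (l : ℝ) {s t : ℝ} (hs : 0 ≤ s)
    (hst : s ≤ t) {A : Set Ω} (hA : MeasurableSet[F s] A) :
    ∫ ω in A, Phi k (l * Complex.I) (t - s) (B t ω - B s ω) (SX B s t ω - XX B s ω) ∂P =
      (P.real A : ℂ) / (1 + k) := by
  have hT : 0 ≤ t - s := by linarith
  have hA' : MeasurableSet A := hB.filt.le s hs A hA
  obtain ⟨C, C', hC, hC', h⟩ := EE_final hB k hk l (t - s) hT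
  set L := ∫ ω in A, Phi k (l * Complex.I) (t - s) (B t ω - B s ω) (SX B s t ω - XX B s ω) ∂P
    with hL
  have hlim : Tendsto (fun n : ℕ => EE P B k (l * Complex.I) s ((t - s) / n) A n) atTop (𝓝 L) := by
    have hev : (fun n : ℕ => ∫ ω in A, Phi k (l * Complex.I) (t - s) (B t ω - B s ω)
        (mm B s ((t - s) / n) n ω) ∂P) =ᶠ[atTop]
        (fun n : ℕ => EE P B k (l * Complex.I) s ((t - s) / n) A n) := by
      filter_upwards [eventually_ge_atTop 1] with n hn
      have hn0 : (0 : ℝ) < n := by exact_mod_cast hn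
      unfold EE
      have e1 : n * ((t - s) / n) = t - s := by field_simp
      have e2 : s + (t - s) = t := by ring
      rw [e1, e2]
    refine Tendsto.congr' hev ?_
    rw [hL]
    have hpt : ∀ ω, Tendsto (fun n : ℕ => Phi k (l * Complex.I) (t - s) (B t ω - B s ω)
        (mm B s ((t - s) / n) n ω)) atTop
        (𝓝 (Phi k (l * Complex.I) (t - s) (B t ω - B s ω) (SX B s t ω - XX B s ω))) := by
      intro ω
      have h2 := mm_tendsto (hB.ca.cont ω) hs hT
      have e : s + (t - s) = t := by ring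
      rw [e] at h2
      exact Phi_tendsto _ _ _ _ _ _ h2
    refine tendsto_integral_filter_of_dominated_convergence
      (fun ω => 1 / ‖(1 : ℂ) + 2 * (l * Complex.I)‖ *
        ‖fE (-(l * Complex.I)) (t - s) (B t ω - B s ω)‖ +
        ‖(2 * (l * Complex.I) - k) / ((1 + k) * (1 + 2 * (l * Complex.I)))‖ *
        ‖fE (1 + (l * Complex.I)) (t - s) (B t ω - B s ω)‖) ?_ ?_ ?_ ?_
    · refine Eventually.of_forall fun n => ?_
      refine (Phi_int hB hs hst k hk.le l _ ?_ (mm_nonneg s _ n)).aestronglyMeasurable.restrict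
      exact (mm_meas hB hs (by positivity) n).mono (hB.filt.le _ (by positivity)) le_rfl
    · refine Eventually.of_forall fun n => Eventually.of_forall fun ω => ?_
      unfold Phi
      refine (norm_add_le _ _).trans ?_
      rw [norm_mul, norm_mul]
      have h1 := norm_cA_le k hk.le l _ (mm_nonneg (B := B) s ((t - s) / n) n ω)
      have h2 := norm_cC_le k hk.le l _ (mm_nonneg (B := B) s ((t - s) / n) n ω)
      gcongr
    · refine Integrable.integrableOn ?_
      exact (((integrable_fE_incr hB hs hst _).norm).const_mul _).add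
        (((integrable_fE_incr hB hs hst _).norm).const_mul _)
    · exact Eventually.of_forall hpt
  have hb : ∀ ε : ℝ, 0 < ε → ‖L - (P.real A : ℂ) / (1 + k)‖ ≤ C * ε := by
    intro ε hε
    have h1 : Tendsto (fun n : ℕ => C * (ε + ε⁻¹ ^ 3 * (C' / n))) atTop
        (𝓝 (C * (ε + ε⁻¹ ^ 3 * 0))) :=
      ((tendsto_const_nhds.add ((tendsto_const_div_atTop_nhds_zero_nat C').const_mul _)).const_mul _)
    rw [mul_zero, add_zero] at h1
    have h2 : Tendsto (fun n : ℕ => ‖EE P B k (l * Complex.I) s ((t - s) / n) A n -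
        (P.real A : ℂ) / (1 + k)‖) atTop (𝓝 ‖L - (P.real A : ℂ) / (1 + k)‖) :=
      (hlim.sub tendsto_const_nhds).norm
    refine le_of_tendsto_of_tendsto h2 h1 ?_
    filter_upwards [eventually_ge_atTop 1] with n hn
    exact h s n hs hn A hA ε hε
  have h0 : ‖L - (P.real A : ℂ) / (1 + k)‖ ≤ 0 := by
    refine le_of_forall_pos_le_add fun ε hε => ?_
    rw [zero_add]
    rcases hC.eq_or_lt with h1 | h1
    · have := hb 1 one_pos
      rw [← h1] at this
      linarith
    · have := hb (ε / C) (by positivity)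
      rwa [mul_div_cancel₀ _ h1.ne'] at this
  exact sub_eq_zero.1 (norm_le_zero_iff.1 h0)

end Pool.Agent.R969.MY
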