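import Pool.Agent.R969.MY.G

set_option autoImplicit false

open scoped ENNReal NNReal Topology
open MeasureTheory ProbabilityTheory Set Filter
open Pool.Agent.Helper41.SK

namespace Pool.Agent.R969.MY

theorem integral_expM (g : ℝ → ℂ) :
    ∫ y, g y ∂(expMeasure 1) = ∫ y in Ioi (0 : ℝ), Complex.exp (-(y : ℂ)) * g y := by
  have e : expMeasure 1 = volume.withDensity (exponentialPDF 1) := rfl
  have hm : Measurable (exponentialPDF 1) := by
    unfold exponentialPDF
    fun_prop
  rw [e, integral_withDensity_eq_integral_toReal_smul hm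
    (Eventually.of_forall fun x => by unfold exponentialPDF; exact ENNReal.ofReal_lt_top)]
  have h1 : (fun y => (exponentialPDF 1 y).toReal • g y) =
      (Ici (0 : ℝ)).indicator (fun y => Complex.exp (-(y : ℂ)) * g y) := by
    funext y
    rw [exponentialPDF_eq]
    by_cases hy : 0 ≤ y
    · rw [indicator_of_mem (by exact hy), if_pos hy, one_mul, one_mul,
        ENNReal.toReal_ofReal (Real.exp_pos _).le, Complex.real_smul]
      push_cast
      ring
    · rw [indicator_of_notMem (by exact hy), if_neg hy]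
      simp
  rw [h1, integral_indicator measurableSet_Ici, integral_Ici_eq_integral_Ioi]

/-- the inner integral -/
theorem inner_int (k : ℂ) (hk : 0 < k.re) (l v b m : ℝ) (hD : b - v / 2 ≤ m) :
    ∫ y, Complex.exp (-k * (max m (b - v / 2 + y) : ℝ)) *
      Complex.exp ((l * Complex.I) * ((b - v) + 2 * max (m - (b - v / 2) - y) 0 : ℝ))
        ∂(expMeasure 1) =
    Complex.exp (-(l ^ 2 * v / 2 : ℝ)) * Phi k (l * Complex.I) v b m := by
  rw [integral_expM]
  set θ : ℂ := l * Complex.I with hθ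
  have hθ2 : θ ^ 2 = -((l ^ 2 : ℝ) : ℂ) := by
    rw [hθ, mul_pow, Complex.I_sq]; push_cast; ring
  set x := b - v / 2 with hx
  set D := m - x with hDd
  have hD0 : 0 ≤ D := by rw [hDd]; linarith
  have hk1 : 1 + k ≠ 0 := one_add_ne hk.le
  have hθ1 : 1 + 2 * θ ≠ 0 := one_add_I_ne l
  set f : ℝ → ℂ := fun y => Complex.exp (-(y : ℂ)) *
    (Complex.exp (-k * (max m (x + y) : ℝ)) *
      Complex.exp (θ * ((b - v) + 2 * max (m - x - y) 0 : ℝ))) with hf
  -- the two pieces
  have hf1 : ∀ y, y ≤ D → f y = Complex.exp (-k * m + θ * (b - v) + 2 * θ * D) *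
      Complex.exp (-(1 + 2 * θ) * y) := by
    intro y hy
    have h1 : max m (x + y) = m := max_eq_left (by rw [hDd] at hy; linarith)
    have h2 : max (m - x - y) 0 = D - y := max_eq_left (by rw [hDd] at hy; linarith)
    simp only [hf]
    rw [h1, h2, ← Complex.exp_add, ← Complex.exp_add, ← Complex.exp_add]
    congr 1
    push_cast
    ring
  have hf2 : ∀ y, D ≤ y → f y = Complex.exp (-k * x + θ * (b - v)) *
      Complex.exp (-(1 + k) * y) := by
    intro y hy
    have h1 : max m (x + y) = x + y := max_eq_right (by rw [hDd] at hy; linarith)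
    have h2 : max (m - x - y) 0 = 0 := max_eq_right (by rw [hDd] at hy; linarith)
    simp only [hf]
    rw [h1, h2, ← Complex.exp_add, ← Complex.exp_add, ← Complex.exp_add]
    congr 1
    push_cast
    ring
  have hre : (-(1 + k)).re < 0 := by
    simp
    linarith
  have hi1 : IntegrableOn f (Ioc 0 D) := by
    have : IntegrableOn (fun y : ℝ => Complex.exp (-k * m + θ * (b - v) + 2 * θ * D) *
      Complex.exp (-(1 + 2 * θ) * y)) (Ioc 0 D) :=
      (Continuous.integrableOn_Icc (by fun_prop)).mono_set Ioc_subset_Icc_self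
    refine this.congr_fun ?_ measurableSet_Ioc
    intro y hy
    exact (hf1 y hy.2).symm
  have hi2 : IntegrableOn f (Ioi D) := by
    have : IntegrableOn (fun y : ℝ => Complex.exp (-k * x + θ * (b - v)) *
      Complex.exp (-(1 + k) * y)) (Ioi D) :=
      (integrableOn_exp_mul_complex_Ioi hre D).const_mul _
    refine this.congr_fun ?_ measurableSet_Ioi
    intro y hy
    exact (hf2 y (le_of_lt hy)).symm
  have hsplit : Ioi (0 : ℝ) = Ioc 0 D ∪ Ioi D := (Ioc_union_Ioi_eq_Ioi hD0).symm
  have hdis : Disjoint (Ioc 0 D) (Ioi D) := by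
    rw [Set.disjoint_left]
    intro y hy hy'
    exact absurd hy.2 (not_le.2 hy')
  rw [hsplit, setIntegral_union hdis measurableSet_Ioi hi1 hi2]
  have h1 : ∫ y in Ioc 0 D, f y = Complex.exp (-k * m + θ * (b - v) + 2 * θ * D) *
      ((Complex.exp (-(1 + 2 * θ) * D) - 1) / (-(1 + 2 * θ))) := by
    rw [setIntegral_congr_fun measurableSet_Ioc (fun y hy => hf1 y hy.2), integral_const_mul,
      ← intervalIntegral.integral_of_le hD0, integral_exp_mul_complex (neg_ne_zero.2 hθ1)]
    simp
  have h2 : ∫ y in Ioi D, f y = Complex.exp (-k * x + θ * (b - v)) *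
      (-Complex.exp (-(1 + k) * D) / (-(1 + k))) := by
    rw [setIntegral_congr_fun measurableSet_Ioi (fun y hy => hf2 y (le_of_lt hy)),
      integral_const_mul, integral_exp_mul_complex_Ioi hre]
  rw [h1, h2]
  -- algebra
  unfold Phi cA cC fE
  have a1 : Complex.exp (-(l ^ 2 * v / 2 : ℝ)) * (Complex.exp ((2 * θ - k) * m) *
      Complex.exp (-θ * b - (-θ) ^ 2 * v / 2)) = Complex.exp (-k * m + θ * (b - v) + 2 * θ * D) := by
    rw [← Complex.exp_add, ← Complex.exp_add]
    congr 1
    rw [neg_sq, hθ2, hDd, hx]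
    push_cast
    ring
  have a2 : Complex.exp (-(l ^ 2 * v / 2 : ℝ)) * (Complex.exp (-(k + 1) * m) *
      Complex.exp ((1 + θ) * b - (1 + θ) ^ 2 * v / 2)) =
      Complex.exp (-k * m + θ * (b - v) + 2 * θ * D) * Complex.exp (-(1 + 2 * θ) * D) := by
    rw [← Complex.exp_add, ← Complex.exp_add, ← Complex.exp_add]
    congr 1
    have : (1 + θ) ^ 2 = 1 + 2 * θ + θ ^ 2 := by ring
    rw [this, hθ2, hDd, hx]
    push_cast
    ring
  have a3 : Complex.exp (-k * x + θ * (b - v)) * Complex.exp (-(1 + k) * D) =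
      Complex.exp (-k * m + θ * (b - v) + 2 * θ * D) * Complex.exp (-(1 + 2 * θ) * D) := by
    rw [← Complex.exp_add, ← Complex.exp_add]
    congr 1
    rw [hDd]
    push_cast
    ring
  set U := Complex.exp (-k * m + θ * (b - v) + 2 * θ * D)
  set V := Complex.exp (-(1 + 2 * θ) * D)
  set c := Complex.exp (-(l ^ 2 * v / 2 : ℝ))
  have r1 : c * (Complex.exp ((2 * θ - k) * m) / (1 + 2 * θ) *
      Complex.exp (-θ * b - (-θ) ^ 2 * v / 2) +
      (2 * θ - k) / ((1 + k) * (1 + 2 * θ)) * Complex.exp (-(k + 1) * m) *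
      Complex.exp ((1 + θ) * b - (1 + θ) ^ 2 * v / 2)) =
      (c * (Complex.exp ((2 * θ - k) * m) * Complex.exp (-θ * b - (-θ) ^ 2 * v / 2))) / (1 + 2 * θ) +
      (2 * θ - k) / ((1 + k) * (1 + 2 * θ)) * (c * (Complex.exp (-(k + 1) * m) *
      Complex.exp ((1 + θ) * b - (1 + θ) ^ 2 * v / 2))) := by ring
  rw [r1, a1, a2]
  have r2 : Complex.exp (-k * x + θ * (b - v)) * (-Complex.exp (-(1 + k) * D) / -(1 + k)) =
      (Complex.exp (-k * x + θ * (b - v)) * Complex.exp (-(1 + k) * D)) / (1 + k) := by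
    rw [neg_div_neg_eq]; ring
  rw [r2, a3]
  field_simp
  ring

section

variable {Ω : Type*} {𝓕 : MeasurableSpace Ω} [mΩ : MeasurableSpace Ω] {P : Measure Ω}
  [IsProbabilityMeasure P]

theorem integral_indep_prod (h𝓕 : 𝓕 ≤ mΩ) (E : Ω → ℝ) (hE : Measurable E)
    (hind : Indep (MeasurableSpace.comap E inferInstance) 𝓕 P) {β : Type*} [MeasurableSpace β]
    (U : Ω → β) (hU : Measurable[𝓕] U) {A : Set Ω} (hA : MeasurableSet[𝓕] A)
    (G : β → ℝ → ℂ) (hG : Measurable (Function.uncurry G)) (C : ℝ) (hC : ∀ u y, ‖G u y‖ ≤ C) :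
    ∫ ω in A, G (U ω) (E ω) ∂P = ∫ ω in A, (∫ y, G (U ω) y ∂(P.map E)) ∂P := by
  have hA' : MeasurableSet A := h𝓕 A hA
  set a : Ω → ℝ := A.indicator (fun _ => 1) with ha
  have ham : Measurable[𝓕] a := measurable_const.indicator hA
  set V : Ω → β × ℝ := fun ω => (U ω, a ω) with hV
  have hVm : Measurable[𝓕] V := hU.prodMk ham
  have hVm' : Measurable V := hVm.mono h𝓕 le_rfl
  have hindf : IndepFun V E P := by
    rw [IndepFun_iff_Indep]
    exact indep_of_indep_of_le_left hind.symm hVm.comap_le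
  have hprod := (indepFun_iff_map_prod_eq_prod_map_map hVm'.aemeasurable hE.aemeasurable).1 hindf
  set c : ℝ → ℝ := fun x => max (-1) (min x 1) with hc
  have hcb : ∀ x, |c x| ≤ 1 := by
    intro x
    rw [abs_le]
    exact ⟨le_max_left _ _, max_le (by norm_num) (min_le_right _ _)⟩
  have hcm : Measurable c := by
    simp only [hc]
    fun_prop
  set H : (β × ℝ) × ℝ → ℂ := fun q => (c q.1.2 : ℂ) * G q.1.1 q.2 with hH
  have hHm : Measurable H := by
    simp only [hH]
    refine Measurable.mul ?_ ?_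
    · exact Complex.measurable_ofReal.comp (hcm.comp (measurable_snd.comp measurable_fst))
    · exact hG.comp ((measurable_fst.comp measurable_fst).prodMk measurable_snd)
  have hHb : ∀ q, ‖H q‖ ≤ C := by
    intro q
    simp only [hH]
    rw [norm_mul, Complex.norm_real, Real.norm_eq_abs]
    exact (mul_le_of_le_one_left (norm_nonneg _) (hcb _)).trans (hC _ _)
  have hca : ∀ ω, c (a ω) = a ω := by
    intro ω
    by_cases hω : ω ∈ A
    · simp [ha, hω, hc]
    · simp [ha, hω, hc]
  have h1 : ∫ ω, H (V ω, E ω) ∂P = ∫ ω in A, G (U ω) (E ω) ∂P := by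
    rw [← integral_indicator hA']
    congr 1
    funext ω
    simp only [hH, hV, hca]
    by_cases hω : ω ∈ A
    · simp [ha, hω]
    · simp [ha, hω]
  have hprob1 : IsProbabilityMeasure (P.map V) := Measure.isProbabilityMeasure_map hVm'.aemeasurable
  have hprob2 : IsProbabilityMeasure (P.map E) := Measure.isProbabilityMeasure_map hE.aemeasurable
  have hint : Integrable H ((P.map V).prod (P.map E)) :=
    Integrable.of_bound hHm.aestronglyMeasurable C (Eventually.of_forall hHb)
  have h2 : ∫ ω, H (V ω, E ω) ∂P = ∫ ω, (∫ y, H (V ω, y) ∂(P.map E)) ∂P := by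
    have e1 : ∫ ω, H (V ω, E ω) ∂P = ∫ q, H q ∂(P.map (fun ω => (V ω, E ω))) :=
      (integral_map (hVm'.prodMk hE).aemeasurable hHm.aestronglyMeasurable).symm
    rw [e1, hprod, integral_prod _ hint, integral_map hVm'.aemeasurable]
    exact hint.integral_prod_left.aestronglyMeasurable
  rw [← h1, h2, ← integral_indicator hA']
  congr 1
  funext ω
  simp only [hH, hV, hca]
  by_cases hω : ω ∈ A
  · simp [ha, hω]
  · simp [ha, hω]

end

end Pool.Agent.R969.MY
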