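import Pool.Agent.R969.MY.H

set_option autoImplicit false

open scoped ENNReal NNReal Topology
open MeasureTheory ProbabilityTheory Set Filter
open Pool.Agent.Helper41.SK

namespace Pool.Agent.R969.MY

/-- the integrand of Lemma P -/
noncomputable def GG (k : ℂ) (l v : ℝ) (u : ℝ × ℝ) (y : ℝ) : ℂ :=
  Complex.exp (-k * (max (max u.2 0) (u.1 - v / 2 + y) : ℝ)) *
      Complex.exp ((l * Complex.I) * ((u.1 - v) + 2 * max (u.2 - (u.1 - v / 2) - y) 0 : ℝ))

theorem GG_meas (k : ℂ) (l v : ℝ) : Measurable (Function.uncurry (GG k l v)) := by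
  unfold GG Function.uncurry
  have : Continuous (fun a : (ℝ × ℝ) × ℝ => Complex.exp (-k * (max (max a.1.2 0)
      (a.1.1 - v / 2 + a.2) : ℝ)) *
      Complex.exp ((l * Complex.I) *
        ((a.1.1 - v) + 2 * max (a.1.2 - (a.1.1 - v / 2) - a.2) 0 : ℝ))) := by
    fun_prop
  exact this.measurable

theorem norm_exp_mul_I_real (l r : ℝ) : ‖Complex.exp ((l * Complex.I) * (r : ℝ))‖ = 1 := by
  have : (l * Complex.I) * (r : ℂ) = ((l * r : ℝ) : ℂ) * Complex.I := by push_cast; ring
  rw [this, Complex.norm_exp_ofReal_mul_I]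

theorem norm_exp_neg_le (k : ℂ) (hk : 0 ≤ k.re) (r : ℝ) (hr : 0 ≤ r) :
    ‖Complex.exp (-k * (r : ℝ))‖ ≤ 1 := by
  rw [Complex.norm_exp, Real.exp_le_one_iff]
  have : (-k * (r : ℂ)).re = -(k.re * r) := by simp
  rw [this]
  have := mul_nonneg hk hr
  linarith

theorem GG_bound (k : ℂ) (hk : 0 ≤ k.re) (l v : ℝ) (u : ℝ × ℝ) (y : ℝ) : ‖GG k l v u y‖ ≤ 1 := by
  unfold GG
  rw [norm_mul, norm_exp_mul_I_real, mul_one]
  exact norm_exp_neg_le k hk _ (le_max_of_le_left (le_max_right _ _))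

variable {Ω : Type*} [mΩ : MeasurableSpace Ω] {P : Measure Ω} [IsProbabilityMeasure P]
  {F : ℝ → MeasurableSpace Ω} {B : ℝ → Ω → ℝ}

/-- the future supremum after time `s`, expressed at time `t` -/
noncomputable def JJ (B : ℝ → Ω → ℝ) (E : Ω → ℝ) (s t : ℝ) (ω : Ω) : ℝ :=
  max (SX B s t ω) (XX B t ω + E ω)

theorem lemmaP (hB : IsBM P F B) (k : ℂ) (hk : 0 < k.re) (l : ℝ) {s t : ℝ} (hs : 0 ≤ s)
    (hst : s ≤ t) {A : Set Ω} (hA : MeasurableSet[F s] A) (E : Ω → ℝ) (hE : Measurable E)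
    (hind : Indep (MeasurableSpace.comap E inferInstance) (F t) P)
    (hlaw : P.map E = expMeasure 1) :
    ∫ ω in A, Complex.exp (-k * (JJ B E s t ω - XX B s ω : ℝ)) *
      Complex.exp ((l * Complex.I) * ((B t ω - B s ω - (t - s)) +
        2 * (JJ B E s t ω - XX B t ω - E ω) : ℝ)) ∂P =
      Complex.exp (-(l ^ 2 * (t - s) / 2 : ℝ)) * ((P.real A : ℂ) / (1 + k)) := by
  have ht : 0 ≤ t := hs.trans hst
  have hm0 : ∀ ω, 0 ≤ SX B s t ω - XX B s ω := by
    intro ω
    have := XX_le_SX (B := B) (hB.ca.cont ω) hs (⟨le_rfl, hst⟩ : s ∈ Icc s t)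
    linarith
  have hD : ∀ ω, (B t ω - B s ω) - (t - s) / 2 ≤ SX B s t ω - XX B s ω := by
    intro ω
    have := XX_le_SX (B := B) (hB.ca.cont ω) hs (⟨hst, le_rfl⟩ : t ∈ Icc s t)
    unfold XX at this ⊢
    linarith
  have hAt : MeasurableSet[F t] A := hB.filt.mono s t hs hst A hA
  have hU : Measurable[F t] (fun ω => (B t ω - B s ω, SX B s t ω - XX B s ω)) := by
    refine Measurable.prodMk ?_ (SX_meas hB hs hst)
    exact (hB.ca.adap t ht).sub ((hB.ca.adap s hs).mono (hB.filt.mono _ _ hs hst) le_rfl)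
  have h1 := integral_indep_prod (hB.filt.le t ht) E hE hind _ hU hAt (GG k l (t - s))
    (GG_meas k l (t - s)) 1 (GG_bound k hk.le l (t - s))
  rw [hlaw] at h1
  have e1 : ∀ ω, GG k l (t - s) (B t ω - B s ω, SX B s t ω - XX B s ω) (E ω) =
      Complex.exp (-k * (JJ B E s t ω - XX B s ω : ℝ)) *
      Complex.exp ((l * Complex.I) * ((B t ω - B s ω - (t - s)) +
        2 * (JJ B E s t ω - XX B t ω - E ω) : ℝ)) := by
    intro ω
    unfold GG JJ
    simp only
    rw [max_eq_left (hm0 ω)]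
    have a1 : max (SX B s t ω - XX B s ω) (B t ω - B s ω - (t - s) / 2 + E ω) =
        max (SX B s t ω) (XX B t ω + E ω) - XX B s ω := by
      rw [← max_sub_sub_right]
      congr 1
      unfold XX
      ring
    have a2 : max (SX B s t ω - XX B s ω - (B t ω - B s ω - (t - s) / 2) - E ω) 0 =
        max (SX B s t ω) (XX B t ω + E ω) - XX B t ω - E ω := by
      rw [← max_sub_sub_right, ← max_sub_sub_right]
      congr 1 <;> (unfold XX; ring)
    rw [a1, a2]
  have e2 : ∀ ω, ∫ y, GG k l (t - s) (B t ω - B s ω, SX B s t ω - XX B s ω) y ∂(expMeasure 1) =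
      Complex.exp (-(l ^ 2 * (t - s) / 2 : ℝ)) *
        Phi k (l * Complex.I) (t - s) (B t ω - B s ω) (SX B s t ω - XX B s ω) := by
    intro ω
    rw [← inner_int k hk l (t - s) (B t ω - B s ω) (SX B s t ω - XX B s ω) (hD ω)]
    unfold GG
    simp only
    rw [max_eq_left (hm0 ω)]
  simp_rw [e1, e2] at h1
  rw [h1, integral_const_mul, lemmaL hB k hk l hs hst hA]

/-- characteristic function version -/
theorem charP (hB : IsBM P F B) (κ l : ℝ) {s t : ℝ} (hs : 0 ≤ s)
    (hst : s ≤ t) {A : Set Ω} (hA : MeasurableSet[F s] A) (E : Ω → ℝ) (hE : Measurable E)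
    (hind : Indep (MeasurableSpace.comap E inferInstance) (F t) P)
    (hlaw : P.map E = expMeasure 1) :
    ∫ ω in A, Complex.exp ((κ * Complex.I) * (JJ B E s t ω - XX B s ω : ℝ)) *
      Complex.exp ((l * Complex.I) * ((B t ω - B s ω - (t - s)) +
        2 * (JJ B E s t ω - XX B t ω - E ω) : ℝ)) ∂P =
      Complex.exp (-(l ^ 2 * (t - s) / 2 : ℝ)) * ((P.real A : ℂ) / (1 - κ * Complex.I)) := by
  have ht : 0 ≤ t := hs.trans hst
  have hD0 : ∀ ω, 0 ≤ JJ B E s t ω - XX B s ω := by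
    intro ω
    have := XX_le_SX (B := B) (hB.ca.cont ω) hs (⟨le_rfl, hst⟩ : s ∈ Icc s t)
    have h2 : SX B s t ω ≤ JJ B E s t ω := le_max_left _ _
    linarith
  have hSXm : Measurable (SX B s t) := by
    have h1 : Measurable (fun ω => (SX B s t ω - XX B s ω) + XX B s ω) := by
      refine ((SX_meas hB hs hst).mono (hB.filt.le t ht) le_rfl).add ?_
      exact (XX_meas hB hs le_rfl).mono (hB.filt.le s hs) le_rfl
    simpa using h1
  have hXs : Measurable (XX B s) := (XX_meas hB hs le_rfl).mono (hB.filt.le s hs) le_rfl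
  have hXt : Measurable (XX B t) := (XX_meas hB ht le_rfl).mono (hB.filt.le t ht) le_rfl
  have hJ : Measurable (JJ B E s t) := hSXm.max (hXt.add hE)
  have hBt := bm_meas hB ht
  have hBs := bm_meas hB hs
  set kk : ℕ → ℂ := fun n => ((1 / ((n : ℝ) + 1) : ℝ) : ℂ) - κ * Complex.I with hkk
  have hkre : ∀ n, 0 < (kk n).re := by
    intro n
    have e : (kk n).re = 1 / ((n : ℝ) + 1) := by
      simp only [hkk, Complex.sub_re, Complex.ofReal_re, Complex.re_ofReal_mul, Complex.I_re,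
        mul_zero, sub_zero]
    rw [e]
    positivity
  have hklim : Tendsto kk atTop (𝓝 (-(κ * Complex.I))) := by
    have h0 : Tendsto (fun n : ℕ => ((1 / ((n : ℝ) + 1) : ℝ) : ℂ)) atTop (𝓝 ((0 : ℝ) : ℂ)) :=
      (Complex.continuous_ofReal.tendsto _).comp tendsto_one_div_add_atTop_nhds_zero_nat
    have := h0.sub (tendsto_const_nhds (x := κ * Complex.I))
    simpa [hkk] using this
  have hP := fun n => lemmaP hB (kk n) (hkre n) l hs hst hA E hE hind hlaw
  have hR : Tendsto (fun n => Complex.exp (-(l ^ 2 * (t - s) / 2 : ℝ)) *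
      ((P.real A : ℂ) / (1 + kk n))) atTop (𝓝 (Complex.exp (-(l ^ 2 * (t - s) / 2 : ℝ)) *
      ((P.real A : ℂ) / (1 + -(κ * Complex.I))))) := by
    refine Tendsto.const_mul _ (Tendsto.div tendsto_const_nhds (tendsto_const_nhds.add hklim) ?_)
    exact one_add_ne (by simp)
  have hL : Tendsto (fun n => ∫ ω in A, Complex.exp (-(kk n) * (JJ B E s t ω - XX B s ω : ℝ)) *
      Complex.exp ((l * Complex.I) * ((B t ω - B s ω - (t - s)) +
        2 * (JJ B E s t ω - XX B t ω - E ω) : ℝ)) ∂P) atTop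
      (𝓝 (∫ ω in A, Complex.exp ((κ * Complex.I) * (JJ B E s t ω - XX B s ω : ℝ)) *
      Complex.exp ((l * Complex.I) * ((B t ω - B s ω - (t - s)) +
        2 * (JJ B E s t ω - XX B t ω - E ω) : ℝ)) ∂P)) := by
    refine tendsto_integral_filter_of_dominated_convergence (fun _ => 1) ?_ ?_
      (integrable_const _) ?_
    · refine Eventually.of_forall fun n => ?_
      have hm : Measurable (fun ω => Complex.exp (-(kk n) * (JJ B E s t ω - XX B s ω : ℝ)) *
        Complex.exp ((l * Complex.I) * ((B t ω - B s ω - (t - s)) +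
        2 * (JJ B E s t ω - XX B t ω - E ω) : ℝ))) := by
        fun_prop
      exact hm.aestronglyMeasurable
    · refine Eventually.of_forall fun n => Eventually.of_forall fun ω => ?_
      rw [norm_mul, norm_exp_mul_I_real, mul_one]
      exact norm_exp_neg_le _ (hkre n).le _ (hD0 ω)
    · refine Eventually.of_forall fun ω => ?_
      refine Tendsto.mul_const _ ?_
      have h2 : Tendsto (fun n => -(kk n) * ((JJ B E s t ω - XX B s ω : ℝ) : ℂ)) atTop
          (𝓝 (κ * Complex.I * ((JJ B E s t ω - XX B s ω : ℝ) : ℂ))) := by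
        have := (hklim.neg).mul_const ((JJ B E s t ω - XX B s ω : ℝ) : ℂ)
        rwa [neg_neg] at this
      exact (Complex.continuous_exp.tendsto _).comp h2
  have e : (1 : ℂ) - κ * Complex.I = 1 + -(κ * Complex.I) := by ring
  rw [e]
  refine tendsto_nhds_unique hL (hR.congr fun n => (hP n).symm)

end Pool.Agent.R969.MY
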