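import Pool.Agent.R969.MY.I

set_option autoImplicit false

open scoped ENNReal NNReal Topology
open MeasureTheory ProbabilityTheory Set Filter
open Pool.Agent.Helper41.SK

namespace Pool.Agent.R969.MY

instance : IsProbabilityMeasure (expMeasure 1) := isProbabilityMeasure_expMeasure one_pos

theorem expM_char (a : ℝ) :
    ∫ y, Complex.exp ((a * Complex.I) * (y : ℝ)) ∂(expMeasure 1) = 1 / (1 - a * Complex.I) := by
  rw [integral_expM]
  have hre : (-(1 - a * Complex.I)).re < 0 := by simp
  have e : ∀ y : ℝ, Complex.exp (-(y : ℂ)) * Complex.exp ((a * Complex.I) * (y : ℝ)) =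
      Complex.exp (-(1 - a * Complex.I) * y) := by
    intro y
    rw [← Complex.exp_add]
    congr 1
    ring
  simp_rw [e]
  rw [integral_exp_mul_complex_Ioi hre, Complex.ofReal_zero, mul_zero, Complex.exp_zero,
    neg_div_neg_eq]

theorem gauss_char (v : ℝ≥0) (b : ℝ) :
    ∫ y, Complex.exp ((b * Complex.I) * (y : ℝ)) ∂(gaussianReal 0 v) =
      Complex.exp (-(b ^ 2 * v / 2 : ℝ)) := by
  have h := charFun_gaussianReal (μ := 0) (v := v) b
  rw [charFun_apply_real] at h
  have e : ∀ y : ℝ, Complex.exp ((b * Complex.I) * (y : ℝ)) =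
      Complex.exp (b * y * Complex.I) := by
    intro y; congr 1; ring
  simp_rw [e]
  rw [h]
  congr 1
  push_cast
  ring

theorem dual_apply (L : StrongDual ℝ (ℝ × ℝ)) (p : ℝ × ℝ) :
    L p = L (1, 0) * p.1 + L (0, 1) * p.2 := by
  have : p = p.1 • ((1 : ℝ), (0 : ℝ)) + p.2 • ((0 : ℝ), (1 : ℝ)) := by
    ext <;> simp
  conv_lhs => rw [this]
  rw [map_add, map_smul, map_smul]
  simp only [smul_eq_mul]
  ring

variable {Ω : Type*} [mΩ : MeasurableSpace Ω] {P : Measure Ω} [IsProbabilityMeasure P]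
  {F : ℝ → MeasurableSpace Ω} {B : ℝ → Ω → ℝ}

theorem SX_meas' (hB : IsBM P F B) {s t : ℝ} (hs : 0 ≤ s) (hst : s ≤ t) :
    Measurable[F t] (SX B s t) := by
  have h1 : Measurable[F t] (fun ω => (SX B s t ω - XX B s ω) + XX B s ω) :=
    (SX_meas hB hs hst).add (XX_meas hB hs hst)
  simpa using h1

theorem JJ_meas (hB : IsBM P F B) {s t : ℝ} (hs : 0 ≤ s) (hst : s ≤ t) (E : Ω → ℝ)
    (hE : Measurable E) : Measurable (JJ B E s t) := by
  have ht : 0 ≤ t := hs.trans hst
  have h1 : Measurable (SX B s t) := (SX_meas' hB hs hst).mono (hB.filt.le t ht) le_rfl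
  have h2 : Measurable (XX B t) := (XX_meas hB ht le_rfl).mono (hB.filt.le t ht) le_rfl
  exact h1.max (h2.add hE)

/-- the joint law of the future infimum excess and of the increment of `N` -/
theorem joint_law (hB : IsBM P F B) {s t : ℝ} (hs : 0 ≤ s)
    (hst : s ≤ t) {A : Set Ω} (hA : MeasurableSet[F s] A) (E : Ω → ℝ) (hE : Measurable E)
    (hind : Indep (MeasurableSpace.comap E inferInstance) (F t) P)
    (hlaw : P.map E = expMeasure 1) :
    (P.restrict A).map (fun ω => (JJ B E s t ω - XX B s ω,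
      (B t ω - B s ω - (t - s)) + 2 * (JJ B E s t ω - XX B t ω - E ω))) =
    P A • (expMeasure 1).prod (gaussianReal 0 (t - s).toNNReal) := by
  have ht : 0 ≤ t := hs.trans hst
  have hXs : Measurable (XX B s) := (XX_meas hB hs le_rfl).mono (hB.filt.le s hs) le_rfl
  have hXt : Measurable (XX B t) := (XX_meas hB ht le_rfl).mono (hB.filt.le t ht) le_rfl
  have hJ := JJ_meas hB hs hst E hE
  have hBt := bm_meas hB ht
  have hBs := bm_meas hB hs
  have hm : Measurable (fun ω => (JJ B E s t ω - XX B s ω,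
      (B t ω - B s ω - (t - s)) + 2 * (JJ B E s t ω - XX B t ω - E ω))) := by
    fun_prop
  have hfin : IsFiniteMeasure (P A • (expMeasure 1).prod (gaussianReal 0 (t - s).toNNReal)) := by
    refine ⟨?_⟩
    rw [Measure.smul_apply, smul_eq_mul]
    exact ENNReal.mul_lt_top (measure_lt_top _ _) (measure_lt_top _ _)
  refine Measure.ext_of_charFunDual ?_
  funext L
  rw [charFunDual_apply, charFunDual_apply, integral_map hm.aemeasurable (by fun_prop),
    integral_smul_measure]
  have h1 := charP hB (L (1, 0)) (L (0, 1)) hs hst hA E hE hind hlaw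
  have e1 : ∀ p : ℝ × ℝ, Complex.exp (L p * Complex.I) =
      Complex.exp ((L (1, 0) * Complex.I) * (p.1 : ℝ)) *
      Complex.exp ((L (0, 1) * Complex.I) * (p.2 : ℝ)) := by
    intro p
    rw [← Complex.exp_add, dual_apply L p]
    congr 1
    push_cast
    ring
  simp_rw [e1]
  rw [h1, integral_prod_mul (μ := expMeasure 1) (ν := gaussianReal 0 (t - s).toNNReal)
    (fun x : ℝ => Complex.exp ((L (1, 0) * Complex.I) * (x : ℝ)))
    (fun x : ℝ => Complex.exp ((L (0, 1) * Complex.I) * (x : ℝ))), expM_char, gauss_char,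
    Real.coe_toNNReal _ (by linarith : 0 ≤ t - s)]
  rw [Complex.real_smul]
  unfold Measure.real
  ring

end Pool.Agent.R969.MY
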