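import Pool.Agent.R969.MY.K

set_option autoImplicit false

open scoped ENNReal NNReal Topology
open MeasureTheory ProbabilityTheory Set Filter
open Pool.Agent.Helper41.SK

namespace Pool.Agent.R969.MY

section gen

variable {Ω : Type*} {𝓕 : MeasurableSpace Ω} [mΩ : MeasurableSpace Ω] {P : Measure Ω}
  [IsProbabilityMeasure P]

/-- three independent pieces -/
theorem three_indep (h𝓕 : 𝓕 ≤ mΩ) (D N : Ω → ℝ) (hD : Measurable D) (hN : Measurable N)
    (ν γ : Measure ℝ) [IsProbabilityMeasure ν] [IsProbabilityMeasure γ]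
    (h : ∀ A, MeasurableSet[𝓕] A → (P.restrict A).map (fun ω => (D ω, N ω)) = P A • ν.prod γ) :
    P.map D = ν ∧ P.map N = γ ∧ Indep (MeasurableSpace.comap D inferInstance) 𝓕 P ∧
    Indep (MeasurableSpace.comap N inferInstance)
      (𝓕 ⊔ MeasurableSpace.comap D inferInstance) P := by
  have key : ∀ A, MeasurableSet[𝓕] A → ∀ S S' : Set ℝ, MeasurableSet S → MeasurableSet S' →
      P (A ∩ D ⁻¹' S ∩ N ⁻¹' S') = P A * (ν S * γ S') := by
    intro A hA S S' hS hS'
    have h1 := congrArg (fun μ : Measure (ℝ × ℝ) => μ (S ×ˢ S')) (h A hA)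
    simp only [Measure.smul_apply, smul_eq_mul, Measure.prod_prod] at h1
    rw [Measure.map_apply (hD.prodMk hN) (hS.prod hS'),
      Measure.restrict_apply ((hD.prodMk hN) (hS.prod hS'))] at h1
    rw [← h1]
    congr 1
    ext ω
    simp only [mem_inter_iff, mem_preimage, mem_prod]
    tauto
  have kD : ∀ A, MeasurableSet[𝓕] A → ∀ S : Set ℝ, MeasurableSet S →
      P (A ∩ D ⁻¹' S) = P A * ν S := by
    intro A hA S hS
    have := key A hA S univ hS MeasurableSet.univ
    simpa using this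
  have lawD : ∀ S : Set ℝ, MeasurableSet S → P (D ⁻¹' S) = ν S := by
    intro S hS
    have := kD univ (@MeasurableSet.univ Ω 𝓕) S hS
    simpa using this
  have lawN : ∀ S : Set ℝ, MeasurableSet S → P (N ⁻¹' S) = γ S := by
    intro S hS
    have := key univ (@MeasurableSet.univ Ω 𝓕) univ S MeasurableSet.univ hS
    simpa using this
  refine ⟨?_, ?_, ?_, ?_⟩
  · ext S hS
    rw [Measure.map_apply hD hS, lawD S hS]
  · ext S hS
    rw [Measure.map_apply hN hS, lawN S hS]
  · rw [Indep_iff]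
    rintro _ A ⟨S, hS, rfl⟩ hA
    rw [inter_comm, kD A hA S hS, lawD S hS, mul_comm]
  · set 𝒢 : Set (Set Ω) := {C | ∃ A, MeasurableSet[𝓕] A ∧ ∃ S : Set ℝ, MeasurableSet S ∧
      C = A ∩ D ⁻¹' S} with h𝒢
    have hgen : 𝓕 ⊔ MeasurableSpace.comap D inferInstance = MeasurableSpace.generateFrom 𝒢 := by
      apply le_antisymm
      · refine sup_le ?_ ?_
        · intro A hA
          exact MeasurableSpace.measurableSet_generateFrom
            ⟨A, hA, univ, MeasurableSet.univ, by simp⟩
        · rintro _ ⟨S, hS, rfl⟩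
          exact MeasurableSpace.measurableSet_generateFrom
            ⟨univ, @MeasurableSet.univ Ω 𝓕, S, hS, by simp⟩
      · refine MeasurableSpace.generateFrom_le ?_
        rintro _ ⟨A, hA, S, hS, rfl⟩
        refine @MeasurableSet.inter Ω (𝓕 ⊔ MeasurableSpace.comap D inferInstance) _ _ ?_ ?_
        · exact (le_sup_left : 𝓕 ≤ 𝓕 ⊔ MeasurableSpace.comap D inferInstance) A hA
        · exact (le_sup_right : MeasurableSpace.comap D inferInstance ≤
            𝓕 ⊔ MeasurableSpace.comap D inferInstance) _ ⟨S, hS, rfl⟩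
    have hpi : IsPiSystem 𝒢 := by
      rintro _ ⟨A, hA, S, hS, rfl⟩ _ ⟨A', hA', S', hS', rfl⟩ _
      refine ⟨A ∩ A', @MeasurableSet.inter Ω 𝓕 _ _ hA hA', S ∩ S', hS.inter hS', ?_⟩
      ext ω
      simp only [mem_inter_iff, mem_preimage]
      tauto
    refine IndepSets.indep (p1 := {C | ∃ S : Set ℝ, MeasurableSet S ∧ N ⁻¹' S = C}) (p2 := 𝒢)
      hN.comap_le (sup_le h𝓕 hD.comap_le) ?_ hpi ?_ hgen ?_
    · exact @MeasurableSpace.isPiSystem_measurableSet Ω (MeasurableSpace.comap N inferInstance)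
    · exact (@MeasurableSpace.generateFrom_measurableSet Ω
        (MeasurableSpace.comap N inferInstance)).symm
    · rw [IndepSets_iff]
      rintro _ _ ⟨S', hS', rfl⟩ ⟨A, hA, S, hS, rfl⟩
      rw [inter_comm, key A hA S S' hS hS', kD A hA S hS, lawN S' hS']
      ring

end gen

variable {Ω : Type*} [mΩ : MeasurableSpace Ω] {P : Measure Ω} [IsProbabilityMeasure P]
  {F : ℝ → MeasurableSpace Ω} {B : ℝ → Ω → ℝ}

theorem laws (hB : IsBM P F B) {s t : ℝ} (hs : 0 ≤ s) (hst : s ≤ t) (E : Ω → ℝ)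
    (hE : Measurable E) (hind : Indep (MeasurableSpace.comap E inferInstance) (F t) P)
    (hlaw : P.map E = expMeasure 1) :
    P.map (fun ω => JJ B E s t ω - XX B s ω) = expMeasure 1 ∧
    P.map (fun ω => (B t ω - B s ω - (t - s)) + 2 * (JJ B E s t ω - XX B t ω - E ω)) =
      gaussianReal 0 (t - s).toNNReal ∧
    Indep (MeasurableSpace.comap (fun ω => JJ B E s t ω - XX B s ω) inferInstance) (F s) P ∧
    Indep (MeasurableSpace.comap
      (fun ω => (B t ω - B s ω - (t - s)) + 2 * (JJ B E s t ω - XX B t ω - E ω)) inferInstance)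
      (F s ⊔ MeasurableSpace.comap (fun ω => JJ B E s t ω - XX B s ω) inferInstance) P := by
  have ht : 0 ≤ t := hs.trans hst
  have hXs : Measurable (XX B s) := (XX_meas hB hs le_rfl).mono (hB.filt.le s hs) le_rfl
  have hXt : Measurable (XX B t) := (XX_meas hB ht le_rfl).mono (hB.filt.le t ht) le_rfl
  have hJ := JJ_meas hB hs hst E hE
  have hBt := bm_meas hB ht
  have hBs := bm_meas hB hs
  exact three_indep (hB.filt.le s hs) _ _ (by fun_prop) (by fun_prop) _ _
    fun A hA => joint_law hB hs hst hA E hE hind hlaw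

end Pool.Agent.R969.MY
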