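import Pool.Agent.R969.MY.L

set_option autoImplicit false
set_option warn.classDefReducibility false

open scoped ENNReal NNReal Topology
open MeasureTheory ProbabilityTheory Set Filter
open Pool.Agent.Helper41.SK

namespace Pool.Agent.R969.MY

section path

variable {Ω : Type*} {B : ℝ → Ω → ℝ}

/-- the future supremum with exponential end value -/
noncomputable def JT (B : ℝ → Ω → ℝ) (e : Ω → ℝ) (t : ℝ) (ω : Ω) : ℝ :=
  max (SX B (min t 1) 1 ω) (XX B 1 ω + e ω)

/-- the martingale part in the large filtration -/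
noncomputable def NT (B : ℝ → Ω → ℝ) (e : Ω → ℝ) (t : ℝ) (ω : Ω) : ℝ :=
  B (min t 1) ω - min t 1 - 2 * (JT B e t ω - JT B e 0 ω)

theorem SX_split {ω : Ω} (hc : ContinuousOn (fun t => B t ω) (Ici 0)) {s t u : ℝ} (hs : 0 ≤ s)
    (hst : s ≤ t) (htu : t ≤ u) : SX B s u ω = max (SX B s t ω) (SX B t u ω) := by
  unfold SX
  rw [← Icc_union_Icc_eq_Icc hst htu, image_union]
  exact csSup_union (XX_bdd hc hs) ((nonempty_Icc.2 hst).image _) (XX_bdd hc (hs.trans hst))
    ((nonempty_Icc.2 htu).image _)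

theorem JT_eq {e : Ω → ℝ} {t : ℝ} (ht : t ≤ 1) (ω : Ω) : JT B e t ω = JJ B e t 1 ω := by
  unfold JT JJ
  rw [min_eq_left ht]

theorem JT_split {ω : Ω} (hc : ContinuousOn (fun t => B t ω) (Ici 0)) (e : Ω → ℝ) {s t : ℝ}
    (hs : 0 ≤ s) (hst : s ≤ t) :
    JT B e s ω = max (SX B (min s 1) (min t 1) ω) (JT B e t ω) := by
  unfold JT
  rw [SX_split hc (le_min hs zero_le_one) (min_le_min_right 1 hst) (min_le_right t 1), max_assoc]

theorem JT_anti {ω : Ω} (hc : ContinuousOn (fun t => B t ω) (Ici 0)) (e : Ω → ℝ) {s t : ℝ}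
    (hs : 0 ≤ s) (hst : s ≤ t) : JT B e t ω ≤ JT B e s ω := by
  rw [JT_split hc e hs hst]
  exact le_max_right _ _

theorem XX_le_JT {ω : Ω} (hc : ContinuousOn (fun t => B t ω) (Ici 0)) (e : Ω → ℝ) {t : ℝ}
    (ht : 0 ≤ t) (ht1 : t ≤ 1) : XX B t ω ≤ JT B e t ω := by
  unfold JT
  rw [min_eq_left ht1]
  exact le_max_of_le_left (XX_le_SX hc ht ⟨le_rfl, ht1⟩)

theorem JT_cont {ω : Ω} (hc : ContinuousOn (fun t => B t ω) (Ici 0)) (e : Ω → ℝ) :
    ContinuousOn (fun t => JT B e t ω) (Ici 0) := by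
  set X' : ℝ → ℝ := fun u => XX B (max u 0) ω with hX'
  have hX'c : Continuous X' := by
    have h1 : ContinuousOn (fun t => XX B t ω) (Ici 0) := hc.sub (by fun_prop)
    have h2 : Continuous (fun u : ℝ => max u 0) := by fun_prop
    exact h1.comp_continuous h2 fun u => mem_Ici.2 (le_max_right _ _)
  set f : ℝ → ℝ → ℝ := fun t r => X' (min t 1 + r * (1 - min t 1)) with hf
  have hfc : Continuous ↿f := by
    simp only [hf]
    refine hX'c.comp ?_
    fun_prop
  have h3 : Continuous (fun t => sSup (f t '' Icc 0 1)) :=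
    isCompact_Icc.continuous_sSup hfc
  have h4 : ∀ t, t ∈ Ici (0 : ℝ) → JT B e t ω = max (sSup (f t '' Icc 0 1)) (XX B 1 ω + e ω) := by
    intro t ht
    unfold JT SX
    congr 2
    have ht' : 0 ≤ min t 1 := le_min ht zero_le_one
    have ht1 : min t 1 ≤ 1 := min_le_right _ _
    set τ := min t 1
    ext y
    constructor
    · rintro ⟨u, hu, rfl⟩
      rcases ht1.eq_or_lt with h1 | h1
      · refine ⟨0, by simp, ?_⟩
        have : u = 1 := le_antisymm hu.2 (by rw [← h1]; exact hu.1)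
        simp only [hf, hX']
        rw [this, zero_mul, add_zero]
        change XX B (max τ 0) ω = XX B 1 ω
        rw [h1, max_eq_left zero_le_one]
      · refine ⟨(u - τ) / (1 - τ), ⟨div_nonneg (by linarith [hu.1]) (by linarith), ?_⟩, ?_⟩
        · rw [div_le_one (by linarith)]
          linarith [hu.2]
        · simp only [hf, hX']
          change XX B (max (τ + (u - τ) / (1 - τ) * (1 - τ)) 0) ω = XX B u ω
          rw [div_mul_cancel₀ _ (by linarith : (1 : ℝ) - τ ≠ 0), add_sub_cancel,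
            max_eq_left (ht'.trans hu.1)]
    · rintro ⟨r, hr, rfl⟩
      refine ⟨τ + r * (1 - τ), ⟨?_, ?_⟩, ?_⟩
      · have := mul_nonneg hr.1 (by linarith : (0 : ℝ) ≤ 1 - τ)
        linarith
      · have := mul_le_mul_of_nonneg_right hr.2 (by linarith : (0 : ℝ) ≤ 1 - τ)
        linarith
      · simp only [hf, hX']
        change XX B (τ + r * (1 - τ)) ω = XX B (max (τ + r * (1 - τ)) 0) ω
        rw [max_eq_left]
        have := mul_nonneg hr.1 (by linarith : (0 : ℝ) ≤ 1 - τ)
        linarith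
  exact ContinuousOn.congr (h3.max continuous_const).continuousOn h4

theorem NT_incr {e : Ω → ℝ} {s t : ℝ} (ω : Ω) (hc : ContinuousOn (fun t => B t ω) (Ici 0))
    (hs : 0 ≤ s) (hst : s ≤ t) (ht1 : t ≤ 1) :
    NT B e t ω - NT B e s ω = (B t ω - B s ω - (t - s)) +
      2 * (JJ B (fun ω => JT B e t ω - XX B t ω) s t ω - XX B t ω -
        (JT B e t ω - XX B t ω)) := by
  have h1 := JT_split hc e hs hst
  rw [min_eq_left ht1, min_eq_left (hst.trans ht1)] at h1
  have h2 : JJ B (fun ω => JT B e t ω - XX B t ω) s t ω = JT B e s ω := by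
    unfold JJ
    rw [h1]
    congr 1
    ring
  rw [h2]
  unfold NT
  rw [min_eq_left ht1, min_eq_left (hst.trans ht1)]
  ring

end path

variable {Ω : Type*} [mΩ : MeasurableSpace Ω] {P : Measure Ω} [IsProbabilityMeasure P]
  {F : ℝ → MeasurableSpace Ω} {B : ℝ → Ω → ℝ} {e : Ω → ℝ}

/-- standing assumptions on the exponential variable -/
structure ExpVar (P : Measure Ω) (F : ℝ → MeasurableSpace Ω) (e : Ω → ℝ) : Prop where
  meas : Measurable e
  nonneg : ∀ ω, 0 ≤ e ω
  indep : Indep (MeasurableSpace.comap e inferInstance) (F 1) P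
  law : P.map e = expMeasure 1

theorem JT_meas (hB : IsBM P F B) (he : ExpVar P F e) {t : ℝ} (ht : 0 ≤ t) :
    Measurable (JT B e t) := by
  unfold JT
  have h1 : Measurable (SX B (min t 1) 1) :=
    (SX_meas' hB (le_min ht zero_le_one) (min_le_right _ _)).mono
      (hB.filt.le 1 zero_le_one) le_rfl
  have h2 : Measurable (XX B 1) :=
    (XX_meas hB zero_le_one le_rfl).mono (hB.filt.le 1 zero_le_one) le_rfl
  exact h1.max (h2.add he.meas)

/-- the excess at time `t` -/
theorem excess (hB : IsBM P F B) (he : ExpVar P F e) {t : ℝ} (ht : 0 ≤ t) (ht1 : t ≤ 1) :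
    P.map (fun ω => JT B e t ω - XX B t ω) = expMeasure 1 ∧
    Indep (MeasurableSpace.comap (fun ω => JT B e t ω - XX B t ω) inferInstance) (F t) P := by
  obtain ⟨h1, -, h2, -⟩ := laws hB ht ht1 e he.meas he.indep he.law
  have h : (fun ω => JT B e t ω - XX B t ω) = fun ω => JJ B e t 1 ω - XX B t ω := by
    funext ω
    rw [JT_eq ht1]
  rw [h]
  exact ⟨h1, h2⟩

/-- the enlarged filtration (not yet right-continuous) -/
noncomputable def HH (F : ℝ → MeasurableSpace Ω) (B : ℝ → Ω → ℝ) (e : Ω → ℝ) (t : ℝ) : MeasurableSpace Ω :=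
  F t ⊔ MeasurableSpace.comap (JT B e t) inferInstance

theorem NT_law (hB : IsBM P F B) (he : ExpVar P F e) {s t : ℝ} (hs : 0 ≤ s) (hst : s ≤ t)
    (ht1 : t ≤ 1) :
    P.map (fun ω => NT B e t ω - NT B e s ω) = gaussianReal 0 (t - s).toNNReal ∧
    Indep (MeasurableSpace.comap (fun ω => NT B e t ω - NT B e s ω) inferInstance)
      (HH F B e s) P := by
  have ht : 0 ≤ t := hs.trans hst
  obtain ⟨h1, h2⟩ := excess hB he ht ht1
  have hEm : Measurable (fun ω => JT B e t ω - XX B t ω) :=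
    (JT_meas hB he ht).sub ((XX_meas hB ht le_rfl).mono (hB.filt.le t ht) le_rfl)
  obtain ⟨-, h3, -, h4⟩ := laws hB hs hst _ hEm h2 h1
  have e1 : (fun ω => NT B e t ω - NT B e s ω) = fun ω => (B t ω - B s ω - (t - s)) +
      2 * (JJ B (fun ω => JT B e t ω - XX B t ω) s t ω - XX B t ω -
        (JT B e t ω - XX B t ω)) := by
    funext ω
    exact NT_incr ω (hB.ca.cont ω) hs hst ht1
  rw [e1]
  refine ⟨h3, indep_of_indep_of_le_right h4 ?_⟩
  refine sup_le le_sup_left ?_
  have h5 : JT B e s = fun ω => (JJ B (fun ω => JT B e t ω - XX B t ω) s t ω - XX B s ω) +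
      XX B s ω := by
    funext ω
    have h1 := JT_split (hB.ca.cont ω) e hs hst
    rw [min_eq_left ht1, min_eq_left (hst.trans ht1)] at h1
    rw [h1]
    unfold JJ
    ring_nf
  rw [h5]
  have m1 : Measurable[F s ⊔ MeasurableSpace.comap
    (fun ω => JJ B (fun ω => JT B e t ω - XX B t ω) s t ω - XX B s ω) inferInstance]
    (fun ω => JJ B (fun ω => JT B e t ω - XX B t ω) s t ω - XX B s ω) :=
    measurable_iff_comap_le.2 le_sup_right
  have m2 : Measurable[F s ⊔ MeasurableSpace.comap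
    (fun ω => JJ B (fun ω => JT B e t ω - XX B t ω) s t ω - XX B s ω) inferInstance] (XX B s) :=
    (XX_meas hB hs le_rfl).mono le_sup_left le_rfl
  exact (m1.add m2).comap_le

theorem JT_meas_HH (hB : IsBM P F B) {s t : ℝ} (hs : 0 ≤ s) (hst : s ≤ t) :
    Measurable[HH F B e t] (JT B e s) := by
  have h1 : JT B e s = fun ω => max (SX B (min s 1) (min t 1) ω) (JT B e t ω) := by
    funext ω
    exact JT_split (hB.ca.cont ω) e hs hst
  rw [h1]
  have h2 : Measurable[HH F B e t] (SX B (min s 1) (min t 1)) := by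
    refine (SX_meas' hB (le_min hs zero_le_one) (min_le_min_right 1 hst)).mono ?_ le_rfl
    exact (hB.filt.mono _ _ (le_min (hs.trans hst) zero_le_one) (min_le_left t 1)).trans
      le_sup_left
  have h3 : Measurable[HH F B e t] (JT B e t) := measurable_iff_comap_le.2 le_sup_right
  exact h2.max h3

theorem HH_filt (hB : IsBM P F B) (he : ExpVar P F e) : IsFilt P (HH F B e) := by
  refine ⟨fun t ht => ?_, fun s t hs hst => ?_, fun A hA => ?_⟩
  · exact sup_le (hB.filt.le t ht) (JT_meas hB he ht).comap_le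
  · refine sup_le ((hB.filt.mono s t hs hst).trans le_sup_left) ?_
    exact (JT_meas_HH hB hs hst).comap_le
  · exact (le_sup_left : F 0 ≤ HH F B e 0) A (hB.filt.null A hA)

theorem NT_ca (hB : IsBM P F B) : IsCA (HH F B e) (NT B e) := by
  refine ⟨fun t ht => ?_, fun ω => ?_⟩
  · unfold NT
    have h1 : Measurable[HH F B e t] (B (min t 1)) := by
      refine (hB.ca.adap _ (le_min ht zero_le_one)).mono ?_ le_rfl
      exact (hB.filt.mono _ _ (le_min ht zero_le_one) (min_le_left t 1)).trans le_sup_left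
    have h2 : Measurable[HH F B e t] (JT B e t) := JT_meas_HH hB ht le_rfl
    have h3 : Measurable[HH F B e t] (JT B e 0) := JT_meas_HH hB le_rfl ht
    exact (h1.sub_const _).sub ((h2.sub h3).const_mul 2)
  · unfold NT
    have h1 : ContinuousOn (fun t => B (min t 1) ω) (Ici 0) := by
      refine (hB.ca.cont ω).comp (by fun_prop) ?_
      intro t ht
      exact le_min (mem_Ici.1 ht) zero_le_one
    have h2 := JT_cont (hB.ca.cont ω) e
    refine (h1.sub (by fun_prop)).sub (ContinuousOn.const_mul ?_ 2)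
    exact h2.sub continuousOn_const

end Pool.Agent.R969.MY
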