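import Pool.Agent.R969.MY.N1

set_option autoImplicit false
set_option warn.classDefReducibility false

open scoped ENNReal NNReal Topology
open MeasureTheory ProbabilityTheory Set Filter
open Pool.Agent.Helper41.SK

namespace Pool.Agent.R969.MY

/-- Brownian motion stopped at time `1`, relative to the filtration `H` -/
structure IsSBM {Ω : Type*} [mΩ : MeasurableSpace Ω] (P : Measure Ω)
    (H : ℝ → MeasurableSpace Ω) (Y : ℝ → Ω → ℝ) : Prop where
  filt : IsFilt P H
  ca : IsCA H Y
  zero : ∀ ω, Y 0 ω = 0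
  law : ∀ s t, 0 ≤ s → s ≤ t →
    P.map (fun ω => Y t ω - Y s ω) = gaussianReal 0 (min t 1 - min s 1).toNNReal
  indep : ∀ s t, 0 ≤ s → s ≤ t →
    Indep (MeasurableSpace.comap (fun ω => Y t ω - Y s ω) inferInstance) (H s) P

variable {Ω : Type*} [mΩ : MeasurableSpace Ω] {P : Measure Ω} [IsProbabilityMeasure P]
  {F H : ℝ → MeasurableSpace Ω} {B Y : ℝ → Ω → ℝ} {e : Ω → ℝ}

theorem indep_zero (𝓗 : MeasurableSpace Ω) (f : Ω → ℝ) (hf : ∀ ω, f ω = 0) :
    Indep (MeasurableSpace.comap f inferInstance) 𝓗 P := by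
  have h0 : f = fun _ => (0 : ℝ) := funext hf
  rw [h0, Indep_iff]
  rintro _ A ⟨S, hS, rfl⟩ hA
  by_cases h : (0:ℝ) ∈ S
  · have : (fun _ : Ω => (0:ℝ)) ⁻¹' S = Set.univ := by ext; simp [h]
    rw [this]; simp
  · have : (fun _ : Ω => (0:ℝ)) ⁻¹' S = ∅ := by ext; simp [h]
    rw [this]; simp

theorem NT_sbm (hB : IsBM P F B) (he : ExpVar P F e) : IsSBM P (HH F B e) (NT B e) := by
  have hstop : ∀ t ω, NT B e t ω = NT B e (min t 1) ω := by
    intro t ω
    unfold NT JT
    rw [min_assoc, min_self]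
  have hzero : ∀ ω, NT B e 0 ω = 0 := by
    intro ω
    unfold NT
    rw [min_eq_left zero_le_one, hB.zero]
    ring
  have hz : ∀ s t, 1 ≤ s → s ≤ t → ∀ ω, NT B e t ω - NT B e s ω = 0 := by
    intro s t hs hst ω
    rw [hstop t, hstop s, min_eq_right hs, min_eq_right (hs.trans hst), sub_self]
  refine ⟨HH_filt hB he, NT_ca hB, hzero, ?_, ?_⟩
  · intro s t hs hst
    rcases le_total 1 s with h | h
    · have h0 : (fun ω => NT B e t ω - NT B e s ω) = fun _ => (0 : ℝ) := funext (hz s t h hst)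
      rw [h0, min_eq_right h, min_eq_right (h.trans hst), sub_self, Real.toNNReal_zero,
        gaussianReal_zero_var]
      simp
    · have h1 : (fun ω => NT B e t ω - NT B e s ω) =
          fun ω => NT B e (min t 1) ω - NT B e s ω := by
        funext ω
        rw [hstop t]
      rw [h1, min_eq_left h]
      exact (NT_law hB he hs (le_min hst h) (min_le_right _ _)).1
  · intro s t hs hst
    rcases le_total 1 s with h | h
    · exact indep_zero _ _ (hz s t h hst)
    · have h1 : (fun ω => NT B e t ω - NT B e s ω) =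
          fun ω => NT B e (min t 1) ω - NT B e s ω := by
        funext ω
        rw [hstop t]
      rw [h1]
      exact (NT_law hB he hs (le_min hst h) (min_le_right _ _)).2

theorem BT_sbm (hB : IsBM P F B) : IsSBM P F (fun t ω => B (min t 1) ω) := by
  refine ⟨hB.filt, ⟨fun t ht => ?_, fun ω => ?_⟩, fun ω => ?_, ?_, ?_⟩
  · exact (hB.ca.adap _ (le_min ht zero_le_one)).mono
      (hB.filt.mono _ _ (le_min ht zero_le_one) (min_le_left t 1)) le_rfl
  · refine (hB.ca.cont ω).comp (by fun_prop) ?_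
    intro t ht
    exact le_min (mem_Ici.1 ht) zero_le_one
  · rw [min_eq_left zero_le_one]
    exact hB.zero ω
  · intro s t hs hst
    exact hB.law _ _ (le_min hs zero_le_one) (min_le_min_right 1 hst)
  · intro s t hs hst
    rcases le_total 1 s with h | h
    · refine indep_zero _ _ fun ω => ?_
      rw [min_eq_right h, min_eq_right (h.trans hst), sub_self]
    · rw [min_eq_left h]
      exact hB.indep _ _ hs (le_min hst h)

/-- the right-continuous version of a filtration -/
noncomputable def Rt (H : ℝ → MeasurableSpace Ω) (t : ℝ) : MeasurableSpace Ω :=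
  ⨅ u : {u : ℝ // t < u}, H u.1

omit [IsProbabilityMeasure P] in
theorem Rt_filt (hH : IsFilt P H) : IsFilt P (Rt H) := by
  refine ⟨fun t ht => ?_, fun s t hs hst => ?_, fun A hA => ?_⟩
  · exact iInf_le_of_le ⟨t + 1, by linarith⟩ (hH.le _ (by linarith))
  · exact le_iInf fun u => iInf_le_of_le ⟨u.1, lt_of_le_of_lt hst u.2⟩ le_rfl
  · unfold Rt
    rw [MeasurableSpace.measurableSet_iInf]
    intro u
    exact hH.mono 0 u.1 le_rfl u.2.le A (hH.null A hA)

omit [IsProbabilityMeasure P] in
theorem le_Rt (hH : IsFilt P H) {t : ℝ} (ht : 0 ≤ t) : H t ≤ Rt H t :=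
  le_iInf fun u => hH.mono _ _ ht u.2.le

omit mΩ in
theorem Rt_right (t : ℝ) : Rt H t = ⨅ u : {u : ℝ // t < u}, Rt H u.1 := by
  apply le_antisymm
  · refine le_iInf fun u => le_iInf fun v => iInf_le_of_le ⟨v.1, u.2.trans v.2⟩ le_rfl
  · refine le_iInf fun u => ?_
    obtain ⟨v, hv1, hv2⟩ := exists_between u.2
    exact iInf_le_of_le ⟨v, hv1⟩ (iInf_le_of_le ⟨u.1, hv2⟩ le_rfl)

theorem Rt_sbm (h : IsSBM P H Y) : IsSBM P (Rt H) Y := by
  refine ⟨Rt_filt h.filt, ⟨fun t ht => (h.ca.adap t ht).mono (le_Rt h.filt ht) le_rfl, h.ca.cont⟩,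
    h.zero, h.law, ?_⟩
  intro s t hs hst
  rcases hst.eq_or_lt with rfl | hlt
  · exact indep_zero _ _ fun ω => sub_self _
  have ht : 0 ≤ t := hs.trans hst
  have hm : ∀ u, 0 ≤ u → Measurable (Y u) := fun u hu =>
    (h.ca.adap u hu).mono (h.filt.le u hu) le_rfl
  have hDm : ∀ u, 0 ≤ u → Measurable (fun ω => Y t ω - Y u ω) := fun u hu =>
    (hm t ht).sub (hm u hu)
  rw [Indep_iff]
  rintro _ A ⟨S, hS, rfl⟩ hA
  have hAm : MeasurableSet A := (Rt_filt h.filt).le s hs A hA
  have key : ∀ u ∈ Ioc s t, ∀ g : BoundedContinuousFunction ℝ ℝ,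
      ∫ ω in A, g (Y t ω - Y u ω) ∂P = P.real A * ∫ ω, g (Y t ω - Y u ω) ∂P := by
    intro u hu g
    have hu0 : 0 ≤ u := hs.trans hu.1.le
    have hAu : MeasurableSet[H u] A := by
      have := hA
      unfold Rt at this
      rw [MeasurableSpace.measurableSet_iInf] at this
      exact this ⟨u, hu.1⟩
    have hmeas : (P.restrict A).map (fun ω => Y t ω - Y u ω) =
        P A • P.map (fun ω => Y t ω - Y u ω) := by
      ext S hS
      rw [Measure.map_apply (hDm u hu0) hS, Measure.smul_apply,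
        Measure.map_apply (hDm u hu0) hS, Measure.restrict_apply (hDm u hu0 hS), smul_eq_mul,
        mul_comm]
      exact (Indep_iff _ _ P).1 (h.indep u t hu0 hu.2) _ A ⟨S, hS, rfl⟩ hAu
    have h1 : ∫ x, g x ∂((P.restrict A).map (fun ω => Y t ω - Y u ω)) =
        ∫ ω in A, g (Y t ω - Y u ω) ∂P :=
      integral_map (hDm u hu0).aemeasurable g.continuous.aestronglyMeasurable
    have h2 : ∫ x, g x ∂(P.map (fun ω => Y t ω - Y u ω)) =
        ∫ ω, g (Y t ω - Y u ω) ∂P :=
      integral_map (hDm u hu0).aemeasurable g.continuous.aestronglyMeasurable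
    rw [← h1, hmeas, integral_smul_measure, h2]
    rfl
  have hlim : ∀ g : BoundedContinuousFunction ℝ ℝ, ∀ Q : Measure Ω, IsFiniteMeasure Q →
      Tendsto (fun u => ∫ ω, g (Y t ω - Y u ω) ∂Q) (𝓝[>] s)
        (𝓝 (∫ ω, g (Y t ω - Y s ω) ∂Q)) := by
    intro g Q hQ
    refine tendsto_integral_filter_of_dominated_convergence (fun _ => ‖g‖) ?_ ?_ ?_ ?_
    · filter_upwards [self_mem_nhdsWithin] with u hu
      exact (g.continuous.measurable.comp
        (hDm u (hs.trans (le_of_lt hu)))).aestronglyMeasurable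
    · exact Eventually.of_forall fun u => Eventually.of_forall fun ω => g.norm_coe_le_norm _
    · exact integrable_const _
    · refine Eventually.of_forall fun ω => ?_
      have hc1 : Tendsto (fun u => Y u ω) (𝓝[>] s) (𝓝 (Y s ω)) := by
        have := (h.ca.cont ω) s hs
        exact (this.mono (fun x hx => hs.trans (le_of_lt hx) : Ioi s ⊆ Ici 0))
      exact (g.continuous.tendsto _).comp (tendsto_const_nhds.sub hc1)
  have key2 : ∀ g : BoundedContinuousFunction ℝ ℝ,
      ∫ ω in A, g (Y t ω - Y s ω) ∂P = P.real A * ∫ ω, g (Y t ω - Y s ω) ∂P := by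
    intro g
    have h1 := hlim g (P.restrict A) inferInstance
    have h2 := (hlim g P inferInstance).const_mul (P.real A)
    refine tendsto_nhds_unique h1 (h2.congr' ?_)
    have : Ioc s t ∈ 𝓝[>] s := Ioc_mem_nhdsGT hlt
    filter_upwards [this] with u hu
    exact (key u hu g).symm
  have hfin : (P.restrict A).map (fun ω => Y t ω - Y s ω) =
      P A • P.map (fun ω => Y t ω - Y s ω) := by
    have : IsFiniteMeasure (P A • P.map (fun ω => Y t ω - Y s ω)) := by
      refine ⟨?_⟩
      rw [Measure.smul_apply, smul_eq_mul]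
      exact ENNReal.mul_lt_top (measure_lt_top _ _) (measure_lt_top _ _)
    refine ext_of_forall_integral_eq_of_IsFiniteMeasure fun g => ?_
    rw [integral_map (hDm s hs).aemeasurable g.continuous.aestronglyMeasurable,
      integral_smul_measure,
      integral_map (hDm s hs).aemeasurable g.continuous.aestronglyMeasurable]
    exact key2 g
  have h3 := congrArg (fun μ : Measure ℝ => μ S) hfin
  beta_reduce at h3
  rw [Measure.map_apply (hDm s hs) hS, Measure.smul_apply, Measure.map_apply (hDm s hs) hS,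
    Measure.restrict_apply (hDm s hs hS), smul_eq_mul] at h3
  rw [h3, mul_comm]

end Pool.Agent.R969.MY
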