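import Pool.Agent.R969.MY.N2
import Pool.Agent.R969.MY.Defs

set_option autoImplicit false

open scoped ENNReal NNReal Topology
open MeasureTheory ProbabilityTheory Set Filter
open Pool.Agent.Helper41.SK

namespace Pool.Agent.R969.MY

variable {Ω : Type*} [mΩ : MeasurableSpace Ω] {P : Measure Ω} [IsProbabilityMeasure P]
  {H : ℝ → MeasurableSpace Ω} {Y : ℝ → Ω → ℝ}

omit [IsProbabilityMeasure P] in
theorem IsSBM.meas (h : IsSBM P H Y) {t : ℝ} (ht : 0 ≤ t) : Measurable (Y t) :=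
  (h.ca.adap t ht).mono (h.filt.le t ht) le_rfl

omit [IsProbabilityMeasure P] in
theorem IsSBM.incr_memLp (h : IsSBM P H Y) {s t : ℝ} (hs : 0 ≤ s) (hst : s ≤ t) (p : ℝ≥0) :
    MemLp (fun ω => Y t ω - Y s ω) p P := by
  have hm : Measurable (fun ω => Y t ω - Y s ω) := (h.meas (hs.trans hst)).sub (h.meas hs)
  have h1 : MemLp id p (P.map (fun ω => Y t ω - Y s ω)) := by
    rw [h.law s t hs hst]
    exact memLp_id_gaussianReal p
  exact (memLp_map_measure_iff (by fun_prop) hm.aemeasurable).1 h1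

theorem IsSBM.mart (h : IsSBM P H Y) : IsMart P H Y := by
  have hint0 : ∀ s t, 0 ≤ s → s ≤ t → Integrable (fun ω => Y t ω - Y s ω) P := by
    intro s t hs hst
    exact (h.incr_memLp hs hst 1).integrable (by simp)
  have hint : ∀ t, 0 ≤ t → Integrable (Y t) P := by
    intro t ht
    have := hint0 0 t le_rfl ht
    simpa [h.zero] using this
  refine ⟨h.ca.adap, hint, ?_⟩
  intro s t hs hst A hA
  have ht : 0 ≤ t := hs.trans hst
  have hm : Measurable (fun ω => Y t ω - Y s ω) := (h.meas ht).sub (h.meas hs)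
  have h1 := Indep.setIntegral_eq_mul (h.filt.le s hs) (f := id) (h.indep s t hs hst).symm
    hm.aemeasurable hA (by fun_prop)
  have h2 : ∫ ω, id (Y t ω - Y s ω) ∂P = 0 := by
    have : ∫ ω, id (Y t ω - Y s ω) ∂P = ∫ x, id x ∂(P.map (fun ω => Y t ω - Y s ω)) :=
      (integral_map hm.aemeasurable (by fun_prop)).symm
    rw [this, h.law s t hs hst]
    exact integral_id_gaussianReal
  rw [h2, mul_zero] at h1
  simp only [id] at h1
  rw [integral_sub (hint t ht).integrableOn (hint s hs).integrableOn] at h1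
  linarith

/-- the centred squared increment -/
theorem IsSBM.sq_incr (h : IsSBM P H Y) : ∃ C : ℝ, 0 ≤ C ∧ ∀ s t, 0 ≤ s → s ≤ t →
    ∀ d, d = min t 1 - min s 1 →
    MemLp (fun ω => (Y t ω - Y s ω) ^ 2 - d) 2 P ∧
    ∫ ω, ((Y t ω - Y s ω) ^ 2 - d) ∂P = 0 ∧
    ∫ ω, ((Y t ω - Y s ω) ^ 2 - d) ^ 2 ∂P = C * d ^ 2 := by
  refine ⟨∫ z, (z ^ 2 - 1) ^ 2 ∂(gaussianReal 0 1), integral_nonneg fun z => sq_nonneg _, ?_⟩
  intro s t hs hst d hd
  have hd0 : 0 ≤ d := by
    rw [hd]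
    have := min_le_min_right 1 hst
    linarith
  have hm : Measurable (fun ω => Y t ω - Y s ω) := (h.meas (hs.trans hst)).sub (h.meas hs)
  have hlaw : P.map (fun ω => Y t ω - Y s ω) =
      (gaussianReal 0 1).map (fun x => Real.sqrt d * x) := by
    rw [h.law s t hs hst, ← hd]
    have := gaussianReal_map_const_mul (μ := 0) (v := 1) (Real.sqrt d)
    rw [this]
    congr 1
    · simp
    · ext
      simp [Real.sq_sqrt hd0, hd0]
  have hL4 : MemLp (fun ω => Y t ω - Y s ω) 4 P := h.incr_memLp hs hst 4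
  have hL2 : MemLp (fun ω => Y t ω - Y s ω) 2 P := h.incr_memLp hs hst 2
  have hmem : MemLp (fun ω => (Y t ω - Y s ω) ^ 2 - d) 2 P := by
    refine MemLp.sub ?_ (memLp_const d)
    rw [memLp_two_iff_integrable_sq (hm.pow_const 2).aestronglyMeasurable]
    have h4 := hL4.integrable_norm_pow (by norm_num : (4 : ℕ) ≠ 0)
    refine h4.congr (Eventually.of_forall fun ω => ?_)
    simp only [Real.norm_eq_abs]
    rw [← pow_mul]
    exact (show Even 4 by decide).pow_abs _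
  have hvar : ∫ z, z ^ 2 ∂(gaussianReal 0 1) = 1 := by
    have h1 := variance_id_gaussianReal (μ := 0) (v := 1)
    rw [variance_eq_integral (by fun_prop)] at h1
    simpa using h1
  refine ⟨hmem, ?_, ?_⟩
  · rw [integral_sub hL2.integrable_sq (integrable_const d)]
    have e1 : ∫ ω, (Y t ω - Y s ω) ^ 2 ∂P = ∫ x, x ^ 2 ∂(P.map (fun ω => Y t ω - Y s ω)) :=
      (integral_map hm.aemeasurable (f := fun x : ℝ => x ^ 2) (by fun_prop)).symm
    rw [e1, hlaw, integral_map (by fun_prop) (by fun_prop)]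
    simp only [mul_pow, Real.sq_sqrt hd0]
    rw [integral_const_mul, hvar]
    simp
  · have e1 : ∫ ω, ((Y t ω - Y s ω) ^ 2 - d) ^ 2 ∂P =
        ∫ x, (x ^ 2 - d) ^ 2 ∂(P.map (fun ω => Y t ω - Y s ω)) :=
      (integral_map hm.aemeasurable (f := fun x : ℝ => (x ^ 2 - d) ^ 2) (by fun_prop)).symm
    rw [e1, hlaw, integral_map (by fun_prop) (by fun_prop)]
    have e2 : ∀ z : ℝ, ((Real.sqrt d * z) ^ 2 - d) ^ 2 = d ^ 2 * (z ^ 2 - 1) ^ 2 := by
      intro z
      rw [mul_pow, Real.sq_sqrt hd0]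
      ring
    simp_rw [e2]
    rw [integral_const_mul, mul_comm]

/-- second moment of the sum -/
theorem IsSBM.sum_sq (h : IsSBM P H Y) : ∃ C : ℝ, 0 ≤ C ∧ ∀ (τ : ℕ → ℝ), Monotone τ → τ 0 = 0 →
    ∀ k : ℕ, MemLp (fun ω => ∑ i ∈ Finset.range k, (Y (τ (i + 1)) ω - Y (τ i) ω) ^ 2 -
      min (τ k) 1) 2 P ∧
    ∫ ω, (∑ i ∈ Finset.range k, (Y (τ (i + 1)) ω - Y (τ i) ω) ^ 2 - min (τ k) 1) ^ 2 ∂P =
      C * ∑ i ∈ Finset.range k, (min (τ (i + 1)) 1 - min (τ i) 1) ^ 2 := by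
  obtain ⟨C, hC, hC2⟩ := h.sq_incr
  refine ⟨C, hC, ?_⟩
  intro τ hτ h0 k
  have hτ0 : ∀ i, 0 ≤ τ i := fun i => by rw [← h0]; exact hτ (Nat.zero_le i)
  have hadap : ∀ k, Measurable[H (τ k)] (fun ω => ∑ i ∈ Finset.range k,
      (Y (τ (i + 1)) ω - Y (τ i) ω) ^ 2 - min (τ k) 1) := by
    intro k
    refine Measurable.sub_const ?_ _
    refine Finset.measurable_sum _ fun i hi => ?_
    have hik : i + 1 ≤ k := Finset.mem_range.1 hi
    have m1 : Measurable[H (τ k)] (Y (τ (i + 1))) :=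
      (h.ca.adap _ (hτ0 _)).mono (h.filt.mono _ _ (hτ0 _) (hτ hik)) le_rfl
    have m2 : Measurable[H (τ k)] (Y (τ i)) :=
      (h.ca.adap _ (hτ0 _)).mono (h.filt.mono _ _ (hτ0 _) (hτ (by omega))) le_rfl
    exact (m1.sub m2).pow_const 2
  induction k with
  | zero => simp [h0]
  | succ k ih =>
    obtain ⟨ih1, ih2⟩ := ih
    obtain ⟨m1, m2, m3⟩ := hC2 (τ k) (τ (k + 1)) (hτ0 k) (hτ (Nat.le_succ k)) _ rfl
    have e : ∀ ω, ∑ i ∈ Finset.range (k + 1), (Y (τ (i + 1)) ω - Y (τ i) ω) ^ 2 -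
        min (τ (k + 1)) 1 = (∑ i ∈ Finset.range k, (Y (τ (i + 1)) ω - Y (τ i) ω) ^ 2 -
        min (τ k) 1) + ((Y (τ (k + 1)) ω - Y (τ k) ω) ^ 2 - (min (τ (k + 1)) 1 - min (τ k) 1)) := by
      intro ω
      rw [Finset.sum_range_succ]
      ring
    simp_rw [e]
    refine ⟨ih1.add m1, ?_⟩
    set S : Ω → ℝ := fun ω => ∑ i ∈ Finset.range k, (Y (τ (i + 1)) ω - Y (τ i) ω) ^ 2 -
        min (τ k) 1 with hS
    set η : Ω → ℝ := fun ω => (Y (τ (k + 1)) ω - Y (τ k) ω) ^ 2 -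
      (min (τ (k + 1)) 1 - min (τ k) 1) with hη
    have hind : IndepFun S η P := by
      rw [IndepFun_iff_Indep]
      refine indep_of_indep_of_le_left (indep_of_indep_of_le_right
        (h.indep _ _ (hτ0 k) (hτ (Nat.le_succ k))).symm ?_) (hadap k).comap_le
      rintro _ ⟨C, hC, rfl⟩
      exact ⟨(fun x : ℝ => x ^ 2 - (min (τ (k + 1)) 1 - min (τ k) 1)) ⁻¹' C,
        (by fun_prop : Measurable fun x : ℝ => x ^ 2 - (min (τ (k + 1)) 1 - min (τ k) 1)) hC, rfl⟩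
    have hSη : ∫ ω, S ω * η ω ∂P = 0 := by
      rw [hind.integral_fun_mul_eq_mul_integral ih1.aestronglyMeasurable m1.aestronglyMeasurable,
        m2, mul_zero]
    have hi1 : Integrable (fun ω => S ω ^ 2) P := ih1.integrable_sq
    have hi2 : Integrable (fun ω => η ω ^ 2) P := m1.integrable_sq
    have hi3 : Integrable (fun ω => S ω * η ω) P := ih1.integrable_mul m1
    have e3 : ∀ ω, (S ω + η ω) ^ 2 = S ω ^ 2 + (2 * (S ω * η ω) + η ω ^ 2) := by
      intro ω; ring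
    change ∫ ω, (S ω + η ω) ^ 2 ∂P = _
    simp_rw [e3]
    have hi4 : Integrable (fun ω => 2 * (S ω * η ω) + η ω ^ 2) P := (hi3.const_mul 2).add hi2
    have ih2' : ∫ ω, S ω ^ 2 ∂P =
        C * ∑ i ∈ Finset.range k, (min (τ (i + 1)) 1 - min (τ i) 1) ^ 2 := ih2
    have m3' : ∫ ω, η ω ^ 2 ∂P = C * (min (τ (k + 1)) 1 - min (τ k) 1) ^ 2 := m3
    rw [integral_add hi1 hi4, integral_add (hi3.const_mul 2) hi2,
      integral_const_mul, hSη, ih2', m3', Finset.sum_range_succ]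
    ring

/-- the quadratic variation of a Brownian motion stopped at time `1` -/
theorem IsSBM.qv (h : IsSBM P H Y) : IsQV P Y (fun t _ => min t 1) := by
  refine ⟨fun _ => min_eq_left zero_le_one, fun _ => by fun_prop, ?_⟩
  intro t ht ε hε
  obtain ⟨C, hC, hC2⟩ := h.sum_sq
  refine ⟨ε ^ 3 / (C + 1), by positivity, ?_⟩
  intro n τ hτ h0 hn hmesh
  obtain ⟨h1, h2⟩ := hC2 τ hτ h0 n
  rw [hn] at h1 h2
  set δ := ε ^ 3 / (C + 1) with hδ
  have hδ0 : 0 < δ := by rw [hδ]; positivity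
  have h3 : ∑ i ∈ Finset.range n, (min (τ (i + 1)) 1 - min (τ i) 1) ^ 2 ≤ δ := by
    have hb : ∀ i ∈ Finset.range n, (min (τ (i + 1)) 1 - min (τ i) 1) ^ 2 ≤
        δ * (min (τ (i + 1)) 1 - min (τ i) 1) := by
      intro i hi
      have hm := hmesh i (Finset.mem_range.1 hi)
      have h4 : τ i ≤ τ (i + 1) := hτ (Nat.le_succ i)
      have h5 : 0 ≤ min (τ (i + 1)) 1 - min (τ i) 1 := by
        have := min_le_min_right 1 h4
        linarith
      have h6 : min (τ (i + 1)) 1 - min (τ i) 1 ≤ δ := by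
        rcases le_total (τ i) 1 with h7 | h7
        · rw [min_eq_left h7]
          have := min_le_left (τ (i + 1)) 1
          linarith
        · rw [min_eq_right h7, min_eq_right (h7.trans h4), sub_self]
          exact hδ0.le
      nlinarith
    refine (Finset.sum_le_sum hb).trans ?_
    rw [← Finset.mul_sum, Finset.sum_range_sub (fun i => min (τ i) 1), h0, hn,
      min_eq_left zero_le_one, sub_zero]
    exact mul_le_of_le_one_right hδ0.le (min_le_right _ _)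
  have h4 := mul_meas_ge_le_integral_of_nonneg (μ := P)
    (Eventually.of_forall fun ω => sq_nonneg (∑ i ∈ Finset.range n,
      (Y (τ (i + 1)) ω - Y (τ i) ω) ^ 2 - min t 1)) h1.integrable_sq (ε ^ 2)
  rw [h2] at h4
  have hset : {ω | ε ≤ |∑ i ∈ Finset.range n, (Y (τ (i + 1)) ω - Y (τ i) ω) ^ 2 - min t 1|} =
      {ω | ε ^ 2 ≤ (∑ i ∈ Finset.range n, (Y (τ (i + 1)) ω - Y (τ i) ω) ^ 2 - min t 1) ^ 2} := by
    ext ω
    simp only [mem_ofPred_eq]
    rw [sq_le_sq, abs_of_pos hε]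
  rw [hset]
  have h5 : ε ^ 2 * P.real {ω | ε ^ 2 ≤ (∑ i ∈ Finset.range n,
      (Y (τ (i + 1)) ω - Y (τ i) ω) ^ 2 - min t 1) ^ 2} ≤ ε ^ 2 * ε := by
    refine h4.trans ?_
    calc C * ∑ i ∈ Finset.range n, (min (τ (i + 1)) 1 - min (τ i) 1) ^ 2 ≤ C * δ := by gcongr
      _ ≤ (C + 1) * δ := by nlinarith
      _ = ε ^ 2 * ε := by rw [hδ]; field_simp
  have h6 := le_of_mul_le_mul_left h5 (by positivity)
  rw [← ofReal_measureReal]
  exact ENNReal.ofReal_le_ofReal h6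

end Pool.Agent.R969.MY
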