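import Pool.Agent.R969.MY.N3

set_option autoImplicit false

open scoped ENNReal NNReal Topology
open MeasureTheory ProbabilityTheory Set Filter
open Pool.Agent.Helper41.SK

namespace Pool.Agent.R969.MY

theorem expM_zero : expMeasure 1 {0} = 0 := by
  have e : expMeasure 1 = volume.withDensity (exponentialPDF 1) := rfl
  rw [e]
  exact withDensity_absolutelyContinuous _ _ (by simp)

theorem ac_of_isAC {a j : ℝ → ℝ} (h : IsAC a (fun t => min t 1))
    (hj : ∀ u v, 0 ≤ u → u ≤ v → v ≤ 1 → |j v - j u| ≤ |a v - a u| + |v - u|) :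
    AbsolutelyContinuousOnInterval j 0 1 := by
  rw [absolutelyContinuousOnInterval_iff]
  intro ε hε
  obtain ⟨δ, hδ, h2⟩ := h 1 zero_le_one (ε / 2) (by positivity)
  refine ⟨min δ (ε / 2), lt_min hδ (by positivity), ?_⟩
  rintro ⟨n, I⟩ hE hsum
  have hmem : ∀ i < n, (I i).1 ∈ Icc (0 : ℝ) 1 ∧ (I i).2 ∈ Icc (0 : ℝ) 1 := by
    intro i hi
    have := hE.1 i (Finset.mem_range.2 hi)
    rwa [uIcc_of_le zero_le_one] at this
  have hdis := hE.2
  simp only at hsum ⊢
  have e1 : ∀ i, dist (I i).1 (I i).2 = max (I i).1 (I i).2 - min (I i).1 (I i).2 := by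
    intro i
    rw [Real.dist_eq, max_sub_min_eq_abs']
  have h3 := h2 n (fun i => min (I i).1 (I i).2) (fun i => max (I i).1 (I i).2) ?_ ?_ ?_
  · have h4 : ∀ i ∈ Finset.range n, dist (j (I i).1) (j (I i).2) ≤
        |a (max (I i).1 (I i).2) - a (min (I i).1 (I i).2)| + dist (I i).1 (I i).2 := by
      intro i hi
      obtain ⟨m1, m2⟩ := hmem i (Finset.mem_range.1 hi)
      have h5 := hj (min (I i).1 (I i).2) (max (I i).1 (I i).2) (le_min m1.1 m2.1)
        (min_le_max) (max_le m1.2 m2.2)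
      have h6 : dist (j (I i).1) (j (I i).2) =
          |j (max (I i).1 (I i).2) - j (min (I i).1 (I i).2)| := by
        rw [Real.dist_eq]
        rcases le_total (I i).1 (I i).2 with h | h
        · rw [max_eq_right h, min_eq_left h, abs_sub_comm]
        · rw [max_eq_left h, min_eq_right h]
      rw [h6, e1]
      refine h5.trans (le_of_eq ?_)
      rw [abs_of_nonneg (sub_nonneg.2 min_le_max)]
    refine (Finset.sum_le_sum h4).trans_lt ?_
    rw [Finset.sum_add_distrib]
    have h7 := lt_min_iff.1 hsum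
    linarith
  · intro i hi
    obtain ⟨m1, m2⟩ := hmem i hi
    exact ⟨le_min m1.1 m2.1, min_le_max, max_le m1.2 m2.2⟩
  · intro i hi k hk hik
    have := hdis (Finset.mem_coe.2 (Finset.mem_range.2 hi))
      (Finset.mem_coe.2 (Finset.mem_range.2 hk)) hik
    refine Disjoint.mono ?_ ?_ this
    · exact Ioo_subset_Ioc_self
    · exact Ioo_subset_Ioc_self
  · have h8 : ∀ i ∈ Finset.range n, |min (max (I i).1 (I i).2) 1 - min (min (I i).1 (I i).2) 1| =
        dist (I i).1 (I i).2 := by
      intro i hi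
      obtain ⟨m1, m2⟩ := hmem i (Finset.mem_range.1 hi)
      rw [min_eq_left (max_le m1.2 m2.2), min_eq_left ((min_le_left _ _).trans m1.2), e1,
        abs_of_nonneg (sub_nonneg.2 min_le_max)]
    rw [Finset.sum_congr rfl h8]
    exact (lt_min_iff.1 hsum).1

section path

variable {Ω : Type*} {B : ℝ → Ω → ℝ}

/-- the future supremum is locally constant off the contact set -/
theorem JT_locconst {ω : Ω} (hc : ContinuousOn (fun t => B t ω) (Ici 0)) (e : Ω → ℝ) {t : ℝ}
    (ht : t ∈ Ioo (0 : ℝ) 1) (h : XX B t ω < JT B e t ω) :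
    HasDerivAt (fun u => JT B e u ω) 0 t := by
  have hX : ContinuousAt (fun u => XX B u ω) t := by
    have h1 : ContinuousOn (fun u => XX B u ω) (Ici 0) := hc.sub (by fun_prop)
    exact h1.continuousAt (Ici_mem_nhds ht.1)
  have hev : ∀ᶠ u in 𝓝 t, XX B u ω < JT B e t ω := hX.eventually_lt continuousAt_const h
  have hev2 : ∀ᶠ u in 𝓝 t, u ∈ Ioo (0 : ℝ) 1 := Ioo_mem_nhds ht.1 ht.2
  obtain ⟨ε, hε, hball⟩ := Metric.eventually_nhds_iff.1 (hev.and hev2)
  have hloc : (fun u => JT B e u ω) =ᶠ[𝓝 t] fun _ => JT B e t ω := by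
    refine Metric.eventually_nhds_iff.2 ⟨ε, hε, fun u hu => ?_⟩
    obtain ⟨-, hu01⟩ := hball hu
    have hseg : ∀ v, v ∈ uIcc t u → XX B v ω < JT B e t ω := by
      intro v hv
      refine (hball ?_).1
      have h1 : |v - t| ≤ |u - t| := abs_sub_left_of_mem_uIcc hv
      rw [Real.dist_eq] at hu ⊢
      exact lt_of_le_of_lt h1 hu
    change JT B e u ω = JT B e t ω
    rcases le_total u t with hut | hut
    · have h1 := JT_split hc e hu01.1.le hut
      rw [min_eq_left hu01.2.le, min_eq_left ht.2.le] at h1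
      rw [h1]
      apply max_eq_right
      obtain ⟨v, hv, hv2⟩ := SX_attained (B := B) hc hu01.1.le hut
      rw [← hv2]
      exact (hseg v (by rw [uIcc_of_ge hut]; exact hv)).le
    · have h1 := JT_split hc e ht.1.le hut
      rw [min_eq_left hu01.2.le, min_eq_left ht.2.le] at h1
      rcases le_total (JT B e u ω) (SX B t u ω) with h2 | h2
      · exfalso
        rw [max_eq_left h2] at h1
        obtain ⟨v, hv, hv2⟩ := SX_attained (B := B) hc ht.1.le hut
        have h3 := hseg v (by rw [uIcc_of_le hut]; exact hv)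
        rw [hv2, ← h1] at h3
        exact lt_irrefl _ h3
      · rw [max_eq_right h2] at h1
        exact h1.symm
  exact (hasDerivAt_const t (JT B e t ω)).congr_of_eventuallyEq hloc

end path

variable {Ω : Type*} [mΩ : MeasurableSpace Ω] {P : Measure Ω} [IsProbabilityMeasure P]
  {F : ℝ → MeasurableSpace Ω} {B : ℝ → Ω → ℝ} {e : Ω → ℝ}

/-- the contact set is Lebesgue-null -/
theorem contact_null (hB : IsBM P F B) (he : ExpVar P F e) :
    ∀ᵐ ω ∂P, ∀ᵐ t ∂(volume : Measure ℝ), t ∈ Icc (0 : ℝ) 1 → JT B e t ω - XX B t ω ≠ 0 := by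
  set u : ℝ → Ω → ℝ := fun t ω => JT B e (max t 0) ω - XX B (max t 0) ω with hu
  have hcont : ∀ ω, Continuous (fun t => u t ω) := by
    intro ω
    have h1 : ContinuousOn (fun t => JT B e t ω - XX B t ω) (Ici 0) :=
      (JT_cont (hB.ca.cont ω) e).sub ((hB.ca.cont ω).sub (by fun_prop))
    exact h1.comp_continuous (by fun_prop) fun t => mem_Ici.2 (le_max_right _ _)
  have hmeas : ∀ t, Measurable (u t) := fun t =>
    (JT_meas hB he (le_max_right _ _)).sub
      ((XX_meas hB (le_max_right _ _) le_rfl).mono (hB.filt.le _ (le_max_right _ _)) le_rfl)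
  have hjoint : Measurable (Function.uncurry u) :=
    measurable_uncurry_of_continuous_of_measurable hcont hmeas
  have hset : MeasurableSet {q : ℝ × Ω | u q.1 q.2 ≠ 0} :=
    (hjoint (measurableSet_singleton 0)).compl
  have h1 : ∀ᵐ t ∂(volume.restrict (Icc (0 : ℝ) 1)), ∀ᵐ ω ∂P, u t ω ≠ 0 := by
    refine (ae_restrict_iff' measurableSet_Icc).2 (Eventually.of_forall fun t ht => ?_)
    have h2 := (excess hB he ht.1 ht.2).1
    have h3 : P.map (fun ω => JT B e t ω - XX B t ω) {0} = 0 := by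
      rw [h2]; exact expM_zero
    rw [Measure.map_apply ?_ (measurableSet_singleton 0)] at h3
    · rw [ae_iff]
      simp only [hu, not_not]
      rw [max_eq_left ht.1]
      exact h3
    · exact (JT_meas hB he ht.1).sub ((XX_meas hB ht.1 le_rfl).mono (hB.filt.le _ ht.1) le_rfl)
  have h4 := (Measure.ae_ae_comm hset).1 h1
  filter_upwards [h4] with ω hω
  rw [ae_restrict_iff' measurableSet_Icc] at hω
  filter_upwards [hω] with t ht ht01
  have := ht ht01
  simp only [hu] at this
  rwa [max_eq_left ht01.1] at this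

/-- the finite variation part -/
noncomputable def AT (B : ℝ → Ω → ℝ) (e : Ω → ℝ) (t : ℝ) (ω : Ω) : ℝ :=
  min t 1 + 2 * (JT B e t ω - JT B e 0 ω)

/-- the future supremum is not almost surely constant -/
theorem not_const (hB : IsBM P F B) (he : ExpVar P F e) :
    ¬ ∀ᵐ ω ∂P, JT B e 0 ω = JT B e 1 ω := by
  intro h
  obtain ⟨h0, -⟩ := excess hB he le_rfl zero_le_one
  obtain ⟨h1, h1i⟩ := excess hB he zero_le_one le_rfl
  have m0 : Measurable (fun ω => JT B e 0 ω - XX B 0 ω) :=
    (JT_meas hB he le_rfl).sub ((XX_meas hB le_rfl le_rfl).mono (hB.filt.le _ le_rfl) le_rfl)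
  have m1 : Measurable (fun ω => JT B e 1 ω - XX B 1 ω) :=
    (JT_meas hB he zero_le_one).sub
      ((XX_meas hB zero_le_one le_rfl).mono (hB.filt.le _ zero_le_one) le_rfl)
  have hX1 : Measurable[F 1] (XX B 1) := XX_meas hB zero_le_one le_rfl
  have hX1' : Measurable (XX B 1) := hX1.mono (hB.filt.le _ zero_le_one) le_rfl
  have c0 : ∫ ω, Complex.exp (((1 : ℝ) * Complex.I) * (JT B e 0 ω - XX B 0 ω : ℝ)) ∂P =
      1 / (1 - (1 : ℝ) * Complex.I) := by
    rw [← expM_char, ← h0, integral_map m0.aemeasurable (by fun_prop)]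
  have c1 : ∫ ω, Complex.exp (((1 : ℝ) * Complex.I) * (JT B e 1 ω - XX B 1 ω : ℝ)) ∂P =
      1 / (1 - (1 : ℝ) * Complex.I) := by
    rw [← expM_char, ← h1, integral_map m1.aemeasurable (by fun_prop)]
  have c2 : ∫ ω, Complex.exp (((1 : ℝ) * Complex.I) * (XX B 1 ω : ℝ)) ∂P =
      Complex.exp (-((1 : ℝ) ^ 2 * (1 : ℝ) / 2 : ℝ)) * Complex.exp (-(Complex.I / 2)) := by
    have hl := hB.law 0 1 le_rfl zero_le_one
    have g := gauss_char (1 - 0 : ℝ).toNNReal 1
    have hm10 : Measurable (fun ω => B 1 ω - B 0 ω) :=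
      (bm_meas hB zero_le_one).sub (bm_meas hB le_rfl)
    rw [← hl, integral_map hm10.aemeasurable (by fun_prop)] at g
    have ee : ∀ ω, Complex.exp (((1 : ℝ) * Complex.I) * (XX B 1 ω : ℝ)) =
        Complex.exp (((1 : ℝ) * Complex.I) * (B 1 ω - B 0 ω : ℝ)) *
          Complex.exp (-(Complex.I / 2)) := by
      intro ω
      rw [← Complex.exp_add, hB.zero]
      congr 1
      unfold XX
      push_cast
      ring
    simp_rw [ee]
    rw [integral_mul_const, g]
    congr 2
    simp
  have hind : IndepFun (fun ω => Complex.exp (((1 : ℝ) * Complex.I) *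
      (JT B e 1 ω - XX B 1 ω : ℝ)))
      (fun ω => Complex.exp (((1 : ℝ) * Complex.I) * (XX B 1 ω : ℝ))) P := by
    rw [IndepFun_iff_Indep]
    refine indep_of_indep_of_le_left (indep_of_indep_of_le_right h1i ?_) ?_
    · have : Measurable[F 1] (fun ω => Complex.exp (((1 : ℝ) * Complex.I) * (XX B 1 ω : ℝ))) := by
        have hg : Measurable (fun x : ℝ => Complex.exp (((1 : ℝ) * Complex.I) * (x : ℝ))) := by
          fun_prop
        exact hg.comp hX1
      exact this.comap_le
    · rintro _ ⟨C, hC, rfl⟩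
      exact ⟨(fun x : ℝ => Complex.exp (((1 : ℝ) * Complex.I) * (x : ℝ))) ⁻¹' C,
        (by fun_prop : Measurable fun x : ℝ => Complex.exp (((1 : ℝ) * Complex.I) * (x : ℝ))) hC,
        rfl⟩
  have c3 : ∫ ω, Complex.exp (((1 : ℝ) * Complex.I) * (JT B e 0 ω - XX B 0 ω : ℝ)) ∂P =
      ∫ ω, Complex.exp (((1 : ℝ) * Complex.I) * (JT B e 1 ω - XX B 1 ω : ℝ)) *
        Complex.exp (((1 : ℝ) * Complex.I) * (XX B 1 ω : ℝ)) ∂P := by
    refine integral_congr_ae ?_
    filter_upwards [h] with ω hω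
    rw [← Complex.exp_add, hω]
    congr 1
    have : XX B 0 ω = 0 := by
      unfold XX
      rw [hB.zero]
      simp
    rw [this]
    push_cast
    ring
  have hgm : Measurable (fun x : ℝ => Complex.exp (((1 : ℝ) * Complex.I) * (x : ℝ))) := by
    fun_prop
  rw [c0, hind.integral_fun_mul_eq_mul_integral (hgm.comp m1).aestronglyMeasurable
    (hgm.comp hX1').aestronglyMeasurable, c1, c2] at c3
  have hne : (1 : ℂ) / (1 - (1 : ℝ) * Complex.I) ≠ 0 := by
    apply one_div_ne_zero
    intro h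
    have := congrArg Complex.re h
    simp at this
  have c4 : (1 : ℂ) = Complex.exp (-((1 : ℝ) ^ 2 * (1 : ℝ) / 2 : ℝ)) *
      Complex.exp (-(Complex.I / 2)) := by
    have := mul_left_cancel₀ hne ((mul_one _).trans c3)
    exact this
  have c5 := congrArg norm c4
  rw [norm_one, norm_mul, Complex.norm_exp, Complex.norm_exp] at c5
  simp at c5
  have c6 : Real.exp (-2⁻¹) < 1 := Real.exp_lt_one_iff.2 (by norm_num)
  linarith

/-- the finite variation part fails to be absolutely continuous with positive probability -/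
theorem not_ac (hB : IsBM P F B) (he : ExpVar P F e) :
    ¬ ∀ᵐ ω ∂P, IsAC (fun t => AT B e t ω) (fun t => min t 1) := by
  intro h
  refine not_const hB he ?_
  filter_upwards [h, contact_null hB he] with ω hω hnull
  have hc := hB.ca.cont ω
  have hac : AbsolutelyContinuousOnInterval (fun t => JT B e t ω) 0 1 := by
    refine ac_of_isAC hω fun u v hu huv hv => ?_
    have e1 : AT B e v ω - AT B e u ω = (v - u) + 2 * (JT B e v ω - JT B e u ω) := by
      unfold AT
      rw [min_eq_left hv, min_eq_left (huv.trans hv)]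
      ring
    rw [e1]
    have e2 : 2 * (JT B e v ω - JT B e u ω) =
        ((v - u) + 2 * (JT B e v ω - JT B e u ω)) - (v - u) := by ring
    have e3 := abs_sub ((v - u) + 2 * (JT B e v ω - JT B e u ω)) (v - u)
    rw [← e2, abs_mul, abs_two] at e3
    have := abs_nonneg (JT B e v ω - JT B e u ω)
    linarith
  obtain ⟨C, hC⟩ := hac.const_of_ae_hasDerivAt_zero (by
    have h0 : ∀ᵐ t ∂(volume : Measure ℝ), t ≠ 0 := by
      simp [ae_iff]
    have h1 : ∀ᵐ t ∂(volume : Measure ℝ), t ≠ 1 := by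
      simp [ae_iff]
    filter_upwards [hnull, h0, h1] with t ht ht0 ht1 htm
    rw [uIcc_of_le zero_le_one] at htm
    have htI : t ∈ Ioo (0 : ℝ) 1 :=
      ⟨lt_of_le_of_ne htm.1 (Ne.symm ht0), lt_of_le_of_ne htm.2 ht1⟩
    refine JT_locconst hc e htI (lt_of_le_of_ne (XX_le_JT hc e htm.1 htm.2) ?_)
    intro h
    exact ht htm (by rw [h]; ring))
  rw [hC 0 (by simp), hC 1 (by simp)]

end Pool.Agent.R969.MY
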