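import Pool.Agent.R969.MY.N4

set_option autoImplicit false

open scoped ENNReal NNReal Topology
open MeasureTheory ProbabilityTheory Set Filter
open Pool.Agent.Helper41.SK

namespace Pool.Agent.R969.MY

theorem gauss_pos {a b : ℝ} (hab : a < b) : 0 < gaussianReal 0 1 (Ioc a b) := by
  rw [pos_iff_ne_zero]
  intro h
  have h1 := gaussianReal_absolutelyContinuous' 0 (one_ne_zero : (1 : ℝ≥0) ≠ 0) h
  rw [Real.volume_Ioc, ENNReal.ofReal_eq_zero] at h1
  linarith

theorem gauss_cdf_strict : StrictMono (cdf (gaussianReal 0 1)) := by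
  intro a b hab
  rw [cdf_eq_real, cdf_eq_real]
  have h1 : Iic b = Iic a ∪ Ioc a b := (Iic_union_Ioc_eq_Iic hab.le).symm
  have hd : Disjoint (Iic a) (Ioc a b) := Iic_disjoint_Ioc le_rfl
  rw [h1, measureReal_union hd measurableSet_Ioc]
  have h2 : 0 < (gaussianReal 0 1).real (Ioc a b) :=
    ENNReal.toReal_pos (gauss_pos hab).ne' (measure_ne_top _ _)
  linarith

theorem gauss_cdf_cont : Continuous (cdf (gaussianReal 0 1)) := by
  rw [continuous_iff_continuousAt]
  intro x
  have hmono := monotone_cdf (gaussianReal 0 1)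
  rw [hmono.continuousAt_iff_leftLim_eq_rightLim]
  have hr : Function.rightLim (cdf (gaussianReal 0 1)) x = cdf (gaussianReal 0 1) x :=
    (cdf (gaussianReal 0 1)).rightLim_eq x
  rw [hr]
  have h1 := (cdf (gaussianReal 0 1)).measure_singleton x
  rw [measure_cdf] at h1
  have h2 : (gaussianReal 0 1) {x} = 0 :=
    gaussianReal_absolutelyContinuous 0 (one_ne_zero : (1 : ℝ≥0) ≠ 0) (by simp)
  rw [h2] at h1
  have h3 := ENNReal.ofReal_eq_zero.1 h1.symm
  exact le_antisymm (hmono.leftLim_le le_rfl) (by linarith)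

theorem exists_exp : ∃ g : ℝ → ℝ, Measurable g ∧ (∀ x, 0 ≤ g x) ∧
    (gaussianReal 0 1).map g = expMeasure 1 := by
  set Φ := cdf (gaussianReal 0 1) with hΦ
  have hs : StrictMono Φ := gauss_cdf_strict
  have hc : Continuous Φ := gauss_cdf_cont
  have h0 : ∀ x, 0 < Φ x := fun x =>
    lt_of_le_of_lt (cdf_nonneg (gaussianReal 0 1) (x - 1)) (hs (by linarith))
  have h1 : ∀ x, Φ x < 1 := fun x =>
    lt_of_lt_of_le (hs (by linarith : x < x + 1)) (cdf_le_one (gaussianReal 0 1) (x + 1))
  have hgm : Measurable (fun x => -Real.log (Φ x)) :=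
    (Real.measurable_log.comp hc.measurable).neg
  refine ⟨fun x => -Real.log (Φ x), hgm, ?_, ?_⟩
  · intro x
    have := Real.log_nonpos (h0 x).le (h1 x).le
    linarith
  · have hp : IsProbabilityMeasure ((gaussianReal 0 1).map (fun x => -Real.log (Φ x))) :=
      Measure.isProbabilityMeasure_map hgm.aemeasurable
    refine Measure.eq_of_cdf _ _ (StieltjesFunction.ext fun y => ?_)
    rw [cdf_eq_real, cdf_expMeasure_eq one_pos, one_mul, map_measureReal_apply hgm measurableSet_Iic]
    have hset : (fun x => -Real.log (Φ x)) ⁻¹' Iic y = {x | Real.exp (-y) ≤ Φ x} := by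
      ext x
      simp only [mem_preimage, mem_Iic, mem_ofPred_eq]
      rw [← Real.le_log_iff_exp_le (h0 x)]
      constructor <;> intro h <;> linarith
    rw [hset]
    by_cases hy : 0 < y
    · rw [if_pos hy.le]
      have hp1 : Real.exp (-y) < 1 := Real.exp_lt_one_iff.2 (by linarith)
      have hp0 : 0 < Real.exp (-y) := Real.exp_pos _
      obtain ⟨a, ha⟩ : ∃ a, Φ a ≤ Real.exp (-y) :=
        ((tendsto_cdf_atBot (gaussianReal 0 1)).eventually_le_const hp0).exists
      obtain ⟨b, hb⟩ : ∃ b, Real.exp (-y) ≤ Φ b :=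
        ((tendsto_cdf_atTop (gaussianReal 0 1)).eventually_const_le hp1).exists
      obtain ⟨x, hx⟩ := mem_range_of_exists_le_of_exists_ge hc ⟨a, ha⟩ ⟨b, hb⟩
      have hset2 : {z | Real.exp (-y) ≤ Φ z} = (Iio x)ᶜ := by
        ext z
        simp only [mem_ofPred_eq, mem_compl_iff, mem_Iio, not_lt]
        rw [← hx]
        exact hs.le_iff_le
      have hx2 : (gaussianReal 0 1).real (Iio x) = Real.exp (-y) := by
        have h3 : (gaussianReal 0 1).real (Iic x) = Real.exp (-y) := by
          rw [← cdf_eq_real]; exact hx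
        have h4 : (gaussianReal 0 1) {x} = 0 :=
          gaussianReal_absolutelyContinuous 0 (one_ne_zero : (1 : ℝ≥0) ≠ 0) (by simp)
        rw [← h3, ← Iio_union_right, measureReal_union (by simp) (measurableSet_singleton x)]
        unfold Measure.real
        rw [h4]
        simp
      rw [hset2, probReal_compl_eq_one_sub measurableSet_Iio, hx2]
    · have hempty : {z | Real.exp (-y) ≤ Φ z} = ∅ := by
        ext z
        simp only [mem_ofPred_eq, mem_empty_iff_false, iff_false, not_le]
        have : 1 ≤ Real.exp (-y) := Real.one_le_exp (by linarith)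
        exact (h1 z).trans_le this
      rw [hempty]
      by_cases hy0 : 0 ≤ y
      · have : y = 0 := le_antisymm (not_lt.1 hy) hy0
        rw [if_pos hy0, this]
        simp
      · rw [if_neg hy0]
        simp

variable {Ω : Type*} [mΩ : MeasurableSpace Ω] {P : Measure Ω} [IsProbabilityMeasure P]
  {F : ℝ → MeasurableSpace Ω} {B : ℝ → Ω → ℝ}

theorem exists_expVar (hB : IsBM P F B) : ∃ e : Ω → ℝ, ExpVar P F e := by
  obtain ⟨g, hg, hg0, hg1⟩ := exists_exp
  have hm : Measurable (fun ω => B 2 ω - B 1 ω) :=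
    (bm_meas hB zero_le_two).sub (bm_meas hB zero_le_one)
  refine ⟨fun ω => g (B 2 ω - B 1 ω), hg.comp hm, fun ω => hg0 _, ?_, ?_⟩
  · refine indep_of_indep_of_le_left (hB.indep 1 2 zero_le_one one_le_two) ?_
    rintro _ ⟨C, hC, rfl⟩
    exact ⟨g ⁻¹' C, hg hC, rfl⟩
  · have h1 : P.map (fun ω => B 2 ω - B 1 ω) = gaussianReal 0 1 := by
      rw [hB.law 1 2 zero_le_one one_le_two]
      congr 1
      ext
      norm_num
    have h2 := Measure.map_map (μ := P) hg hm
    rw [h1, hg1] at h2
    exact h2.symm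

end Pool.Agent.R969.MY
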