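import Pool.Agent.R969.MY.Defs

/-! Continuous adapted processes of finite variation are differences of continuous adapted
nondecreasing processes. -/

set_option autoImplicit false

open scoped ENNReal NNReal Topology
open MeasureTheory ProbabilityTheory Set Filter
open Pool.Agent.Helper41.SK

namespace Pool.Agent.R969.MY

/-- variation along the uniform grid -/
noncomputable def gridVar (f : ℝ → ℝ) (t : ℝ) (n : ℕ) : ℝ≥0∞ :=
  ∑ i ∈ Finset.range (n + 1), edist (f (i * (t / (n + 1 : ℕ)))) (f ((i + 1 : ℕ) * (t / (n + 1 : ℕ))))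

theorem eVar_eq_iSup (f : ℝ → ℝ) (hf : ContinuousOn f (Ici 0)) (t : ℝ) (ht : 0 ≤ t) :
    eVariationOn f (Icc 0 t) = ⨆ n, gridVar f t n := by
  have hgrid : ∀ n : ℕ, gridVar f t n =
      eVariationOn f ((fun i : ℕ => (i : ℝ) * (t / (n + 1 : ℕ))) '' Iic (n + 1)) := by
    intro n
    rw [eVariationOn.image_range_of_monotone]
    · rfl
    · intro i j hij
      have : (i : ℝ) ≤ j := by exact_mod_cast hij
      exact mul_le_mul_of_nonneg_right this (by positivity)
  apply le_antisymm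
  · refine le_of_forall_lt fun v hv => ?_
    set φ : ℕ → ℝ → ℝ := fun n x => (⌊x / (t / (n + 1 : ℕ))⌋₊ : ℝ) * (t / (n + 1 : ℕ)) with hφ
    have hdist : ∀ n : ℕ, ∀ x ∈ Icc 0 t, φ n x ≤ x ∧ x - t / (n + 1 : ℕ) ≤ φ n x := by
      intro n x hx
      have hn : (0 : ℝ) < (n + 1 : ℕ) := by positivity
      rcases ht.eq_or_lt with h0 | h0
      · have hx0 : x = 0 := le_antisymm (by rw [h0]; exact hx.2) hx.1
        simp only [hφ]
        rw [← h0, hx0]
        simp
      · have hδ : 0 < t / (n + 1 : ℕ) := by positivity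
        have h1 : (⌊x / (t / (n + 1 : ℕ))⌋₊ : ℝ) ≤ x / (t / (n + 1 : ℕ)) :=
          Nat.floor_le (div_nonneg hx.1 hδ.le)
        have h2 : x / (t / (n + 1 : ℕ)) < ⌊x / (t / (n + 1 : ℕ))⌋₊ + 1 := Nat.lt_floor_add_one _
        rw [le_div_iff₀ hδ] at h1
        rw [div_lt_iff₀ hδ] at h2
        refine ⟨h1, ?_⟩
        simp only [hφ]
        linarith
    have hφ0 : ∀ n x, 0 ≤ φ n x := fun n x => by simp only [hφ]; positivity
    have hlim : ∀ x ∈ Icc 0 t, Tendsto (fun n => f (φ n x)) atTop (𝓝 (f x)) := by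
      intro x hx
      have h1 : Tendsto (fun n : ℕ => φ n x) atTop (𝓝 x) := by
        have h2 : Tendsto (fun n : ℕ => x - t / (n + 1 : ℕ)) atTop (𝓝 (x - 0)) :=
          tendsto_const_nhds.sub
            ((tendsto_add_atTop_iff_nat 1).2 (tendsto_const_div_atTop_nhds_zero_nat t))
        rw [sub_zero] at h2
        exact tendsto_of_tendsto_of_tendsto_of_le_of_le h2 tendsto_const_nhds
          (fun n => (hdist n x hx).2) (fun n => (hdist n x hx).1)
      exact (hf x hx.1).tendsto.comp (tendsto_nhdsWithin_iff.2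
        ⟨h1, Eventually.of_forall fun n => mem_Ici.2 (hφ0 n x)⟩)
    have hev := eVariationOn.lowerSemicontinuous_aux (F := fun n x => f (φ n x)) hlim hv
    obtain ⟨n, hn⟩ := hev.exists
    refine lt_of_lt_of_le hn (le_trans ?_ (le_iSup _ n))
    rw [hgrid n]
    refine eVariationOn.comp_le_of_monotoneOn f (φ n) ?_ ?_
    · intro x _ y _ hxy
      have hδ : 0 ≤ t / (n + 1 : ℕ) := by positivity
      simp only [hφ]
      refine mul_le_mul_of_nonneg_right ?_ hδ
      exact_mod_cast Nat.floor_mono (div_le_div_of_nonneg_right hxy hδ)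
    · intro x hx
      refine ⟨⌊x / (t / (n + 1 : ℕ))⌋₊, ?_, rfl⟩
      rcases ht.eq_or_lt with h0 | h0
      · rw [← h0]; simp
      · have hδ : 0 < t / (n + 1 : ℕ) := by positivity
        refine mem_Iic.2 (Nat.floor_le_of_le ?_)
        rw [div_le_iff₀ hδ]
        have : ((n + 1 : ℕ) : ℝ) * (t / (n + 1 : ℕ)) = t := by
          have : ((n + 1 : ℕ) : ℝ) ≠ 0 := by positivity
          field_simp
        rw [this]
        exact hx.2
  · refine iSup_le fun n => ?_
    rw [hgrid n]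
    refine eVariationOn.mono f ?_
    rintro _ ⟨i, hi, rfl⟩
    have hn : (0 : ℝ) < (n + 1 : ℕ) := by positivity
    refine ⟨by positivity, ?_⟩
    have h1 : (i : ℝ) ≤ (n + 1 : ℕ) := by exact_mod_cast hi
    calc (i : ℝ) * (t / (n + 1 : ℕ)) ≤ (n + 1 : ℕ) * (t / (n + 1 : ℕ)) := by gcongr
      _ = t := by field_simp

theorem vft_cont {f : ℝ → ℝ} (hf : ContinuousOn f (Ici 0))
    (hv : LocallyBoundedVariationOn f (Ici 0)) :
    ContinuousOn (variationOnFromTo f (Ici 0) 0) (Ici 0) := by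
  intro b hb
  have h0 : (0 : ℝ) ∈ Ici (0 : ℝ) := mem_Ici.2 le_rfl
  have hs : Ici (0 : ℝ) ⊆ (Ici 0 ∩ Iio b) ∪ ({b} ∪ (Ici 0 ∩ Ioi b)) := by
    intro x hx
    rcases lt_trichotomy x b with h | h | h
    · exact Or.inl ⟨hx, h⟩
    · exact Or.inr (Or.inl h)
    · exact Or.inr (Or.inr ⟨hx, h⟩)
  have h1 : Tendsto f (𝓝[Ici 0 ∩ Iio b] b) (𝓝 (f b)) :=
    (hf b hb).mono inter_subset_left
  have h2 : Tendsto f (𝓝[Ici 0 ∩ Ioi b] b) (𝓝 (f b)) :=
    (hf b hb).mono inter_subset_left
  have h3 := variationOnFromTo.tendsto_left h0 hb hv h1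
  have h4 := variationOnFromTo.tendsto_right h0 hb hv h2
  rw [dist_self, sub_zero] at h3
  rw [dist_self, add_zero] at h4
  refine Tendsto.mono_left ?_ (nhdsWithin_mono _ hs)
  rw [nhdsWithin_union, nhdsWithin_union, tendsto_sup, tendsto_sup]
  refine ⟨h3, ?_, h4⟩
  rw [nhdsWithin_singleton]
  exact tendsto_pure_nhds _ _

variable {Ω : Type*} [mΩ : MeasurableSpace Ω] {P : Measure Ω} {G : ℝ → MeasurableSpace Ω}
  {A : ℝ → Ω → ℝ}

/-- decomposition of a continuous adapted finite variation process -/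
theorem fv_decomp (hG : IsFilt P G) (hA : IsCA G A) (h0 : ∀ ω, A 0 ω = 0)
    (hv : ∀ ω, LocallyBoundedVariationOn (fun t => A t ω) (Ici 0)) :
    ∃ A₁ A₂ : ℝ → Ω → ℝ, IsIncr G A₁ ∧ IsIncr G A₂ ∧ ∀ t ω, A t ω = A₁ t ω - A₂ t ω := by
  have hz : (0 : ℝ) ∈ Ici (0 : ℝ) := mem_Ici.2 le_rfl
  set V : ℝ → Ω → ℝ := fun t ω => variationOnFromTo (fun s => A s ω) (Ici 0) 0 t with hV
  have hVm : ∀ t, 0 ≤ t → Measurable[G t] (V t) := by
    intro t ht
    have e : V t = fun ω => (⨆ n, gridVar (fun s => A s ω) t n).toReal := by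
      funext ω
      simp only [hV]
      rw [variationOnFromTo.eq_of_le _ _ ht, inter_eq_right.2 (Icc_subset_Ici_self),
        eVar_eq_iSup _ (hA.cont ω) t ht]
    rw [e]
    refine Measurable.ennreal_toReal (Measurable.iSup fun n => ?_)
    unfold gridVar
    refine Finset.measurable_sum _ fun i hi => ?_
    have hi' : i + 1 ≤ n + 1 := Finset.mem_range.1 hi
    have hn : (0 : ℝ) < (n + 1 : ℕ) := by positivity
    have b1 : ∀ j : ℕ, j ≤ n + 1 → (j : ℝ) * (t / (n + 1 : ℕ)) ≤ t := by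
      intro j hj
      have h1 : (j : ℝ) ≤ (n + 1 : ℕ) := by exact_mod_cast hj
      calc (j : ℝ) * (t / (n + 1 : ℕ)) ≤ (n + 1 : ℕ) * (t / (n + 1 : ℕ)) := by gcongr
        _ = t := by field_simp
    have m1 : ∀ j : ℕ, j ≤ n + 1 → Measurable[G t] (A ((j : ℝ) * (t / (n + 1 : ℕ)))) := by
      intro j hj
      have hj0 : 0 ≤ (j : ℝ) * (t / (n + 1 : ℕ)) := by positivity
      exact (hA.adap _ hj0).mono (hG.mono _ _ hj0 (b1 j hj)) le_rfl
    exact measurable_edist.comp ((m1 i (by omega)).prodMk (m1 (i + 1) hi'))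
  have hVc : ∀ ω, ContinuousOn (fun t => V t ω) (Ici 0) := fun ω => vft_cont (hA.cont ω) (hv ω)
  refine ⟨V, fun t ω => V t ω - A t ω, ⟨⟨hVm, hVc⟩, ?_, ?_⟩, ⟨⟨?_, ?_⟩, ?_, ?_⟩, ?_⟩
  · intro ω
    exact variationOnFromTo.self _ _ _
  · intro ω s t hs hst
    exact variationOnFromTo.monotoneOn (hv ω) hz hs (hs.trans hst) hst
  · intro t ht
    exact (hVm t ht).sub (hA.adap t ht)
  · intro ω
    exact (hVc ω).sub (hA.cont ω)
  · intro ω
    have : V 0 ω = 0 := variationOnFromTo.self _ _ _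
    rw [this, h0, sub_zero]
  · intro ω s t hs hst
    exact variationOnFromTo.sub_self_monotoneOn (hv ω) hz hs (hs.trans hst) hst
  · intro t ω
    ring

/-- a difference of nondecreasing functions has locally bounded variation -/
theorem lbv_sub {f g : ℝ → ℝ} {s : Set ℝ} (hf : MonotoneOn f s) (hg : MonotoneOn g s) :
    LocallyBoundedVariationOn (fun t => f t - g t) s := by
  intro a b ha hb
  have h1 := hf.locallyBoundedVariationOn a b ha hb
  have h2 := hg.locallyBoundedVariationOn a b ha hb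
  refine ne_top_of_le_ne_top (ENNReal.add_ne_top.2 ⟨h1, h2⟩) ?_
  refine iSup_le fun p => ?_
  obtain ⟨n, u, hu, us⟩ := p
  calc ∑ i ∈ Finset.range n, edist (f (u (i + 1)) - g (u (i + 1))) (f (u i) - g (u i))
      ≤ ∑ i ∈ Finset.range n, (edist (f (u (i + 1))) (f (u i)) +
        edist (g (u (i + 1))) (g (u i))) := by
        refine Finset.sum_le_sum fun i _ => ?_
        simp only [edist_dist, Real.dist_eq]
        rw [← ENNReal.ofReal_add (abs_nonneg _) (abs_nonneg _)]
        apply ENNReal.ofReal_le_ofReal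
        have : f (u (i + 1)) - g (u (i + 1)) - (f (u i) - g (u i)) =
          (f (u (i + 1)) - f (u i)) - (g (u (i + 1)) - g (u i)) := by ring
        rw [this]
        exact abs_sub _ _
    _ ≤ _ := by
        rw [Finset.sum_add_distrib]
        exact add_le_add (eVariationOn.sum_le hu us) (eVariationOn.sum_le hu us)

end Pool.Agent.R969.MY
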