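import Pool.Agent.R969.MY.N5
import Pool.Agent.R969.MY.V
import Pool.Agent.Helper41.SK.SB03
import Pool.Agent.Helper41.SK.SB07
import Pool.Agent.Helper41.SK.SD11
import Pool.Agent.Helper41.SK.BMExist

set_option autoImplicit false
set_option warn.classDefReducibility false

open scoped ENNReal NNReal Topology
open MeasureTheory ProbabilityTheory Set Filter
open Pool.Agent.Helper41.SK

namespace Pool.Agent.R969.MY

theorem IsAC.congr {a a' q q' : ℝ → ℝ} (h : IsAC a q) (ha : ∀ t, 0 ≤ t → a t = a' t)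
    (hq : ∀ t, 0 ≤ t → q t = q' t) : IsAC a' q' := by
  intro T hT ε hε
  obtain ⟨δ, hδ, h2⟩ := h T hT ε hε
  refine ⟨δ, hδ, fun n u v huv hd hs => ?_⟩
  have e1 : ∑ i ∈ Finset.range n, |a (v i) - a (u i)| =
      ∑ i ∈ Finset.range n, |a' (v i) - a' (u i)| := by
    refine Finset.sum_congr rfl fun i hi => ?_
    obtain ⟨h3, h4, -⟩ := huv i (Finset.mem_range.1 hi)
    rw [ha _ h3, ha _ (h3.trans h4)]
  have e2 : ∑ i ∈ Finset.range n, |q (v i) - q (u i)| =
      ∑ i ∈ Finset.range n, |q' (v i) - q' (u i)| := by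
    refine Finset.sum_congr rfl fun i hi => ?_
    obtain ⟨h3, h4, -⟩ := huv i (Finset.mem_range.1 hi)
    rw [hq _ h3, hq _ (h3.trans h4)]
  rw [← e1]
  exact h2 n u v huv hd (by rw [e2]; exact hs)

section qv

variable {Ω : Type*} [mΩ : MeasurableSpace Ω] {P : Measure Ω}

/-- uniqueness of the quadratic variation -/
theorem qv_unique {Y Y' Q Q' : ℝ → Ω → ℝ} (h : IsQV P Y Q) (h' : IsQV P Y' Q')
    (hY : ∀ᵐ ω ∂P, ∀ t, 0 ≤ t → Y t ω = Y' t ω) :
    ∀ᵐ ω ∂P, ∀ t, 0 ≤ t → Q t ω = Q' t ω := by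
  have key : ∀ t : ℝ, 0 ≤ t → ∀ᵐ ω ∂P, Q t ω = Q' t ω := by
    intro t ht
    have h1 : ∀ ε : ℝ, 0 < ε → P {ω | 2 * ε ≤ |Q t ω - Q' t ω|} ≤ ENNReal.ofReal (2 * ε) := by
      intro ε hε
      obtain ⟨δ, hδ, h2⟩ := h.lim t ht ε hε
      obtain ⟨δ', hδ', h3⟩ := h'.lim t ht ε hε
      obtain ⟨n, hn⟩ := exists_nat_gt (t / min δ δ')
      have hm : 0 < min δ δ' := lt_min hδ hδ'
      have hn0 : (0 : ℝ) < n := lt_of_le_of_lt (by positivity) hn
      have hmesh : t / n ≤ min δ δ' := by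
        rw [div_lt_iff₀ hm] at hn
        rw [div_le_iff₀ hn0]
        linarith
      set τ : ℕ → ℝ := fun i => i * (t / n) with hτ
      have hτm : Monotone τ := by
        intro i j hij
        have : (i : ℝ) ≤ j := by exact_mod_cast hij
        exact mul_le_mul_of_nonneg_right this (by positivity)
      have hτ0 : τ 0 = 0 := by simp [hτ]
      have hτn : τ n = t := by simp only [hτ]; field_simp
      have hτi : ∀ i, 0 ≤ τ i := fun i => by simp only [hτ]; positivity
      have hinc : ∀ i, τ (i + 1) - τ i = t / n := by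
        intro i
        simp only [hτ]
        push_cast
        ring
      have h4 := h2 n τ hτm hτ0 hτn fun i _ => by
        rw [hinc]; exact hmesh.trans (min_le_left _ _)
      have h5 := h3 n τ hτm hτ0 hτn fun i _ => by
        rw [hinc]; exact hmesh.trans (min_le_right _ _)
      have h6 : {ω | 2 * ε ≤ |Q t ω - Q' t ω|} ≤ᵐ[P]
          ({ω | ε ≤ |∑ i ∈ Finset.range n, (Y (τ (i + 1)) ω - Y (τ i) ω) ^ 2 - Q t ω|} ∪
          {ω | ε ≤ |∑ i ∈ Finset.range n, (Y' (τ (i + 1)) ω - Y' (τ i) ω) ^ 2 - Q' t ω|} :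
            Set Ω) := by
        filter_upwards [hY] with ω hω hmem
        have hsum : ∑ i ∈ Finset.range n, (Y (τ (i + 1)) ω - Y (τ i) ω) ^ 2 =
            ∑ i ∈ Finset.range n, (Y' (τ (i + 1)) ω - Y' (τ i) ω) ^ 2 := by
          refine Finset.sum_congr rfl fun i _ => ?_
          rw [hω _ (hτi _), hω _ (hτi _)]
        by_contra hcon
        change ¬ (_ ∨ _) at hcon
        rw [not_or] at hcon
        obtain ⟨c1, c2⟩ := hcon
        have c1' : |∑ i ∈ Finset.range n, (Y (τ (i + 1)) ω - Y (τ i) ω) ^ 2 - Q t ω| < ε :=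
          not_le.1 c1
        have c2' : |∑ i ∈ Finset.range n, (Y' (τ (i + 1)) ω - Y' (τ i) ω) ^ 2 - Q' t ω| < ε :=
          not_le.1 c2
        have c3 : 2 * ε ≤ |Q t ω - Q' t ω| := hmem
        rw [hsum] at c1'
        have c4 : |Q t ω - Q' t ω| ≤
            |∑ i ∈ Finset.range n, (Y' (τ (i + 1)) ω - Y' (τ i) ω) ^ 2 - Q t ω| +
            |∑ i ∈ Finset.range n, (Y' (τ (i + 1)) ω - Y' (τ i) ω) ^ 2 - Q' t ω| := by
          have := abs_sub (∑ i ∈ Finset.range n, (Y' (τ (i + 1)) ω - Y' (τ i) ω) ^ 2 - Q' t ω)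
            (∑ i ∈ Finset.range n, (Y' (τ (i + 1)) ω - Y' (τ i) ω) ^ 2 - Q t ω)
          have e : (∑ i ∈ Finset.range n, (Y' (τ (i + 1)) ω - Y' (τ i) ω) ^ 2 - Q' t ω) -
            (∑ i ∈ Finset.range n, (Y' (τ (i + 1)) ω - Y' (τ i) ω) ^ 2 - Q t ω) =
            Q t ω - Q' t ω := by ring
          rw [e] at this
          linarith
        linarith
      refine (measure_mono_ae h6).trans ((measure_union_le _ _).trans ?_)
      rw [two_mul, ENNReal.ofReal_add hε.le hε.le]
      exact add_le_add h4 h5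
    have h7 : ∀ η : ℝ, 0 < η → P {ω | η ≤ |Q t ω - Q' t ω|} = 0 := by
      intro η hη
      refine le_antisymm (ENNReal.le_of_forall_pos_le_add fun ε hε _ => ?_) bot_le
      rw [zero_add]
      set ε' : ℝ := min (η / 2) (ε / 2) with hε'
      have hε'0 : 0 < ε' := lt_min (by positivity) (by positivity)
      have h8 := h1 ε' hε'0
      refine le_trans (measure_mono ?_) (h8.trans ?_)
      · intro ω hω
        have : η ≤ |Q t ω - Q' t ω| := hω
        have h9 : 2 * ε' ≤ η := by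
          have := min_le_left (η / 2) ((ε : ℝ) / 2)
          linarith
        exact h9.trans this
      · have h9 : 2 * ε' ≤ ε := by
          have := min_le_right (η / 2) ((ε : ℝ) / 2)
          linarith
        calc ENNReal.ofReal (2 * ε') ≤ ENNReal.ofReal ε := ENNReal.ofReal_le_ofReal h9
          _ = ε := ENNReal.ofReal_coe_nnreal
    have h8 : ∀ᵐ ω ∂P, ∀ k : ℕ, ¬ (1 / ((k : ℝ) + 1) ≤ |Q t ω - Q' t ω|) := by
      rw [ae_all_iff]
      intro k
      rw [ae_iff]
      simp only [not_not]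
      exact h7 _ (by positivity)
    filter_upwards [h8] with ω hω
    by_contra hne
    have hpos : 0 < |Q t ω - Q' t ω| := abs_pos.2 (sub_ne_zero.2 hne)
    obtain ⟨k, hk⟩ := exists_nat_one_div_lt hpos
    exact hω k hk.le
  have hrat : ∀ᵐ ω ∂P, ∀ q : ℚ, 0 ≤ (q : ℝ) → Q q ω = Q' q ω := by
    rw [ae_all_iff]
    intro q
    by_cases hq : 0 ≤ (q : ℝ)
    · filter_upwards [key q hq] with ω hω _
      exact hω
    · exact Eventually.of_forall fun ω h => absurd h hq
  filter_upwards [hrat] with ω hω t ht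
  -- continuity
  have hc1 := h.cont ω t ht
  have hc2 := h'.cont ω t ht
  have hseq : ∃ r : ℕ → ℚ, (∀ n, t < r n) ∧ Tendsto (fun n => (r n : ℝ)) atTop (𝓝 t) := by
    have : ∀ n : ℕ, ∃ r : ℚ, t < r ∧ (r : ℝ) < t + 1 / ((n : ℝ) + 1) := fun n =>
      exists_rat_btwn (by have : (0 : ℝ) < 1 / ((n : ℝ) + 1) := by positivity
                          linarith)
    choose r hr using this
    refine ⟨r, fun n => (hr n).1, ?_⟩
    have h1 : Tendsto (fun n : ℕ => t + 1 / ((n : ℝ) + 1)) atTop (𝓝 (t + 0)) :=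
      tendsto_const_nhds.add tendsto_one_div_add_atTop_nhds_zero_nat
    rw [add_zero] at h1
    exact tendsto_of_tendsto_of_tendsto_of_le_of_le tendsto_const_nhds h1
      (fun n => (hr n).1.le) (fun n => (hr n).2.le)
  obtain ⟨r, hr1, hr2⟩ := hseq
  have hr3 : Tendsto (fun n => (r n : ℝ)) atTop (𝓝[Ici 0] t) :=
    tendsto_nhdsWithin_iff.2 ⟨hr2, Eventually.of_forall fun n => mem_Ici.2 (ht.trans (hr1 n).le)⟩
  have t1 : Tendsto (fun n => Q (r n) ω) atTop (𝓝 (Q t ω)) := hc1.tendsto.comp hr3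
  have t2 : Tendsto (fun n => Q' (r n) ω) atTop (𝓝 (Q' t ω)) := hc2.tendsto.comp hr3
  have t3 : (fun n => Q (r n) ω) = fun n => Q' (r n) ω := by
    funext n
    exact hω (r n) (ht.trans (hr1 n).le)
  rw [t3] at t1
  exact tendsto_nhds_unique t1 t2

end qv

variable {Ω : Type*} [mΩ : MeasurableSpace Ω] {P : Measure Ω} [IsProbabilityMeasure P]
  {F G : ℝ → MeasurableSpace Ω} {B : ℝ → Ω → ℝ} {e : Ω → ℝ}

/-- uniqueness of the decomposition of a continuous semimartingale -/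
theorem decomp_unique (hG : IsFilt P G) {Y N A N' A' : ℝ → Ω → ℝ} (h : IsDecomp P G Y N A)
    (h' : IsDecomp P G Y N' A') :
    ∀ᵐ ω ∂P, ∀ t, 0 ≤ t → N t ω = N' t ω ∧ A t ω = A' t ω := by
  obtain ⟨A₁, A₂, i1, i2, hA⟩ := fv_decomp hG h.ca h.zero h.fv
  obtain ⟨A₁', A₂', i1', i2', hA'⟩ := fv_decomp hG h'.ca h'.zero h'.fv
  have hL := locmart_lin hG N N' h.locMart h'.locMart 1 (-1)
  have hadd : ∀ C D : ℝ → Ω → ℝ, IsIncr G C → IsIncr G D →
      IsIncr G (fun t ω => C t ω + D t ω) := by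
    intro C D hC hD
    refine ⟨⟨fun t ht => (hC.ca.adap t ht).add (hD.ca.adap t ht), fun ω =>
      (hC.ca.cont ω).add (hD.ca.cont ω)⟩, fun ω => ?_, fun ω s t hs hst => ?_⟩
    · rw [hC.zero, hD.zero, add_zero]
    · exact add_le_add (hC.mono ω s t hs hst) (hD.mono ω s t hs hst)
  have hzero : IsIncr G (fun (_ : ℝ) (_ : Ω) => (0 : ℝ)) :=
    ⟨⟨fun t _ => measurable_const, fun ω => continuousOn_const⟩, fun ω => rfl,
      fun ω s t _ _ => le_rfl⟩
  have hall := nlem_all hG _ _ _ _ hL (hadd A₁ A₂' i1 i2') (hadd A₂ A₁' i2 i1') hzero (fun _ => 0)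
    (by
      filter_upwards [h.eq, h'.eq] with ω h1 h2 t ht
      have e1 := h1 t ht
      have e2 := h2 t ht
      rw [hA] at e1
      rw [hA'] at e2
      linarith)
  filter_upwards [hall, h.eq, h'.eq] with ω h0 h1 h2 t ht
  have e0 := h0 t ht
  have e1 := h1 t ht
  have e2 := h2 t ht
  have e3 := h1 0 le_rfl
  have e4 := h2 0 le_rfl
  rw [h.zero] at e3
  rw [h'.zero] at e4
  constructor <;> linarith

theorem AT_decomp (hB : IsBM P F B) (he : ExpVar P F e) :
    IsDecomp P (Rt (HH F B e)) (fun t ω => B (min t 1) ω) (NT B e) (AT B e) := by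
  have hS := Rt_sbm (NT_sbm hB he)
  refine ⟨mart_locmart hS.filt _ hS.mart hS.ca, ⟨fun t ht => ?_, fun ω => ?_⟩, fun ω => ?_,
    fun ω => ?_, ?_⟩
  · have h1 : Measurable[HH F B e t] (AT B e t) := by
      unfold AT
      have h2 : Measurable[HH F B e t] (JT B e t) := JT_meas_HH hB ht le_rfl
      have h3 : Measurable[HH F B e t] (JT B e 0) := JT_meas_HH hB le_rfl ht
      exact ((h2.sub h3).const_mul 2).const_add _
    exact h1.mono (le_Rt (HH_filt hB he) ht) le_rfl
  · unfold AT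
    have h2 := JT_cont (hB.ca.cont ω) e
    refine ContinuousOn.add (by fun_prop) (ContinuousOn.const_mul ?_ 2)
    exact h2.sub continuousOn_const
  · unfold AT
    rw [min_eq_left zero_le_one]
    ring
  · have h1 : (fun t => AT B e t ω) = fun t => min t 1 - 2 * (JT B e 0 ω - JT B e t ω) := by
      funext t
      unfold AT
      ring
    rw [h1]
    refine lbv_sub ?_ ?_
    · intro a _ b _ hab
      exact min_le_min_right 1 hab
    · intro a ha b _ hab
      have := JT_anti (hB.ca.cont ω) e ha hab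
      simp only
      linarith
  · refine Eventually.of_forall fun ω t _ => ?_
    unfold NT AT
    ring

/-- `M` is not a regular semimartingale in the enlarged filtration -/
theorem not_regular (hB : IsBM P F B) (he : ExpVar P F e) :
    ¬ IsRegular P (Rt (HH F B e)) (fun t ω => B (min t 1) ω) := by
  rintro ⟨-, N, A, Q, hd, hQ, hac⟩
  have hS := Rt_sbm (NT_sbm hB he)
  have h1 := decomp_unique hS.filt hd (AT_decomp hB he)
  have h2 := qv_unique hQ hS.qv (by
    filter_upwards [h1] with ω hω t ht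
    exact (hω t ht).1)
  refine not_ac hB he ?_
  filter_upwards [hac, h1, h2] with ω h3 h4 h5
  exact h3.congr (fun t ht => (h4 t ht).2) h5

/-- the example -/
theorem main : ∃ (Ω : Type) (_ : MeasurableSpace Ω) (P : Measure Ω)
    (F G : ℝ → MeasurableSpace Ω) (M : ℝ → Ω → ℝ),
    IsProbabilityMeasure P ∧ P.IsComplete ∧
    -- the filtrations contain the null sets and are right-continuous
    IsFilt P F ∧ IsFilt P G ∧ (∀ t, 0 ≤ t → F t ≤ G t) ∧
    (∀ t, 0 ≤ t → F t = ⨅ u : {u : ℝ // t < u}, F u.1) ∧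
    (∀ t, 0 ≤ t → G t = ⨅ u : {u : ℝ // t < u}, G u.1) ∧
    -- `M` is a continuous `F`-martingale and a `G`-semimartingale, but not a regular one
    IsMart P F M ∧ IsLocMart P F M ∧ IsSemi P G M ∧ ¬ IsRegular P G M ∧
    -- details on the `G`-decomposition `M = N + A`
    IsQV P M (fun t _ => min t 1) ∧
    ∃ N A : ℝ → Ω → ℝ, IsDecomp P G M N A ∧ IsMart P G N ∧ IsQV P N (fun t _ => min t 1) ∧
      ¬ ∀ᵐ ω ∂P, IsAC (fun t => A t ω) (fun t => min t 1) := by
  obtain ⟨Ω, mΩ, P, B, hP, hc, hB0⟩ := exists_bm0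
  have hB : IsBM P (augF P B) B := aug_bm hc hB0
  obtain ⟨e, he⟩ := exists_expVar hB
  have hM := BT_sbm hB
  have hN := Rt_sbm (NT_sbm hB he)
  have hle : ∀ t, 0 ≤ t → augF P B t ≤ Rt (HH (augF P B) B e) t := fun t ht =>
    (le_sup_left : augF P B t ≤ HH (augF P B) B e t).trans (le_Rt (HH_filt hB he) ht)
  have hMG : IsCA (Rt (HH (augF P B) B e)) (fun t ω => B (min t 1) ω) :=
    ⟨fun t ht => (hM.ca.adap t ht).mono (hle t ht) le_rfl, hM.ca.cont⟩
  refine ⟨Ω, mΩ, P, augF P B, Rt (HH (augF P B) B e), fun t ω => B (min t 1) ω, hP, hc,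
    hB.filt, hN.filt, hle, fun t _ => ?_, fun t _ => Rt_right t, hM.mart,
    mart_locmart hB.filt _ hM.mart hM.ca, ⟨hMG, NT B e, AT B e, AT_decomp hB he⟩,
    not_regular hB he, hM.qv, NT B e, AT B e, AT_decomp hB he, hN.mart, hN.qv, not_ac hB he⟩
  exact Rt_right (H := fun s => (⨆ r : {r : ℝ // 0 ≤ r ∧ r ≤ s},
    MeasurableSpace.comap (B r.1) inferInstance) ⊔ MeasurableSpace.generateFrom {A | P A = 0}) t

end Pool.Agent.R969.MY
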